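import Pool.Agent.Work.MP_9c254e_an.Defs

/-!
# Calculus: bounded functions of class `C^k`, gradient, divergence, integration by parts
-/

open scoped ContDiff Topology RealInnerProductSpace
open Set MeasureTheory Filter

namespace Pool.Agent.TF

variable {N : ℕ}

/-! ### partial derivatives -/

theorem pd_add {i : Fin N} {f g : E N → ℝ} {x : E N} (hf : DifferentiableAt ℝ f x)
    (hg : DifferentiableAt ℝ g x) : pd i (fun y => f y + g y) x = pd i f x + pd i g x := by
  unfold pd
  rw [fderiv_fun_add hf hg]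
  rfl

theorem pd_sub {i : Fin N} {f g : E N → ℝ} {x : E N} (hf : DifferentiableAt ℝ f x)
    (hg : DifferentiableAt ℝ g x) : pd i (fun y => f y - g y) x = pd i f x - pd i g x := by
  unfold pd
  rw [fderiv_fun_sub hf hg]
  rfl

theorem pd_mul {i : Fin N} {f g : E N → ℝ} {x : E N} (hf : DifferentiableAt ℝ f x)
    (hg : DifferentiableAt ℝ g x) :
    pd i (fun y => f y * g y) x = pd i f x * g x + f x * pd i g x := by
  unfold pd
  rw [fderiv_fun_mul hf hg]
  simp
  ring

theorem pd_const_mul {i : Fin N} {f : E N → ℝ} {x : E N} (c : ℝ) (hf : DifferentiableAt ℝ f x) :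
    pd i (fun y => c * f y) x = c * pd i f x := by
  unfold pd
  rw [fderiv_const_mul hf]
  simp

theorem pd_sq {i : Fin N} {f : E N → ℝ} {x : E N} (hf : DifferentiableAt ℝ f x) :
    pd i (fun y => f y ^ 2) x = 2 * f x * pd i f x := by
  have h : (fun y => f y ^ 2) = fun y => f y * f y := by
    funext y
    ring
  rw [h, pd_mul hf hf]
  ring

theorem pd_sum {i : Fin N} {ι : Type*} {s : Finset ι} {f : ι → E N → ℝ} {x : E N}
    (hf : ∀ j ∈ s, DifferentiableAt ℝ (f j) x) :
    pd i (fun y => ∑ j ∈ s, f j y) x = ∑ j ∈ s, pd i (f j) x := by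
  unfold pd
  rw [fderiv_fun_sum hf]
  simp

theorem pd_congr {i : Fin N} {f g : E N → ℝ} {x : E N} (h : f =ᶠ[𝓝 x] g) :
    pd i f x = pd i g x := by
  unfold pd
  rw [h.fderiv_eq]

theorem pd_eventually {i : Fin N} {f g : E N → ℝ} {x : E N} (h : f =ᶠ[𝓝 x] g) :
    pd i f =ᶠ[𝓝 x] pd i g := by
  filter_upwards [h.eventuallyEq_nhds] with y hy
  exact pd_congr hy

theorem pd_comm {i j : Fin N} {f : E N → ℝ} {x : E N} (hf : ContDiffAt ℝ 2 f x) :
    pd i (pd j f) x = pd j (pd i f) x := by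
  have hd : DifferentiableAt ℝ (fderiv ℝ f) x :=
    (hf.fderiv_right (m := 1) (by norm_num)).differentiableAt (by norm_num)
  have key : ∀ i j : Fin N, pd i (pd j f) x =
      fderiv ℝ (fderiv ℝ f) x (EuclideanSpace.single i 1) (EuclideanSpace.single j 1) := by
    intro i j
    unfold pd
    rw [fderiv_clm_apply hd (differentiableAt_const _)]
    simp
  have hs : IsSymmSndFDerivAt ℝ f x := by
    apply hf.isSymmSndFDerivAt
    rw [minSmoothness_of_isRCLikeNormedField]
  rw [key, key, hs]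

theorem contDiffOn_pd {i : Fin N} {U : Set (E N)} (hU : IsOpen U) {k : ℕ} {f : E N → ℝ}
    (hf : ContDiffOn ℝ (k + 1 : ℕ) f U) : ContDiffOn ℝ k (pd i f) U := by
  have h1 : ContDiffOn ℝ k (fderiv ℝ f) U := by
    refine hf.fderiv_of_isOpen hU ?_
    push_cast
    exact le_rfl
  exact h1.clm_apply contDiffOn_const

theorem continuous_pd {i : Fin N} {f : E N → ℝ} (hf : ContDiff ℝ 1 f) : Continuous (pd i f) :=
  (hf.continuous_fderiv (by norm_num)).clm_apply continuous_const

theorem norm_single (i : Fin N) : ‖(EuclideanSpace.single i 1 : E N)‖ = 1 := by simp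

/-! ### bounded functions of class `C^k` -/

/-- functions of class `C^k` with derivatives bounded by `K` -/
def Bd (k : ℕ) (K : ℝ) (U : Set (E N)) (f : E N → ℝ) : Prop :=
  ContDiffOn ℝ k f U ∧ ∀ j ≤ k, ∀ x ∈ U, ‖iteratedFDeriv ℝ j f x‖ ≤ K

theorem Bd.mono {k l : ℕ} {K L : ℝ} {U : Set (E N)} {f : E N → ℝ} (h : Bd k K U f) (hl : l ≤ k)
    (hL : K ≤ L) : Bd l L U f :=
  ⟨h.1.of_le (by exact_mod_cast hl), fun j hj x hx => (h.2 j (hj.trans hl) x hx).trans hL⟩

theorem Bd.abs_le {k : ℕ} {K : ℝ} {U : Set (E N)} {f : E N → ℝ} (h : Bd k K U f) {x : E N}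
    (hx : x ∈ U) : |f x| ≤ K := by
  have := h.2 0 (Nat.zero_le _) x hx
  rwa [norm_iteratedFDeriv_zero, Real.norm_eq_abs] at this

theorem Bd.norm_fderiv {k : ℕ} {K : ℝ} {U : Set (E N)} {f : E N → ℝ} (h : Bd (k + 1) K U f)
    {x : E N} (hx : x ∈ U) : ‖fderiv ℝ f x‖ ≤ K := by
  have := h.2 1 (by omega) x hx
  rwa [norm_iteratedFDeriv_one] at this

theorem Bd.pd {k : ℕ} {K : ℝ} {U : Set (E N)} (hU : IsOpen U) {f : E N → ℝ}
    (h : Bd (k + 1) K U f) (i : Fin N) : Bd k K U (pd i f) := by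
  refine ⟨contDiffOn_pd hU h.1, fun j hj x hx => ?_⟩
  have h1 : ContDiffAt ℝ j (fderiv ℝ f) x := by
    refine ((h.1.contDiffAt (hU.mem_nhds hx)).fderiv_right (m := j) ?_)
    exact_mod_cast Nat.add_le_add_right hj 1
  have h2 := norm_iteratedFDeriv_clm_apply_const (c := (EuclideanSpace.single i 1 : E N)) h1 le_rfl
  rw [norm_single, one_mul, norm_iteratedFDeriv_fderiv] at h2
  exact h2.trans (h.2 (j + 1) (by omega) x hx)

theorem Bd.add {k : ℕ} {K L : ℝ} {U : Set (E N)} (hU : IsOpen U) {f g : E N → ℝ}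
    (hf : Bd k K U f) (hg : Bd k L U g) : Bd k (K + L) U fun x => f x + g x := by
  refine ⟨hf.1.add hg.1, fun j hj x hx => ?_⟩
  have h1 : ContDiffAt ℝ j f x :=
    (hf.1.contDiffAt (hU.mem_nhds hx)).of_le (by exact_mod_cast hj)
  have h2 : ContDiffAt ℝ j g x :=
    (hg.1.contDiffAt (hU.mem_nhds hx)).of_le (by exact_mod_cast hj)
  have h3 := iteratedFDeriv_add_apply h1 h2
  have h4 : (f + g) = fun x => f x + g x := rfl
  rw [h4] at h3
  rw [h3]
  exact (norm_add_le _ _).trans (add_le_add (hf.2 j hj x hx) (hg.2 j hj x hx))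

theorem Bd.zero {k : ℕ} {U : Set (E N)} : Bd k 0 U fun _ => 0 := by
  refine ⟨contDiffOn_const, fun j hj x hx => ?_⟩
  rw [iteratedFDeriv_fun_zero]
  simp

theorem Bd.sum {k : ℕ} {K : ℝ} {U : Set (E N)} (hU : IsOpen U) {ι : Type*} (s : Finset ι)
    {f : ι → E N → ℝ} (hf : ∀ i ∈ s, Bd k K U (f i)) :
    Bd k (s.card * K) U fun x => ∑ i ∈ s, f i x := by
  classical
  induction s using Finset.induction_on with
  | empty => simpa using Bd.zero
  | insert a s ha ih =>
    have h1 := (hf a (Finset.mem_insert_self _ _)).add hU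
      (ih fun i hi => hf i (Finset.mem_insert_of_mem hi))
    rw [Finset.card_insert_of_notMem ha]
    have h2 : (fun x => ∑ i ∈ insert a s, f i x) = fun x => f a x + ∑ i ∈ s, f i x := by
      funext x
      rw [Finset.sum_insert ha]
    rw [h2]
    refine h1.mono le_rfl ?_
    push_cast
    linarith

theorem Bd.mul {k : ℕ} {K L : ℝ} {U : Set (E N)} (hU : IsOpen U) (hK : 0 ≤ K) (hL : 0 ≤ L)
    {f g : E N → ℝ} (hf : Bd k K U f) (hg : Bd k L U g) :
    Bd k (2 ^ k * K * L) U fun x => f x * g x := by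
  refine ⟨hf.1.mul hg.1, fun j hj x hx => ?_⟩
  have hw : ∀ (h : E N → ℝ) (l : ℕ), iteratedFDerivWithin ℝ l h U x = iteratedFDeriv ℝ l h x :=
    fun h l => iteratedFDerivWithin_of_isOpen l hU hx
  have h1 := norm_iteratedFDerivWithin_mul_le (𝕜 := ℝ) (hf.1) (hg.1) hU.uniqueDiffOn hx
    (n := j) (by exact_mod_cast hj)
  simp only [hw] at h1
  refine h1.trans ?_
  calc ∑ i ∈ Finset.range (j + 1), (j.choose i : ℝ) * ‖iteratedFDeriv ℝ i f x‖ *
        ‖iteratedFDeriv ℝ (j - i) g x‖
      ≤ ∑ i ∈ Finset.range (j + 1), (j.choose i : ℝ) * K * L := by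
        refine Finset.sum_le_sum fun i hi => ?_
        have hi' : i ≤ j := by
          rw [Finset.mem_range] at hi
          omega
        gcongr
        · exact hf.2 i (by omega) x hx
        · exact hg.2 (j - i) (by omega) x hx
    _ = 2 ^ j * K * L := by
        rw [← Finset.sum_mul, ← Finset.sum_mul]
        have := Nat.sum_range_choose j
        rw [← Nat.cast_sum, this]
        push_cast
        ring
    _ ≤ 2 ^ k * K * L := by
        gcongr
        norm_num

theorem Bd.lap {k : ℕ} {K : ℝ} {U : Set (E N)} (hU : IsOpen U) {f : E N → ℝ}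
    (h : Bd (k + 2) K U f) : Bd k (N * K) U (lap f) := by
  have h1 := Bd.sum hU (Finset.univ : Finset (Fin N)) (f := fun i => TF.pd i (TF.pd i f))
    fun i _ => (h.pd hU i).pd hU i
  rw [Finset.card_univ, Fintype.card_fin] at h1
  exact h1

theorem Bd.sq {K : ℝ} {U : Set (E N)} (hU : IsOpen U) (hK : 0 ≤ K) {u : E N → ℝ}
    (h : Bd 4 K U u) : Bd 4 (16 * K ^ 2) U fun x => u x ^ 2 := by
  have h1 := h.mul hU hK hK h
  have h2 : (fun x => u x ^ 2) = fun x => u x * u x := by
    funext x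
    ring
  rw [h2]
  refine h1.mono le_rfl ?_
  linarith

theorem Bd.lap_sq {K : ℝ} {U : Set (E N)} (hU : IsOpen U) (hK : 0 ≤ K) {u : E N → ℝ}
    (h : Bd 4 K U u) : Bd 2 (N * (16 * K ^ 2)) U (TF.lap fun x => u x ^ 2) :=
  Bd.lap hU (h.sq hU hK)

theorem Bd.lap_lap_sq {K : ℝ} {U : Set (E N)} (hU : IsOpen U) (hK : 0 ≤ K) {u : E N → ℝ}
    (h : Bd 4 K U u) : Bd 0 (N * (N * (16 * K ^ 2))) U (TF.lap (TF.lap fun x => u x ^ 2)) :=
  Bd.lap hU (h.lap_sq hU hK)

/-! ### the gradient -/

/-- the gradient -/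
noncomputable def gr (f : E N → ℝ) (x : E N) : E N := WithLp.toLp 2 fun i => pd i f x

@[simp] theorem gr_apply (f : E N → ℝ) (x : E N) (i : Fin N) : gr f x i = pd i f x := rfl

theorem inner_eq (a b : E N) : ⟪a, b⟫ = ∑ i, a i * b i := by
  rw [PiLp.inner_apply]
  refine Finset.sum_congr rfl fun i _ => ?_
  simp [mul_comm]

theorem norm_sq_eq (a : E N) : ‖a‖ ^ 2 = ∑ i, a i * a i := by
  rw [← real_inner_self_eq_norm_sq, inner_eq]

theorem fderiv_eq_inner (f : E N → ℝ) (x v : E N) : fderiv ℝ f x v = ⟪gr f x, v⟫ := by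
  have h : v = ∑ i, v i • (EuclideanSpace.single i (1 : ℝ) : E N) := by
    ext j
    simp [Finset.sum_apply, Pi.single_apply]
  rw [inner_eq]
  conv_lhs => rw [h]
  rw [map_sum]
  refine Finset.sum_congr rfl fun i _ => ?_
  rw [map_smul, smul_eq_mul, gr_apply, mul_comm]
  rfl

theorem norm_gr_le (f : E N → ℝ) (x : E N) : ‖gr f x‖ ≤ ‖fderiv ℝ f x‖ := by
  have h1 : ‖gr f x‖ ^ 2 ≤ ‖fderiv ℝ f x‖ * ‖gr f x‖ := by
    rw [← real_inner_self_eq_norm_sq, ← fderiv_eq_inner]
    exact (le_abs_self _).trans ((fderiv ℝ f x).le_opNorm _)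
  rcases eq_or_lt_of_le (norm_nonneg (gr f x)) with h | h
  · rw [← h]
    exact norm_nonneg _
  · nlinarith

theorem norm_fderiv_le (f : E N → ℝ) (x : E N) : ‖fderiv ℝ f x‖ ≤ ‖gr f x‖ := by
  refine ContinuousLinearMap.opNorm_le_bound _ (norm_nonneg _) fun v => ?_
  rw [fderiv_eq_inner]
  exact abs_real_inner_le_norm _ _

theorem abs_pd_le (f : E N → ℝ) (x : E N) (i : Fin N) : |pd i f x| ≤ ‖gr f x‖ := by
  exact PiLp.norm_apply_le (gr f x) i

/-! ### divergence and integration by parts -/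

/-- the divergence -/
noncomputable def dv (G : E N → E N) (x : E N) : ℝ := ∑ i, pd i (fun y => G y i) x

theorem dv_gr (f : E N → ℝ) (x : E N) : dv (gr f) x = lap f x := rfl

theorem dv_smul {f : E N → ℝ} {G : E N → E N} {x : E N} (hf : DifferentiableAt ℝ f x)
    (hG : ∀ i, DifferentiableAt ℝ (fun y => G y i) x) :
    dv (fun y => f y • G y) x = ⟪gr f x, G x⟫ + f x * dv G x := by
  unfold dv
  rw [inner_eq, Finset.mul_sum, ← Finset.sum_add_distrib]
  refine Finset.sum_congr rfl fun i _ => ?_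
  have h : (fun y => (f y • G y) i) = fun y => f y * G y i := rfl
  rw [h, pd_mul hf (hG i)]
  rfl

theorem gr_mul {f g : E N → ℝ} {x : E N} (hf : DifferentiableAt ℝ f x)
    (hg : DifferentiableAt ℝ g x) : gr (fun y => f y * g y) x = g x • gr f x + f x • gr g x := by
  ext i
  change pd i (fun y => f y * g y) x = g x * pd i f x + f x * pd i g x
  rw [pd_mul hf hg]
  ring

theorem gr_add {f g : E N → ℝ} {x : E N} (hf : DifferentiableAt ℝ f x)
    (hg : DifferentiableAt ℝ g x) : gr (fun y => f y + g y) x = gr f x + gr g x := by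
  ext i
  exact pd_add hf hg

theorem gr_sub {f g : E N → ℝ} {x : E N} (hf : DifferentiableAt ℝ f x)
    (hg : DifferentiableAt ℝ g x) : gr (fun y => f y - g y) x = gr f x - gr g x := by
  ext i
  exact pd_sub hf hg

theorem gr_sq {f : E N → ℝ} {x : E N} (hf : DifferentiableAt ℝ f x) :
    gr (fun y => f y ^ 2) x = (2 * f x) • gr f x := by
  ext i
  exact pd_sq hf

theorem gr_congr {f g : E N → ℝ} {x : E N} (h : f =ᶠ[𝓝 x] g) : gr f x = gr g x := by
  ext i
  exact pd_congr h

theorem lap_congr {f g : E N → ℝ} {x : E N} (h : f =ᶠ[𝓝 x] g) : lap f x = lap g x := by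
  unfold lap
  exact Finset.sum_congr rfl fun i _ => pd_congr (pd_eventually h)

theorem dv_congr {F G : E N → E N} {x : E N} (h : F =ᶠ[𝓝 x] G) : dv F x = dv G x := by
  unfold dv
  refine Finset.sum_congr rfl fun i _ => pd_congr ?_
  filter_upwards [h] with y hy
  rw [hy]

/-- a continuous function times a cut-off function -/
theorem continuous_cut_mul {U : Set (E N)} (hU : IsOpen U) {χ h : E N → ℝ} (hχ : Continuous χ)
    (hs : tsupport χ ⊆ U) (hh : ContinuousOn h U) : Continuous fun x => χ x * h x := by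
  refine ContinuousOn.continuous_of_tsupport_subset (hχ.continuousOn.mul hh) hU ?_
  exact (tsupport_mul_subset_left (f := χ) (g := h)).trans hs

theorem integrable_cut_mul {U : Set (E N)} (hU : IsOpen U) {χ h : E N → ℝ} (hχ : Continuous χ)
    (hc : HasCompactSupport χ) (hs : tsupport χ ⊆ U) (hh : ContinuousOn h U) :
    Integrable fun x => χ x * h x :=
  (continuous_cut_mul hU hχ hs hh).integrable_of_hasCompactSupport
    (HasCompactSupport.mul_right (f' := h) hc)

theorem tsupport_pd_subset (χ : E N → ℝ) (i : Fin N) : tsupport (pd i χ) ⊆ tsupport χ := by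
  refine closure_minimal ?_ (isClosed_tsupport χ)
  intro x hx
  by_contra hx'
  apply hx
  have h1 : χ =ᶠ[𝓝 x] fun _ => 0 := by
    filter_upwards [(isClosed_tsupport χ).isOpen_compl.mem_nhds hx'] with y hy
    exact image_eq_zero_of_notMem_tsupport hy
  rw [pd_congr h1]
  simp [pd]

theorem ibp {U : Set (E N)} (hU : IsOpen U) {χ g : E N → ℝ} (hχ : ContDiff ℝ 1 χ)
    (hc : HasCompactSupport χ) (hs : tsupport χ ⊆ U) (hg : ContDiffOn ℝ 1 g U) (i : Fin N) :
    ∫ x, χ x * pd i g x = -∫ x, pd i χ x * g x := by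
  have hpg : ContinuousOn (pd i g) U := by
    have h := contDiffOn_pd (i := i) (k := 0) hU (f := g) (by simpa using hg)
    exact h.continuousOn
  have hcp : HasCompactSupport (pd i χ) :=
    hc.of_isClosed_subset (isClosed_tsupport _) (tsupport_pd_subset χ i)
  refine integral_mul_fderiv_eq_neg_fderiv_mul_of_integrable ?_ ?_ ?_ ?_ ?_
  · exact integrable_cut_mul hU (continuous_pd hχ) hcp ((tsupport_pd_subset χ i).trans hs)
      hg.continuousOn
  · exact integrable_cut_mul hU hχ.continuous hc hs hpg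
  · exact integrable_cut_mul hU hχ.continuous hc hs hg.continuousOn
  · exact fun x _ => hχ.differentiable (by norm_num) x
  · exact fun x hx => (hg.differentiableOn (by norm_num)).differentiableAt
      (hU.mem_nhds (hs hx))

theorem ibp_dv {U : Set (E N)} (hU : IsOpen U) {χ : E N → ℝ} {G : E N → E N}
    (hχ : ContDiff ℝ 1 χ) (hc : HasCompactSupport χ) (hs : tsupport χ ⊆ U)
    (hG : ∀ i, ContDiffOn ℝ 1 (fun x => G x i) U) :
    ∫ x, χ x * dv G x = -∫ x, ⟪gr χ x, G x⟫ := by
  have hpg : ∀ i, ContinuousOn (pd i fun x => G x i) U := fun i => by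
    have h := contDiffOn_pd (i := i) (k := 0) hU (f := fun x => G x i) (by simpa using hG i)
    exact h.continuousOn
  have hcp : ∀ i, HasCompactSupport (pd i χ) := fun i =>
    hc.of_isClosed_subset (isClosed_tsupport _) (tsupport_pd_subset χ i)
  have h1 : (fun x => χ x * dv G x) = fun x => ∑ i, χ x * pd i (fun y => G y i) x := by
    funext x
    rw [dv, Finset.mul_sum]
  have h2 : (fun x => ⟪gr χ x, G x⟫) = fun x => ∑ i, pd i χ x * G x i := by
    funext x
    rw [inner_eq]
    rfl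
  rw [h1, h2, integral_finset_sum _ fun i _ => integrable_cut_mul hU hχ.continuous hc hs (hpg i),
    integral_finset_sum _ fun i _ => integrable_cut_mul hU (continuous_pd hχ) (hcp i)
      ((tsupport_pd_subset χ i).trans hs) (hG i).continuousOn, ← Finset.sum_neg_distrib]
  exact Finset.sum_congr rfl fun i _ => ibp hU hχ hc hs (hG i) i

end Pool.Agent.TF
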