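import Pool.Agent.Work.MP_9c254e_an.Ext

/-!
# Solutions in the sense of the problem, and their restrictions to `[t₁, T]`
-/

open scoped ContDiff Topology RealInnerProductSpace
open Set MeasureTheory Filter

namespace Pool.Agent.TF

variable {N : ℕ}

/-- Solutions on `[0, T]` in the sense of the problem.  Of the domains `Ω(t)` only the following is
required: they are open, `Q` is relatively open in `[0, T] × ℝ^N`, `Qbar` is compact and the
boundaries have measure zero. -/
structure IsClassical (T : ℝ) (Ω : ℝ → Set (E N)) (u : ℝ → E N → ℝ) : Prop where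
  isOpen : ∀ t ∈ Icc 0 T, IsOpen (Ω t)
  openQ : ∀ p ∈ Q T Ω, ∀ᶠ q in 𝓝 p, q.1 ∈ Icc 0 T → q ∈ Q T Ω
  compact : IsCompact (Qbar T Ω)
  null : ∀ t ∈ Icc 0 T, volume (frontier (Ω t)) = 0
  /-- `u` is continuous on `Qbar`, positive in `Ω(t)` and zero on the boundary of `Ω(t)`. -/
  cont : ContinuousOn (fun p : ℝ × E N => u p.1 p.2) (Qbar T Ω)
  pos : ∀ p ∈ Q T Ω, 0 < u p.1 p.2
  zero : ∀ p ∈ Qbar T Ω, p ∉ Q T Ω → u p.1 p.2 = 0
  /-- For `t > 0` the spatial derivatives `D k` of order `k ≤ 4` are continuous up to the boundary,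
  and the first derivative is not zero at the boundary. -/
  smooth : ∀ t ∈ Ioc 0 T, ContDiffOn ℝ 4 (u t) (Ω t)
  deriv : ∃ D : (k : ℕ) → ℝ × E N → ContinuousMultilinearMap ℝ (fun _ : Fin k => E N) ℝ,
    (∀ k ≤ 4, ContinuousOn (D k) {p | p ∈ Qbar T Ω ∧ 0 < p.1}) ∧
    (∀ k ≤ 4, ∀ p ∈ Q T Ω, 0 < p.1 → D k p = iteratedFDeriv ℝ k (u p.1) p.2) ∧
    ∀ p ∈ Qbar T Ω, p ∉ Q T Ω → 0 < p.1 → D 1 p ≠ 0
  /-- the equation, for `x ∈ Ω(t)` and `0 < t ≤ T` -/
  eq : ∀ p ∈ Q T Ω, 0 < p.1 → HasDerivWithinAt (fun s => u s p.2)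
    (-(1 / 2 * u p.1 p.2 * lap (lap fun x => u p.1 x ^ 2) p.2 +
      ∑ i, pd i (u p.1) p.2 * pd i (lap fun x => u p.1 x ^ 2) p.2 + 1 / 2)) (Icc 0 T) p.1

/-- Regularity up to `t = 0`: the spatial derivatives of order at most four are bounded, the first
derivative is continuous on `Qbar` and not zero on the boundary of `Ω(0)`. -/
structure RegularAtZero (T : ℝ) (Ω : ℝ → Set (E N)) (u : ℝ → E N → ℝ) : Prop where
  smooth : ContDiffOn ℝ 4 (u 0) (Ω 0)
  bound : ∃ K : ℝ, ∀ k ≤ 4, ∀ p ∈ Q T Ω, ‖iteratedFDeriv ℝ k (u p.1) p.2‖ ≤ K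
  grad : ∃ G : ℝ × E N → ContinuousMultilinearMap ℝ (fun _ : Fin 1 => E N) ℝ,
    ContinuousOn G (Qbar T Ω) ∧ (∀ p ∈ Q T Ω, G p = iteratedFDeriv ℝ 1 (u p.1) p.2) ∧
    ∀ p ∈ Qbar T Ω, p ∉ Q T Ω → p.1 = 0 → G p ≠ 0

variable {T : ℝ} {Ω : ℝ → Set (E N)} {u : ℝ → E N → ℝ}

theorem apply_cont {k : ℕ} {S : Set (ℝ × E N)}
    {D : ℝ × E N → ContinuousMultilinearMap ℝ (fun _ : Fin k => E N) ℝ}
    (hD : ContinuousOn D S) (v : Fin k → E N) : ContinuousOn (fun p => D p v) S :=
  (ContinuousMultilinearMap.apply ℝ (fun _ : Fin k => E N) ℝ v).continuous.comp_continuousOn hD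

theorem exists_apply_ne {f : ContinuousMultilinearMap ℝ (fun _ : Fin 1 => E N) ℝ} (hf : f ≠ 0) :
    ∃ i : Fin N, f ![EuclideanSpace.single i 1] ≠ 0 := by
  by_contra hcon
  push Not at hcon
  apply hf
  ext v
  have h1 : v = ![v 0] := by
    funext j
    rw [Subsingleton.elim j 0]
    rfl
  have h2 : v 0 = ∑ i, (v 0) i • (EuclideanSpace.single i (1 : ℝ) : E N) := by
    ext j
    simp [Finset.sum_apply, Pi.single_apply]
  set g : E N →ₗ[ℝ] ℝ := f.toMultilinearMap.toLinearMap ![0] 0 with hg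
  have h3 : ∀ x : E N, g x = f ![x] := by
    intro x
    rw [hg, MultilinearMap.toLinearMap_apply]
    change f (Function.update ![0] 0 x) = f ![x]
    congr 1
    funext j
    rw [Subsingleton.elim j 0]
    simp
  have h4 : g (v 0) = 0 := by
    rw [h2, map_sum]
    refine Finset.sum_eq_zero fun i _ => ?_
    rw [map_smul, h3, hcon i, smul_zero]
  rw [h1, ← h3, h4]
  rfl

/-- a solution which is regular up to `t = 0` -/
theorem IsClassical.toIsSolution (h : IsClassical T Ω u) (hr : RegularAtZero T Ω u) :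
    IsSolution T Ω u := by
  obtain ⟨D, hD1, hD2, hD3⟩ := h.deriv
  obtain ⟨G, hG1, hG2, hG3⟩ := hr.grad
  have key : ∀ p ∈ Qbar T Ω, 0 < p.1 → G p = D 1 p := by
    intro p hp hp0
    -- `p` is a limit of points of `Q` at the same time
    have hcl : p ∈ closure {q : ℝ × E N | q ∈ Q T Ω ∧ q.1 = p.1} := by
      have h1 : p ∈ (fun x : E N => (p.1, x)) '' closure (Ω p.1) := ⟨p.2, hp.2, rfl⟩
      have h2 := image_closure_subset_closure_image
        (f := fun x : E N => (p.1, x)) (s := Ω p.1) (continuous_const.prodMk continuous_id) h1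
      refine closure_mono ?_ h2
      rintro _ ⟨x, hx, rfl⟩
      exact ⟨⟨hp.1, hx⟩, rfl⟩
    set S : Set (ℝ × E N) := {q | q ∈ Q T Ω ∧ q.1 = p.1} with hS
    have hne : (𝓝[S] p).NeBot := mem_closure_iff_nhdsWithin_neBot.1 hcl
    have t1 : Tendsto G (𝓝[S] p) (𝓝 (G p)) :=
      (hG1 p hp).mono fun q hq => Q_subset hq.1
    have t2 : Tendsto (D 1) (𝓝[S] p) (𝓝 (D 1 p)) :=
      (hD1 1 (by norm_num) p ⟨hp, hp0⟩).mono fun q hq => ⟨Q_subset hq.1, by
        rw [hq.2]
        exact hp0⟩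
    refine tendsto_nhds_unique_of_eventuallyEq t1 t2 ?_
    filter_upwards [self_mem_nhdsWithin] with q hq
    rw [hG2 q hq.1, hD2 1 (by norm_num) q hq.1 (by rw [hq.2]; exact hp0)]
  exact
    { isOpen := h.isOpen
      openQ := h.openQ
      compact := h.compact
      null := h.null
      cont := h.cont
      pos := h.pos
      zero := h.zero
      grad := by
        refine ⟨fun i p => G p ![EuclideanSpace.single i 1], fun i => apply_cont hG1 _,
          fun p hp i => ?_, fun p hp hq => ?_⟩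
        · change G p ![EuclideanSpace.single i 1] = _
          rw [hG2 p hp, pd_eq_iter]
        · rcases eq_or_lt_of_le hp.1.1 with h0 | h0
          · exact exists_apply_ne (hG3 p hp hq h0.symm)
          · refine exists_apply_ne ?_
            rw [key p hp h0]
            exact hD3 p hp hq h0
      smooth := fun t ht => by
        rcases eq_or_lt_of_le ht.1 with h0 | h0
        · rw [← h0]
          exact hr.smooth
        · exact h.smooth t ⟨h0, ht.2⟩
      deriv_cont := fun k hk => by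
        refine ((hD1 k hk).mono fun p hp => ⟨Q_subset hp.1, hp.2⟩).congr fun p hp => ?_
        exact (hD2 k hk p hp.1 hp.2).symm
      bound := hr.bound
      eq := h.eq }

/-- the restriction to `[t₁, T]` -/
theorem IsClassical.shift (h : IsClassical T Ω u) {t₁ : ℝ} (ht₁ : 0 < t₁) :
    IsSolution (T - t₁) (fun s => Ω (s + t₁)) (fun s => u (s + t₁)) := by
  obtain ⟨D, hD1, hD2, hD3⟩ := h.deriv
  have hI : ∀ s, s ∈ Icc 0 (T - t₁) → s + t₁ ∈ Icc 0 T ∧ 0 < s + t₁ := fun s hs =>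
    ⟨⟨by linarith [hs.1], by linarith [hs.2]⟩, by linarith [hs.1]⟩
  set Φ : ℝ × E N → ℝ × E N := fun p => (p.1 + t₁, p.2) with hΦ
  have hΦc : Continuous Φ := (continuous_fst.add continuous_const).prodMk continuous_snd
  set Ω' : ℝ → Set (E N) := fun s => Ω (s + t₁) with hΩ'
  have hQ : ∀ p ∈ Q (T - t₁) Ω', Φ p ∈ Q T Ω ∧ 0 < (Φ p).1 := fun p hp =>
    ⟨⟨(hI p.1 hp.1).1, hp.2⟩, (hI p.1 hp.1).2⟩
  have hQb : ∀ p ∈ Qbar (T - t₁) Ω', Φ p ∈ Qbar T Ω ∧ 0 < (Φ p).1 := fun p hp =>
    ⟨⟨(hI p.1 hp.1).1, hp.2⟩, (hI p.1 hp.1).2⟩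
  have hQn : ∀ p ∈ Qbar (T - t₁) Ω', p ∉ Q (T - t₁) Ω' → Φ p ∉ Q T Ω := fun p hp hq hh =>
    hq ⟨hp.1, hh.2⟩
  have hcomp : IsCompact (Qbar T Ω ∩ {p | t₁ ≤ p.1}) :=
    h.compact.inter_right (isClosed_le continuous_const continuous_fst)
  have hcomp' : IsCompact (Qbar (T - t₁) Ω') := by
    have h1 := hcomp.image (f := fun p : ℝ × E N => (p.1 - t₁, p.2))
      ((continuous_fst.sub continuous_const).prodMk continuous_snd)
    refine h1.of_isClosed_subset ?_ ?_
    · have h2 : Qbar (T - t₁) Ω' = Φ ⁻¹' (Qbar T Ω) ∩ {p | p.1 ∈ Icc 0 (T - t₁)} := by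
        ext p
        constructor
        · intro hp
          exact ⟨(hQb p hp).1, hp.1⟩
        · rintro ⟨hp1, hp2⟩
          exact ⟨hp2, hp1.2⟩
      rw [h2]
      exact (h.compact.isClosed.preimage hΦc).inter (isClosed_Icc.preimage continuous_fst)
    · intro p hp
      exact ⟨Φ p, ⟨(hQb p hp).1, by
        change t₁ ≤ p.1 + t₁
        linarith [hp.1.1]⟩, by
        ext1
        · change p.1 + t₁ - t₁ = p.1
          ring
        · rfl⟩
  exact
    { isOpen := fun s hs => h.isOpen _ (hI s hs).1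
      openQ := fun p hp => by
        have h1 := h.openQ (Φ p) (hQ p hp).1
        filter_upwards [hΦc.continuousAt.eventually h1] with q hq hq2
        exact ⟨hq2, (hq (hI q.1 hq2).1).2⟩
      compact := hcomp'
      null := fun s hs => h.null _ (hI s hs).1
      cont := h.cont.comp hΦc.continuousOn fun p hp => (hQb p hp).1
      pos := fun p hp => h.pos (Φ p) (hQ p hp).1
      zero := fun p hp hq => h.zero (Φ p) (hQb p hp).1 (hQn p hp hq)
      grad := by
        refine ⟨fun i p => D 1 (Φ p) ![EuclideanSpace.single i 1], fun i => ?_, fun p hp i => ?_,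
          fun p hp hq => ?_⟩
        · exact (apply_cont (hD1 1 (by norm_num)) _).comp hΦc.continuousOn fun p hp => hQb p hp
        · change D 1 (Φ p) ![EuclideanSpace.single i 1] = _
          rw [hD2 1 (by norm_num) (Φ p) (hQ p hp).1 (hQ p hp).2, pd_eq_iter]
        · exact exists_apply_ne (hD3 (Φ p) (hQb p hp).1 (hQn p hp hq) (hQb p hp).2)
      smooth := fun s hs => h.smooth _ ⟨(hI s hs).2, (hI s hs).1.2⟩
      deriv_cont := fun k hk => by
        have h1 : ContinuousOn (fun p => D k (Φ p)) {p | p ∈ Q (T - t₁) Ω' ∧ 0 < p.1} :=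
          (hD1 k hk).comp hΦc.continuousOn fun p hp =>
            ⟨Q_subset (hQ p hp.1).1, (hQ p hp.1).2⟩
        refine h1.congr fun p hp => ?_
        exact (hD2 k hk (Φ p) (hQ p hp.1).1 (hQ p hp.1).2).symm
      bound := by
        have h1 : ∀ k ≤ 4, ∃ C : ℝ, ∀ p ∈ Q (T - t₁) Ω', ‖D k (Φ p)‖ ≤ C := by
          intro k hk
          have h2 : ContinuousOn (D k) (Qbar T Ω ∩ {p | t₁ ≤ p.1}) :=
            (hD1 k hk).mono fun p hp => ⟨hp.1, ht₁.trans_le hp.2⟩
          obtain ⟨C, hC⟩ := hcomp.exists_bound_of_continuousOn h2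
          exact ⟨C, fun p hp => hC (Φ p) ⟨Q_subset (hQ p hp).1, by
            change t₁ ≤ p.1 + t₁
            linarith [hp.1.1]⟩⟩
        obtain ⟨C0, h0⟩ := h1 0 (by norm_num)
        obtain ⟨C1, h1'⟩ := h1 1 (by norm_num)
        obtain ⟨C2, h2⟩ := h1 2 (by norm_num)
        obtain ⟨C3, h3⟩ := h1 3 (by norm_num)
        obtain ⟨C4, h4⟩ := h1 4 (by norm_num)
        refine ⟨max C0 (max C1 (max C2 (max C3 C4))), fun k hk p hp => ?_⟩
        have e : iteratedFDeriv ℝ k (u (p.1 + t₁)) p.2 = D k (Φ p) :=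
          (hD2 k hk (Φ p) (hQ p hp).1 (hQ p hp).2).symm
        rw [e]
        interval_cases k
        · exact (h0 p hp).trans (le_max_left _ _)
        · exact (h1' p hp).trans ((le_max_left _ _).trans (le_max_right _ _))
        · exact (h2 p hp).trans ((le_max_left _ _).trans ((le_max_right _ _).trans
            (le_max_right _ _)))
        · exact (h3 p hp).trans ((le_max_left _ _).trans ((le_max_right _ _).trans
            ((le_max_right _ _).trans (le_max_right _ _))))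
        · exact (h4 p hp).trans ((le_max_right _ _).trans ((le_max_right _ _).trans
            ((le_max_right _ _).trans (le_max_right _ _))))
      eq := fun p hp _ => by
        have h1 := h.eq (Φ p) (hQ p hp).1 (hQ p hp).2
        have h2 : HasDerivWithinAt (fun s : ℝ => s + t₁) 1 (Icc 0 (T - t₁)) p.1 :=
          ((hasDerivAt_id p.1).add_const t₁).hasDerivWithinAt
        have h3 := h1.comp p.1 h2 fun s hs => (hI s hs).1
        rw [mul_one] at h3
        exact h3 }

end Pool.Agent.TF
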