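import Pool.Agent.Work.MP_9c254e_an.Sol

/-!
# Two solutions which agree at one time are close in `C^1` at the nearby times
-/

open scoped ContDiff Topology RealInnerProductSpace
open Set MeasureTheory Filter

namespace Pool.Agent.TF

variable {N : ℕ}

theorem ext_mem {Ω : ℝ → Set (E N)} {u : ℝ → E N → ℝ} {t : ℝ} {x : E N} (hx : x ∈ Ω t) :
    ext Ω u t x = u t x := indicator_of_mem hx _

theorem ext_not_mem {Ω : ℝ → Set (E N)} {u : ℝ → E N → ℝ} {t : ℝ} {x : E N} (hx : x ∉ Ω t) :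
    ext Ω u t x = 0 := indicator_of_notMem hx _

theorem Q_subset_Qbar {T : ℝ} {Ω : ℝ → Set (E N)} : Q T Ω ⊆ Qbar T Ω :=
  fun _ hp => ⟨hp.1, subset_closure hp.2⟩

theorem IsSolution.ext_Qbar {T : ℝ} {Ω : ℝ → Set (E N)} {u : ℝ → E N → ℝ}
    (h : IsSolution T Ω u) {p : ℝ × E N} (hp : p ∈ Qbar T Ω) : ext Ω u p.1 p.2 = u p.1 p.2 := by
  by_cases hx : p.2 ∈ Ω p.1
  · exact ext_mem hx
  · rw [ext_not_mem hx, h.zero p hp fun hq => hx hq.2]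

theorem IsSolution.ext_pos_iff {T : ℝ} {Ω : ℝ → Set (E N)} {u : ℝ → E N → ℝ}
    (h : IsSolution T Ω u) {t : ℝ} (ht : t ∈ Icc 0 T) {x : E N} :
    0 < ext Ω u t x ↔ x ∈ Ω t := by
  refine ⟨fun hx => ?_, fun hx => ?_⟩
  · by_contra hn
    rw [ext_not_mem hn] at hx
    exact lt_irrefl _ hx
  · rw [ext_mem hx]
    exact h.pos (t, x) ⟨ht, hx⟩

theorem IsSolution.isClosed_diff {T : ℝ} {Ω : ℝ → Set (E N)} {u : ℝ → E N → ℝ}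
    (h : IsSolution T Ω u) : IsClosed ((Icc 0 T ×ˢ (univ : Set (E N))) \ Q T Ω) := by
  rw [← isOpen_compl_iff, isOpen_iff_mem_nhds]
  intro p hp
  by_cases hQ : p ∈ Q T Ω
  · filter_upwards [h.openQ p hQ] with q hq hq'
    exact hq'.2 (hq hq'.1.1)
  · have hS : p ∉ Icc 0 T ×ˢ (univ : Set (E N)) := fun hS => hp ⟨hS, hQ⟩
    have h1 : (Icc 0 T ×ˢ (univ : Set (E N)))ᶜ ∈ 𝓝 p :=
      ((isClosed_Icc.prod isClosed_univ).isOpen_compl).mem_nhds hS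
    filter_upwards [h1] with q hq hq'
    exact hq hq'.1

theorem IsSolution.cont_ext' {T : ℝ} {Ω : ℝ → Set (E N)} {u : ℝ → E N → ℝ}
    (h : IsSolution T Ω u) :
    ContinuousOn (fun p : ℝ × E N => ext Ω u p.1 p.2) (Icc 0 T ×ˢ univ) := by
  have h1 : ContinuousOn (fun p : ℝ × E N => ext Ω u p.1 p.2) (Qbar T Ω) :=
    h.cont.congr fun p hp => h.ext_Qbar hp
  have h2 : ContinuousOn (fun p : ℝ × E N => ext Ω u p.1 p.2)
      ((Icc 0 T ×ˢ (univ : Set (E N))) \ Q T Ω) := by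
    refine (continuousOn_const (c := (0 : ℝ))).congr fun p hp => ?_
    exact ext_not_mem fun hx => hp.2 ⟨hp.1.1, hx⟩
  refine (h1.union_of_isClosed h2 h.compact.isClosed h.isClosed_diff).mono fun p hp => ?_
  by_cases hQ : p ∈ Q T Ω
  · exact Or.inl (Q_subset_Qbar hQ)
  · exact Or.inr ⟨hp, hQ⟩

theorem Qbar_subset {T : ℝ} {Ω : ℝ → Set (E N)} : Qbar T Ω ⊆ Icc 0 T ×ˢ univ :=
  fun _ hp => ⟨hp.1, mem_univ _⟩

theorem exists_eta {t₀ : ℝ} {A : Set (ℝ × E N)} (hA : IsCompact A) (h : ∀ p ∈ A, p.1 ≠ t₀) :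
    ∃ η > 0, ∀ p ∈ A, η ≤ |p.1 - t₀| := by
  rcases A.eq_empty_or_nonempty with rfl | hne
  · exact ⟨1, one_pos, fun p hp => absurd hp (notMem_empty p)⟩
  · obtain ⟨p, hp, hmin⟩ := hA.exists_isMinOn hne
      (f := fun p : ℝ × E N => |p.1 - t₀|) (by fun_prop)
    exact ⟨|p.1 - t₀|, abs_pos.2 (sub_ne_zero.2 (h p hp)), fun q hq => hmin hq⟩

theorem close {T : ℝ} {Ω₁ Ω₂ : ℝ → Set (E N)} {u₁ u₂ : ℝ → E N → ℝ} (h₁ : IsSolution T Ω₁ u₁)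
    (h₂ : IsSolution T Ω₂ u₂) {t₀ : ℝ} (ht₀ : t₀ ∈ Icc 0 T) (ha : ext Ω₁ u₁ t₀ = ext Ω₂ u₂ t₀)
    {ε : ℝ} (hε : 0 < ε) :
    ∃ η > 0, ∀ t ∈ Icc 0 T, |t - t₀| < η → (∀ x, |ext Ω₁ u₁ t x - ext Ω₂ u₂ t x| ≤ ε) ∧
      ∀ x ∈ Ω₁ t ∩ Ω₂ t, ‖gr (ext Ω₁ u₁ t) x - gr (ext Ω₂ u₂ t) x‖ ≤ ε := by
  -- the functions
  have hc : ContinuousOn (fun p : ℝ × E N => |ext Ω₁ u₁ p.1 p.2 - ext Ω₂ u₂ p.1 p.2|)
      (Icc 0 T ×ˢ univ) := (h₁.cont_ext'.sub h₂.cont_ext').abs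
  have hcpt : IsCompact (Qbar T Ω₁ ∪ Qbar T Ω₂) := h₁.compact.union h₂.compact
  have hA : IsCompact ((Qbar T Ω₁ ∪ Qbar T Ω₂) ∩
      (fun p : ℝ × E N => |ext Ω₁ u₁ p.1 p.2 - ext Ω₂ u₂ p.1 p.2|) ⁻¹' Ici ε) := by
    refine hcpt.of_isClosed_subset ?_ inter_subset_left
    exact (hc.mono (union_subset Qbar_subset Qbar_subset)).preimage_isClosed_of_isClosed
      hcpt.isClosed isClosed_Ici
  obtain ⟨η₁, hη₁, hA1⟩ := exists_eta (t₀ := t₀) hA (by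
    rintro ⟨t, x⟩ ⟨-, hp⟩ ht
    change t = t₀ at ht
    change ε ≤ |ext Ω₁ u₁ t x - ext Ω₂ u₂ t x| at hp
    rw [ht, ha, sub_self, abs_zero] at hp
    exact absurd hp (not_le.2 hε))
  -- the gradients
  have hΩ : Ω₁ t₀ = Ω₂ t₀ := by
    ext x
    rw [← h₁.ext_pos_iff ht₀, ← h₂.ext_pos_iff ht₀, ha]
  obtain ⟨G₁, hG₁, hG₁', -⟩ := h₁.grad
  obtain ⟨G₂, hG₂, hG₂', -⟩ := h₂.grad
  have hd : ContinuousOn (fun p : ℝ × E N => ‖(WithLp.toLp 2 fun i => G₁ i p - G₂ i p : E N)‖)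
      (Qbar T Ω₁ ∩ Qbar T Ω₂) := by
    refine ContinuousOn.norm ?_
    refine (PiLp.continuous_toLp 2 _).comp_continuousOn ?_
    exact continuousOn_pi.2 fun i =>
      ((hG₁ i).mono inter_subset_left).sub ((hG₂ i).mono inter_subset_right)
  have hcpt' : IsCompact (Qbar T Ω₁ ∩ Qbar T Ω₂) := h₁.compact.inter h₂.compact
  have hB : IsCompact ((Qbar T Ω₁ ∩ Qbar T Ω₂) ∩
      (fun p : ℝ × E N => ‖(WithLp.toLp 2 fun i => G₁ i p - G₂ i p : E N)‖) ⁻¹' Ici ε) := by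
    refine hcpt'.of_isClosed_subset ?_ inter_subset_left
    exact hd.preimage_isClosed_of_isClosed hcpt'.isClosed isClosed_Ici
  have hgu : ∀ (t : ℝ) (i : Fin N) (x : E N) (Ω : ℝ → Set (E N)) (u : ℝ → E N → ℝ),
      IsSolution T Ω u → t ∈ Icc 0 T → x ∈ Ω t → pd i (u t) x = pd i (ext Ω u t) x := by
    intro t i x Ω u h ht hx
    refine pd_congr ?_
    filter_upwards [(h.isOpen t ht).mem_nhds hx] with y hy
    exact (ext_mem hy).symm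
  have heq : ∀ i, EqOn (fun x => G₁ i (t₀, x)) (fun x => G₂ i (t₀, x)) (closure (Ω₁ t₀)) := by
    intro i
    refine Set.EqOn.of_subset_closure (s := Ω₁ t₀) ?_ ?_ ?_ subset_closure le_rfl
    · intro x hx
      have hx2 : x ∈ Ω₂ t₀ := hΩ ▸ hx
      change G₁ i (t₀, x) = G₂ i (t₀, x)
      rw [hG₁' (t₀, x) ⟨ht₀, hx⟩ i, hG₂' (t₀, x) ⟨ht₀, hx2⟩ i,
        hgu t₀ i x Ω₁ u₁ h₁ ht₀ hx, hgu t₀ i x Ω₂ u₂ h₂ ht₀ hx2, ha]
    · exact (hG₁ i).comp (by fun_prop) fun x hx => ⟨ht₀, hx⟩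
    · exact (hG₂ i).comp (by fun_prop) fun x hx => ⟨ht₀, hΩ ▸ hx⟩
  obtain ⟨η₂, hη₂, hB1⟩ := exists_eta (t₀ := t₀) hB (by
    rintro ⟨t, x⟩ ⟨hp, hp'⟩ ht
    change t = t₀ at ht
    subst ht
    have h0 : (WithLp.toLp 2 fun i => G₁ i (t, x) - G₂ i (t, x) : E N) = 0 := by
      ext i
      exact sub_eq_zero.2 (heq i hp.1.2)
    change ε ≤ ‖(WithLp.toLp 2 fun i => G₁ i (t, x) - G₂ i (t, x) : E N)‖ at hp'
    rw [h0, norm_zero] at hp'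
    exact absurd hp' (not_le.2 hε))
  refine ⟨min η₁ η₂, lt_min hη₁ hη₂, fun t ht hlt => ⟨fun x => ?_, fun x hx => ?_⟩⟩
  · by_contra hn
    rw [not_le] at hn
    have hmem : ((t, x) : ℝ × E N) ∈ Qbar T Ω₁ ∪ Qbar T Ω₂ := by
      by_contra hmem
      have hx1 : x ∉ Ω₁ t := fun hx => hmem (Or.inl (Q_subset_Qbar ⟨ht, hx⟩))
      have hx2 : x ∉ Ω₂ t := fun hx => hmem (Or.inr (Q_subset_Qbar ⟨ht, hx⟩))
      rw [ext_not_mem hx1, ext_not_mem hx2, sub_self, abs_zero] at hn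
      exact absurd hn (not_lt.2 hε.le)
    exact absurd (hA1 (t, x) ⟨hmem, hn.le⟩) (not_le.2 (hlt.trans_le (min_le_left _ _)))
  · by_contra hn
    rw [not_le] at hn
    have h1 : (t, x) ∈ Q T Ω₁ := ⟨ht, hx.1⟩
    have h2 : (t, x) ∈ Q T Ω₂ := ⟨ht, hx.2⟩
    have h3 : gr (ext Ω₁ u₁ t) x - gr (ext Ω₂ u₂ t) x =
        (WithLp.toLp 2 fun i => G₁ i (t, x) - G₂ i (t, x) : E N) := by
      ext i
      change pd i (ext Ω₁ u₁ t) x - pd i (ext Ω₂ u₂ t) x = G₁ i (t, x) - G₂ i (t, x)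
      rw [hG₁' (t, x) h1 i, hG₂' (t, x) h2 i]
      change _ = pd i (u₁ t) x - pd i (u₂ t) x
      rw [hgu t i x Ω₁ u₁ h₁ ht hx.1, hgu t i x Ω₂ u₂ h₂ ht hx.2]
    rw [h3] at hn
    exact absurd (hB1 (t, x) ⟨⟨Q_subset_Qbar h1, Q_subset_Qbar h2⟩, hn.le⟩)
      (not_le.2 (hlt.trans_le (min_le_right _ _)))

end Pool.Agent.TF
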