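import Pool.Agent.Work.MP_9c254e_an.Basic

/-!
# Cut-off functions

`St K κ R U u`: `u` is continuous, positive and of class `C^4` in the open set `U`, zero outside
`U`, with bounds for the derivatives, and `|∇u| ≥ κ` where `0 < u < κ`.
-/

open scoped ContDiff Topology RealInnerProductSpace
open Set MeasureTheory Filter

namespace Pool.Agent.TF

variable {N : ℕ}

/-! ### the step function -/

/-- a smooth step: `0` on `(-∞, 1]` and `1` on `[2, ∞)` -/
noncomputable def Hc (s : ℝ) : ℝ := Real.smoothTransition (s - 1)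

theorem Hc_zero {s : ℝ} (h : s ≤ 1) : Hc s = 0 := Real.smoothTransition.zero_of_nonpos (by linarith)

theorem Hc_one {s : ℝ} (h : 2 ≤ s) : Hc s = 1 := Real.smoothTransition.one_of_one_le (by linarith)

theorem Hc_nonneg (s : ℝ) : 0 ≤ Hc s := Real.smoothTransition.nonneg _

theorem Hc_le_one (s : ℝ) : Hc s ≤ 1 := Real.smoothTransition.le_one _

theorem Hc_contDiff : ContDiff ℝ 1 Hc :=
  (Real.smoothTransition.contDiff (n := 1)).comp (contDiff_id.sub contDiff_const)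

theorem Hc_mono : Monotone Hc := fun a b h =>
  Real.smoothTransition.monotone (by linarith)

theorem Hc_deriv_nonneg (s : ℝ) : 0 ≤ deriv Hc s := Hc_mono.deriv_nonneg

theorem Hc_deriv_continuous : Continuous (deriv Hc) := Hc_contDiff.continuous_deriv le_rfl

theorem Hc_deriv_zero {s : ℝ} (h : s < 1 ∨ 2 < s) : deriv Hc s = 0 := by
  rcases h with h | h
  · have h1 : Hc =ᶠ[𝓝 s] fun _ => 0 := by
      filter_upwards [Iio_mem_nhds h] with y hy
      exact Hc_zero (le_of_lt hy)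
    rw [h1.deriv_eq]
    simp
  · have h1 : Hc =ᶠ[𝓝 s] fun _ => 1 := by
      filter_upwards [Ioi_mem_nhds h] with y hy
      exact Hc_one (le_of_lt hy)
    rw [h1.deriv_eq]
    simp

/-! ### one function -/

/-- one domain at a fixed time -/
structure St (K κ R : ℝ) (U : Set (E N)) (u : E N → ℝ) : Prop where
  isOpen : IsOpen U
  sub : U ⊆ Metric.closedBall 0 R
  cont : Continuous u
  pos : ∀ x ∈ U, 0 < u x
  zero : ∀ x ∉ U, u x = 0
  smooth : ContDiffOn ℝ 4 u U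
  bu : ∀ x ∈ U, u x ≤ K
  bg : ∀ x ∈ U, ‖gr u x‖ ≤ K
  bh : ∀ x ∈ U, ∀ i j, |pd i (pd j u) x| ≤ K
  bl : ∀ x ∈ U, |lap u x| ≤ K
  ba : ∀ x ∈ U, |lap (fun y => u y ^ 2) x| ≤ K
  bga : ∀ x ∈ U, ‖gr (lap fun y => u y ^ 2) x‖ ≤ K
  bla : ∀ x ∈ U, |lap (lap fun y => u y ^ 2) x| ≤ K
  nd : ∀ x ∈ U, u x < κ → κ ≤ ‖gr u x‖

/-- the cut-off function `H(u/δ)` -/
noncomputable def cut (δ : ℝ) (u : E N → ℝ) (x : E N) : ℝ := Hc (u x / δ)

/-- the density of its gradient with respect to `∇u` -/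
noncomputable def mu (δ : ℝ) (u : E N → ℝ) (x : E N) : ℝ := deriv Hc (u x / δ) / δ

theorem cut_nonneg (δ : ℝ) (u : E N → ℝ) (x : E N) : 0 ≤ cut δ u x := Hc_nonneg _

theorem cut_le_one (δ : ℝ) (u : E N → ℝ) (x : E N) : cut δ u x ≤ 1 := Hc_le_one _

theorem mu_nonneg {δ : ℝ} (hδ : 0 < δ) (u : E N → ℝ) (x : E N) : 0 ≤ mu δ u x :=
  div_nonneg (Hc_deriv_nonneg _) hδ.le

theorem cut_eq_zero {δ : ℝ} (hδ : 0 < δ) {u : E N → ℝ} {x : E N} (h : u x ≤ δ) :
    cut δ u x = 0 := Hc_zero (by rwa [div_le_one hδ])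

theorem cut_eq_one {δ : ℝ} (hδ : 0 < δ) {u : E N → ℝ} {x : E N} (h : 2 * δ ≤ u x) :
    cut δ u x = 1 := Hc_one (by rwa [le_div_iff₀ hδ])

theorem mu_eq_zero {δ : ℝ} (hδ : 0 < δ) {u : E N → ℝ} {x : E N} (h : u x < δ ∨ 2 * δ < u x) :
    mu δ u x = 0 := by
  unfold mu
  rw [Hc_deriv_zero, zero_div]
  rcases h with h | h
  · exact Or.inl (by rwa [div_lt_one hδ])
  · exact Or.inr (by rwa [lt_div_iff₀ hδ])

theorem mu_ne {δ : ℝ} (hδ : 0 < δ) {u : E N → ℝ} {x : E N} (h : mu δ u x ≠ 0) :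
    δ ≤ u x ∧ u x ≤ 2 * δ := by
  constructor
  · by_contra h'
    exact h (mu_eq_zero hδ (Or.inl (not_le.1 h')))
  · by_contra h'
    exact h (mu_eq_zero hδ (Or.inr (not_le.1 h')))

/-! ### bounded continuous functions on an open set -/

section BC

variable {F : Type*} [NormedAddCommGroup F] [NormedSpace ℝ F]

set_option linter.unusedSectionVars false

/-- bounded and continuous on `O` -/
def BC (O : Set (E N)) (f : E N → F) : Prop :=
  ContinuousOn f O ∧ ∃ C : ℝ, ∀ x ∈ O, ‖f x‖ ≤ C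

theorem BC.mono {O O' : Set (E N)} {f : E N → F} (h : BC O f) (hO : O' ⊆ O) : BC O' f :=
  ⟨h.1.mono hO, h.2.imp fun _ hC x hx => hC x (hO hx)⟩

theorem BC.const {O : Set (E N)} (c : F) : BC O fun _ => c :=
  ⟨continuousOn_const, ‖c‖, fun _ _ => le_rfl⟩

theorem BC.add {O : Set (E N)} {f g : E N → F} (hf : BC O f) (hg : BC O g) :
    BC O fun x => f x + g x := by
  obtain ⟨C, hC⟩ := hf.2
  obtain ⟨D, hD⟩ := hg.2
  exact ⟨hf.1.add hg.1, C + D, fun x hx => (norm_add_le _ _).trans (add_le_add (hC x hx) (hD x hx))⟩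

theorem BC.neg {O : Set (E N)} {f : E N → F} (hf : BC O f) : BC O fun x => -f x :=
  ⟨hf.1.neg, hf.2.imp fun _ hC x hx => by
    rw [norm_neg]
    exact hC x hx⟩

theorem BC.sub {O : Set (E N)} {f g : E N → F} (hf : BC O f) (hg : BC O g) :
    BC O fun x => f x - g x := by
  simpa [sub_eq_add_neg] using hf.add hg.neg

theorem BC.smul {O : Set (E N)} {f : E N → ℝ} {g : E N → F} (hf : BC O f) (hg : BC O g) :
    BC O fun x => f x • g x := by
  obtain ⟨C, hC⟩ := hf.2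
  obtain ⟨D, hD⟩ := hg.2
  refine ⟨hf.1.smul hg.1, C * D, fun x hx => ?_⟩
  rw [norm_smul]
  exact mul_le_mul (hC x hx) (hD x hx) (norm_nonneg _) ((norm_nonneg _).trans (hC x hx))

theorem BC.mul {O : Set (E N)} {f g : E N → ℝ} (hf : BC O f) (hg : BC O g) :
    BC O fun x => f x * g x := hf.smul hg

theorem BC.pow {O : Set (E N)} {f : E N → ℝ} (hf : BC O f) (k : ℕ) : BC O fun x => f x ^ k := by
  induction k with
  | zero => simpa using BC.const (O := O) (1 : ℝ)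
  | succ k ih => simpa [pow_succ] using ih.mul hf

theorem BC.norm {O : Set (E N)} {f : E N → F} (hf : BC O f) : BC O fun x => ‖f x‖ :=
  ⟨hf.1.norm, hf.2.imp fun _ hC x hx => by
    rw [norm_norm]
    exact hC x hx⟩

theorem BC.abs {O : Set (E N)} {f : E N → ℝ} (hf : BC O f) : BC O fun x => |f x| := hf.norm

theorem BC.inner {O : Set (E N)} {f g : E N → E N} (hf : BC O f) (hg : BC O g) :
    BC O fun x => ⟪f x, g x⟫ := by
  obtain ⟨C, hC⟩ := hf.2
  obtain ⟨D, hD⟩ := hg.2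
  refine ⟨hf.1.inner hg.1, C * D, fun x hx => (norm_inner_le_norm _ _).trans ?_⟩
  exact mul_le_mul (hC x hx) (hD x hx) (norm_nonneg _) ((norm_nonneg _).trans (hC x hx))

theorem BC.sum {O : Set (E N)} {ι : Type*} (s : Finset ι) {f : ι → E N → F}
    (hf : ∀ i ∈ s, BC O (f i)) : BC O fun x => ∑ i ∈ s, f i x := by
  classical
  induction s using Finset.induction_on with
  | empty => simpa using BC.const (O := O) (0 : F)
  | insert a s ha ih =>
    have h1 := (hf a (Finset.mem_insert_self _ _)).add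
      (ih fun i hi => hf i (Finset.mem_insert_of_mem hi))
    simpa [Finset.sum_insert ha] using h1

theorem BC.congr {O : Set (E N)} {f g : E N → F} (hf : BC O f) (h : EqOn g f O) : BC O g := by
  obtain ⟨C, hC⟩ := hf.2
  refine ⟨hf.1.congr h, C, fun x hx => ?_⟩
  rw [h hx]
  exact hC x hx

theorem BC.of_comps {O : Set (E N)} {f : E N → E N} (hf : ∀ i, BC O fun x => f x i) : BC O f := by
  choose C hC using fun i => (hf i).2
  refine ⟨?_, ∑ i, |C i|, fun x hx => ?_⟩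
  · have h1 : ContinuousOn (fun x => WithLp.toLp 2 fun i => f x i : E N → E N) O :=
      (PiLp.continuous_toLp 2 _).comp_continuousOn (continuousOn_pi.2 fun i => (hf i).1)
    exact h1
  · have h1 : f x = ∑ i, f x i • (EuclideanSpace.single i (1 : ℝ) : E N) := by
      ext j
      simp [Finset.sum_apply, Pi.single_apply]
    rw [h1]
    refine (norm_sum_le _ _).trans (Finset.sum_le_sum fun i _ => ?_)
    rw [norm_smul, norm_single, mul_one]
    exact (hC i x hx).trans (le_abs_self _)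

theorem BC.integrableOn {O : Set (E N)} (hO : IsOpen O) {R : ℝ} (hR : O ⊆ Metric.closedBall 0 R)
    {f : E N → F} (hf : BC O f) : IntegrableOn f O := by
  obtain ⟨C, hC⟩ := hf.2
  have hv : volume O < ⊤ :=
    (measure_mono hR).trans_lt (isCompact_closedBall (0 : E N) R).measure_lt_top
  haveI : IsFiniteMeasure (volume.restrict O) := ⟨by rwa [Measure.restrict_apply_univ]⟩
  refine Integrable.of_bound (hf.1.aestronglyMeasurable hO.measurableSet) C ?_
  exact (ae_restrict_iff' hO.measurableSet).2 (Eventually.of_forall hC)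

/-- the volume of the large ball -/
noncomputable def vl (N : ℕ) (R : ℝ) : ℝ := (volume (Metric.closedBall (0 : E N) R)).toReal

theorem vl_nonneg (N : ℕ) (R : ℝ) : 0 ≤ vl N R := ENNReal.toReal_nonneg

theorem abs_integral_le {O : Set (E N)} {R : ℝ} (hR : O ⊆ Metric.closedBall 0 R)
    {f : E N → ℝ} {C : ℝ} (hC : ∀ x ∈ O, |f x| ≤ C) (h0 : 0 ≤ C) :
    |∫ x in O, f x| ≤ C * vl N R := by
  have hc := (isCompact_closedBall (0 : E N) R).measure_lt_top (μ := volume)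
  have hv : volume O < ⊤ := (measure_mono hR).trans_lt hc
  have h1 := norm_setIntegral_le_of_norm_le_const (μ := volume) (s := O) (f := f) (C := C) hv
    (fun x hx => hC x hx)
  rw [Real.norm_eq_abs] at h1
  refine h1.trans (mul_le_mul_of_nonneg_left ?_ h0)
  exact ENNReal.toReal_mono hc.ne (measure_mono hR)

end BC

section St

variable {K κ R : ℝ} {U : Set (E N)} {u : E N → ℝ}

theorem St.contDiffAt (h : St K κ R U u) {x : E N} (hx : x ∈ U) : ContDiffAt ℝ 4 u x :=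
  h.smooth.contDiffAt (h.isOpen.mem_nhds hx)

theorem St.diffAt (h : St K κ R U u) {x : E N} (hx : x ∈ U) : DifferentiableAt ℝ u x :=
  (h.contDiffAt hx).differentiableAt (by norm_num)

theorem St.nonneg (h : St K κ R U u) (x : E N) : 0 ≤ u x := by
  by_cases hx : x ∈ U
  · exact (h.pos x hx).le
  · exact (h.zero x hx).ge

theorem St.mem_of_pos (h : St K κ R U u) {x : E N} (hx : 0 < u x) : x ∈ U := by
  by_contra hx'
  rw [h.zero x hx'] at hx
  exact lt_irrefl _ hx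

theorem St.mem_iff (h : St K κ R U u) {x : E N} : x ∈ U ↔ 0 < u x :=
  ⟨h.pos x, h.mem_of_pos⟩

theorem St.cut_eventually (h : St K κ R U u) {δ : ℝ} (hδ : 0 < δ) {x : E N} (hx : x ∉ U) :
    cut δ u =ᶠ[𝓝 x] fun _ => 0 := by
  have h1 : ∀ᶠ y in 𝓝 x, u y < δ :=
    h.cont.continuousAt.eventually_lt continuousAt_const (by rwa [h.zero x hx])
  filter_upwards [h1] with y hy
  exact cut_eq_zero hδ hy.le

theorem St.cut_contDiff (h : St K κ R U u) {δ : ℝ} (hδ : 0 < δ) : ContDiff ℝ 1 (cut δ u) := by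
  rw [contDiff_iff_contDiffAt]
  intro x
  by_cases hx : x ∈ U
  · have h1 : ContDiffAt ℝ 1 (fun y => u y / δ) x :=
      ((h.contDiffAt hx).of_le (by norm_num)).div_const δ
    exact Hc_contDiff.contDiffAt.comp x h1
  · exact contDiffAt_const.congr_of_eventuallyEq (h.cut_eventually hδ hx)

theorem St.gr_cut (h : St K κ R U u) {δ : ℝ} (hδ : 0 < δ) (x : E N) :
    gr (cut δ u) x = mu δ u x • gr u x := by
  by_cases hx : x ∈ U
  · ext i
    change pd i (cut δ u) x = mu δ u x * pd i u x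
    have h1 : HasFDerivAt (fun y => u y / δ) (δ⁻¹ • fderiv ℝ u x) x := by
      have := (h.diffAt hx).hasFDerivAt.mul_const δ⁻¹
      simpa [div_eq_mul_inv] using this
    have h2 : HasFDerivAt (cut δ u) (deriv Hc (u x / δ) • (δ⁻¹ • fderiv ℝ u x)) x :=
      (Hc_contDiff.differentiable (by norm_num) _).hasDerivAt.comp_hasFDerivAt x h1
    unfold pd
    rw [h2.fderiv]
    simp [mu, div_eq_mul_inv, mul_assoc]
  · rw [mu_eq_zero hδ (Or.inl (by rwa [h.zero x hx])), zero_smul, gr_congr (h.cut_eventually hδ hx)]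
    ext i
    simp [pd]

theorem St.isClosed_sup (h : St K κ R U u) (δ : ℝ) : IsClosed {x | δ ≤ u x} :=
  isClosed_le continuous_const h.cont

theorem St.isCompact_sup (h : St K κ R U u) {δ : ℝ} (hδ : 0 < δ) : IsCompact {x | δ ≤ u x} :=
  (isCompact_closedBall (0 : E N) R).of_isClosed_subset (h.isClosed_sup δ) fun _ hx =>
    h.sub (h.mem_of_pos (hδ.trans_le hx))

theorem St.tsupport_cut (h : St K κ R U u) {δ : ℝ} (hδ : 0 < δ) :
    tsupport (cut δ u) ⊆ {x | δ ≤ u x} := by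
  refine closure_minimal (fun x hx => ?_) (h.isClosed_sup δ)
  by_contra hx'
  exact hx (cut_eq_zero hδ (le_of_lt (not_le.1 hx')))

theorem St.tsupport_mu (h : St K κ R U u) {δ : ℝ} (hδ : 0 < δ) :
    tsupport (mu δ u) ⊆ {x | δ ≤ u x} := by
  refine closure_minimal (fun x hx => ?_) (h.isClosed_sup δ)
  exact (mu_ne hδ hx).1

theorem St.sup_subset (h : St K κ R U u) {δ : ℝ} (hδ : 0 < δ) : {x | δ ≤ u x} ⊆ U :=
  fun _ hx => h.mem_of_pos (hδ.trans_le hx)

theorem St.compact_cut (h : St K κ R U u) {δ : ℝ} (hδ : 0 < δ) : HasCompactSupport (cut δ u) :=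
  (h.isCompact_sup hδ).of_isClosed_subset (isClosed_tsupport _) (h.tsupport_cut hδ)

theorem St.compact_mu (h : St K κ R U u) {δ : ℝ} (hδ : 0 < δ) : HasCompactSupport (mu δ u) :=
  (h.isCompact_sup hδ).of_isClosed_subset (isClosed_tsupport _) (h.tsupport_mu hδ)

theorem St.continuous_mu (h : St K κ R U u) {δ : ℝ} : Continuous (mu δ u) :=
  (Hc_deriv_continuous.comp (h.cont.div_const δ)).div_const δ

theorem St.K_nonneg (h : St K κ R U u) {x : E N} (hx : x ∈ U) : 0 ≤ K :=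
  (h.pos x hx).le.trans (h.bu x hx)

theorem St.bc_u (h : St K κ R U u) : BC U u :=
  ⟨h.cont.continuousOn, K, fun x hx => by
    rw [Real.norm_eq_abs, abs_of_nonneg (h.nonneg x)]
    exact h.bu x hx⟩

theorem St.bc_gr (h : St K κ R U u) : BC U (gr u) := by
  refine BC.of_comps fun i => ⟨?_, K, fun x hx => (abs_pd_le u x i).trans (h.bg x hx)⟩
  exact (contDiffOn_pd (i := i) (k := 3) h.isOpen h.smooth).continuousOn

theorem St.smooth_gr (h : St K κ R U u) (i : Fin N) : ContDiffOn ℝ 1 (fun x => gr u x i) U :=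
  (contDiffOn_pd (i := i) (k := 3) h.isOpen h.smooth).of_le (by norm_num)

theorem St.bc_lap (h : St K κ R U u) : BC U (lap u) := by
  refine ⟨?_, K, h.bl⟩
  refine continuousOn_finsetSum _ fun i _ => ?_
  exact (contDiffOn_pd (i := i) (k := 2) h.isOpen
    (contDiffOn_pd (i := i) (k := 3) h.isOpen h.smooth)).continuousOn

theorem bc_mu (h : St K κ R U u) {δ : ℝ} (hδ : 0 < δ) (O : Set (E N)) : BC O (mu δ u) := by
  obtain ⟨C, hC⟩ := (h.compact_mu hδ).exists_bound_of_continuous h.continuous_mu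
  exact ⟨h.continuous_mu.continuousOn, C, fun x _ => hC x⟩

theorem bc_cut (h : St K κ R U u) {δ : ℝ} (hδ : 0 < δ) (O : Set (E N)) : BC O (cut δ u) := by
  refine ⟨(h.cut_contDiff hδ).continuous.continuousOn, 1, fun x _ => ?_⟩
  rw [Real.norm_eq_abs, abs_of_nonneg (cut_nonneg _ _ _)]
  exact cut_le_one _ _ _

/-- integration by parts with the cut-off of one function -/
theorem St.ibp (h : St K κ R U u) {δ : ℝ} (hδ : 0 < δ) {G : E N → E N}
    (hG : ∀ i, ContDiffOn ℝ 1 (fun x => G x i) U) :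
    ∫ x in U, cut δ u x * dv G x = -∫ x in U, mu δ u x * ⟪gr u x, G x⟫ := by
  have h1 := ibp_dv h.isOpen (h.cut_contDiff hδ) (h.compact_cut hδ)
    ((h.tsupport_cut hδ).trans (h.sup_subset hδ)) hG
  rw [setIntegral_eq_integral_of_forall_compl_eq_zero, h1,
    setIntegral_eq_integral_of_forall_compl_eq_zero]
  · congr 1
    refine integral_congr_ae (Eventually.of_forall fun x => ?_)
    change ⟪gr (cut δ u) x, G x⟫ = _
    rw [h.gr_cut hδ, real_inner_smul_left]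
  · intro x hx
    rw [mu_eq_zero hδ (Or.inl (by rwa [h.zero x hx])), zero_mul]
  · intro x hx
    rw [cut_eq_zero hδ (by rw [h.zero x hx]; exact hδ.le), zero_mul]

/-- the mass of `mu` is bounded -/
theorem St.mass (h : St K κ R U u) (hκ : 0 < κ) (hK : 0 ≤ K) {δ : ℝ} (hδ : 0 < δ)
    (hδκ : 2 * δ < κ) : κ ^ 2 * ∫ x in U, mu δ u x ≤ K * vl N R := by
  have h1 := h.ibp hδ h.smooth_gr
  have h2 : κ ^ 2 * ∫ x in U, mu δ u x ≤ ∫ x in U, mu δ u x * ⟪gr u x, gr u x⟫ := by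
    rw [← integral_const_mul]
    refine setIntegral_mono_on ?_ ?_ h.isOpen.measurableSet fun x hx => ?_
    · exact ((BC.const (κ ^ 2)).mul (bc_mu h hδ U)).integrableOn h.isOpen h.sub
    · exact ((bc_mu h hδ U).mul (h.bc_gr.inner h.bc_gr)).integrableOn h.isOpen h.sub
    · rw [real_inner_self_eq_norm_sq, mul_comm]
      rcases eq_or_ne (mu δ u x) 0 with h0 | h0
      · rw [h0]
        simp
      · obtain ⟨h5, h6⟩ := mu_ne hδ h0
        have h7 := h.nd x (h.mem_of_pos (hδ.trans_le h5)) (by linarith)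
        have h8 := mu_nonneg hδ u x
        gcongr
  have h3 : |∫ x in U, cut δ u x * dv (gr u) x| ≤ K * vl N R := by
    refine abs_integral_le h.sub (fun x hx => ?_) hK
    rw [abs_mul, abs_of_nonneg (cut_nonneg _ _ _), dv_gr]
    have h4 := cut_le_one δ u x
    have h5 := h.bl x hx
    have h6 := cut_nonneg δ u x
    have h7 := abs_nonneg (lap u x)
    nlinarith
  have h4 := (abs_le.1 h3).1
  linarith

end St

/-! ### two functions -/

/-- two domains at a fixed time -/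
structure Pr (K κ R ε : ℝ) (U₁ U₂ : Set (E N)) (u₁ u₂ : E N → ℝ) : Prop where
  s1 : St K κ R U₁ u₁
  s2 : St K κ R U₂ u₂
  cu : ∀ x, |u₁ x - u₂ x| ≤ ε
  cg : ∀ x ∈ U₁ ∩ U₂, ‖gr u₁ x - gr u₂ x‖ ≤ ε

/-- the size of the constants -/
structure Cst (K κ ε : ℝ) : Prop where
  K1 : 1 ≤ K
  κ0 : 0 < κ
  κ1 : κ ≤ 1
  ε0 : 0 < ε
  small : 48 * K ^ 3 * ε ≤ κ ^ 4

theorem Cst.ε_le {K κ ε : ℝ} (h : Cst K κ ε) : 48 * ε ≤ κ ∧ ε ≤ 1 ∧ 48 * (K * ε) ≤ κ ^ 2 := by
  have h1 : (1 : ℝ) ≤ K ^ 3 := one_le_pow₀ h.K1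
  have h2 : K ≤ K ^ 3 := by
    have h := h.K1
    nlinarith [sq_nonneg K]
  have h3 : κ ^ 4 ≤ κ ^ 2 := pow_le_pow_of_le_one h.κ0.le h.κ1 (by norm_num)
  have h4 : κ ^ 4 ≤ κ := by
    simpa using pow_le_pow_of_le_one h.κ0.le h.κ1 (show 1 ≤ 4 by norm_num)
  have h5 := h.small
  have h6 := h.ε0
  refine ⟨?_, ?_, ?_⟩
  · nlinarith
  · have := h.κ1
    nlinarith
  · nlinarith

section Pr

variable {K κ R ε : ℝ} {U₁ U₂ : Set (E N)} {u₁ u₂ : E N → ℝ}

/-- the cut-off function -/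
noncomputable def chi (δ : ℝ) (u₁ u₂ : E N → ℝ) (x : E N) : ℝ := cut δ u₁ x * cut δ u₂ x

/-- the density of its gradient -/
noncomputable def lam (δ : ℝ) (u₁ u₂ : E N → ℝ) (x : E N) : ℝ :=
  mu δ u₁ x * cut δ u₂ x + mu δ u₂ x * cut δ u₁ x

theorem chi_nonneg (δ : ℝ) (u₁ u₂ : E N → ℝ) (x : E N) : 0 ≤ chi δ u₁ u₂ x :=
  mul_nonneg (cut_nonneg _ _ _) (cut_nonneg _ _ _)

theorem chi_le_one (δ : ℝ) (u₁ u₂ : E N → ℝ) (x : E N) : chi δ u₁ u₂ x ≤ 1 :=
  mul_le_one₀ (cut_le_one _ _ _) (cut_nonneg _ _ _) (cut_le_one _ _ _)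

theorem lam_nonneg {δ : ℝ} (hδ : 0 < δ) (u₁ u₂ : E N → ℝ) (x : E N) : 0 ≤ lam δ u₁ u₂ x :=
  add_nonneg (mul_nonneg (mu_nonneg hδ _ _) (cut_nonneg _ _ _))
    (mul_nonneg (mu_nonneg hδ _ _) (cut_nonneg _ _ _))

theorem Pr.isOpen (h : Pr K κ R ε U₁ U₂ u₁ u₂) : IsOpen (U₁ ∩ U₂) := h.s1.isOpen.inter h.s2.isOpen

theorem Pr.sub (h : Pr K κ R ε U₁ U₂ u₁ u₂) : U₁ ∩ U₂ ⊆ Metric.closedBall 0 R :=
  inter_subset_left.trans h.s1.sub

theorem Pr.gr_chi (h : Pr K κ R ε U₁ U₂ u₁ u₂) {δ : ℝ} (hδ : 0 < δ) (x : E N) :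
    gr (chi δ u₁ u₂) x =
      (mu δ u₁ x * cut δ u₂ x) • gr u₁ x + (mu δ u₂ x * cut δ u₁ x) • gr u₂ x := by
  have h1 := (h.s1.cut_contDiff hδ).differentiable (by norm_num) x
  have h2 := (h.s2.cut_contDiff hδ).differentiable (by norm_num) x
  have h3 : gr (chi δ u₁ u₂) x = gr (fun y => cut δ u₁ y * cut δ u₂ y) x := rfl
  rw [h3, gr_mul h1 h2, h.s1.gr_cut hδ, h.s2.gr_cut hδ, smul_smul, smul_smul, mul_comm (cut δ u₂ x),
    mul_comm (cut δ u₁ x)]

/-- integration by parts with the cut-off of two functions -/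
theorem Pr.ibp (h : Pr K κ R ε U₁ U₂ u₁ u₂) {δ : ℝ} (hδ : 0 < δ) {G : E N → E N}
    (hG : ∀ i, ContDiffOn ℝ 1 (fun x => G x i) (U₁ ∩ U₂)) :
    ∫ x in U₁ ∩ U₂, chi δ u₁ u₂ x * dv G x = -∫ x in U₁ ∩ U₂,
      (mu δ u₁ x * cut δ u₂ x * ⟪gr u₁ x, G x⟫ + mu δ u₂ x * cut δ u₁ x * ⟪gr u₂ x, G x⟫) := by
  have hc : HasCompactSupport (chi δ u₁ u₂) := HasCompactSupport.mul_right (h.s1.compact_cut hδ)
  have hs : tsupport (chi δ u₁ u₂) ⊆ U₁ ∩ U₂ := by
    refine subset_inter ?_ ?_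
    · exact (tsupport_mul_subset_left).trans ((h.s1.tsupport_cut hδ).trans (h.s1.sup_subset hδ))
    · exact (tsupport_mul_subset_right).trans ((h.s2.tsupport_cut hδ).trans (h.s2.sup_subset hδ))
  have h1 := ibp_dv h.isOpen ((h.s1.cut_contDiff hδ).mul (h.s2.cut_contDiff hδ)) hc hs hG
  have h0 : ∀ x ∉ U₁ ∩ U₂, u₁ x = 0 ∨ u₂ x = 0 := by
    intro x hx
    by_cases h2 : x ∈ U₁
    · exact Or.inr (h.s2.zero x fun h3 => hx ⟨h2, h3⟩)
    · exact Or.inl (h.s1.zero x h2)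
  rw [setIntegral_eq_integral_of_forall_compl_eq_zero,
    setIntegral_eq_integral_of_forall_compl_eq_zero]
  · refine h1.trans ?_
    congr 1
    refine integral_congr_ae (Eventually.of_forall fun x => ?_)
    change ⟪gr (chi δ u₁ u₂) x, G x⟫ = _
    rw [h.gr_chi hδ, inner_add_left, real_inner_smul_left, real_inner_smul_left]
  · intro x hx
    rcases h0 x hx with h2 | h2
    · rw [mu_eq_zero hδ (Or.inl (by rwa [h2])), cut_eq_zero (u := u₁) hδ (by rw [h2]; exact hδ.le)]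
      ring
    · rw [mu_eq_zero (u := u₂) hδ (Or.inl (by rwa [h2])),
        cut_eq_zero (u := u₂) hδ (by rw [h2]; exact hδ.le)]
      ring
  · intro x hx
    unfold chi
    rcases h0 x hx with h2 | h2
    · rw [cut_eq_zero (u := u₁) hδ (by rw [h2]; exact hδ.le)]
      ring
    · rw [cut_eq_zero (u := u₂) hδ (by rw [h2]; exact hδ.le)]
      ring

theorem Pr.bc_chi (h : Pr K κ R ε U₁ U₂ u₁ u₂) {δ : ℝ} (hδ : 0 < δ) (O : Set (E N)) :
    BC O (chi δ u₁ u₂) := (bc_cut h.s1 hδ O).mul (bc_cut h.s2 hδ O)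

theorem Pr.bc_lam (h : Pr K κ R ε U₁ U₂ u₁ u₂) {δ : ℝ} (hδ : 0 < δ) (O : Set (E N)) :
    BC O (lam δ u₁ u₂) :=
  ((bc_mu h.s1 hδ O).mul (bc_cut h.s2 hδ O)).add ((bc_mu h.s2 hδ O).mul (bc_cut h.s1 hδ O))

/-- near the boundary the gradients are almost parallel -/
theorem Pr.inner_ge (h : Pr K κ R ε U₁ U₂ u₁ u₂) (hc : Cst K κ ε) {x : E N} (hx : x ∈ U₁ ∩ U₂)
    (h1 : u₁ x < κ) : κ ^ 2 / 2 ≤ ⟪gr u₁ x, gr u₂ x⟫ ∧ κ ≤ ‖gr u₁ x‖ := by
  have h2 := h.s1.nd x hx.1 h1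
  refine ⟨?_, h2⟩
  have h3 : ⟪gr u₁ x, gr u₂ x⟫ = ‖gr u₁ x‖ ^ 2 - ⟪gr u₁ x, gr u₁ x - gr u₂ x⟫ := by
    rw [inner_sub_right, real_inner_self_eq_norm_sq]
    ring
  have h4 : ⟪gr u₁ x, gr u₁ x - gr u₂ x⟫ ≤ K * ε :=
    (real_inner_le_norm _ _).trans (mul_le_mul (h.s1.bg x hx.1) (h.cg x hx) (norm_nonneg _)
      (by linarith [hc.K1]))
  have h5 : κ ^ 2 ≤ ‖gr u₁ x‖ ^ 2 := pow_le_pow_left₀ hc.κ0.le h2 2
  have h6 := hc.ε_le.2.2
  have h7 : 0 ≤ K * ε := mul_nonneg (by linarith [hc.K1]) hc.ε0.le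
  rw [h3]
  linarith

end Pr

end Pool.Agent.TF
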