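import Mathlib

/-!
# A thin-film free-boundary problem with absorption: definitions

`u_t + (1/2) u Δ²(u²) + ∇u · ∇Δ(u²) + 1/2 = 0` in the domains `Ω(t)`, `0 ≤ t ≤ T`.
-/

open scoped ContDiff Topology
open Set MeasureTheory Filter

namespace Pool.Agent.TF

/-- The Euclidean space `ℝ^N`. -/
abbrev E (N : ℕ) := EuclideanSpace ℝ (Fin N)

variable {N : ℕ}

/-- The partial derivative `∂_i f`. -/
noncomputable def pd (i : Fin N) (f : E N → ℝ) (x : E N) : ℝ :=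
  fderiv ℝ f x (EuclideanSpace.single i 1)

/-- The Laplacian. -/
noncomputable def lap (f : E N → ℝ) (x : E N) : ℝ := ∑ i, pd i (pd i f) x

/-- `Q = {(t, x) : 0 ≤ t ≤ T, x ∈ Ω(t)}`. -/
def Q (T : ℝ) (Ω : ℝ → Set (E N)) : Set (ℝ × E N) := {p | p.1 ∈ Icc 0 T ∧ p.2 ∈ Ω p.1}

/-- `{(t, x) : 0 ≤ t ≤ T, x ∈ closure of Ω(t)}`. -/
def Qbar (T : ℝ) (Ω : ℝ → Set (E N)) : Set (ℝ × E N) :=
  {p | p.1 ∈ Icc 0 T ∧ p.2 ∈ closure (Ω p.1)}

/-- The solutions on `[0, T]` which are regular up to `t = 0`.  Of the domains `Ω(t)` we require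
only that they are open, that `Q` is relatively open in `[0, T] × ℝ^N`, that `Qbar` is compact and
that the boundaries have measure zero. -/
structure IsSolution (T : ℝ) (Ω : ℝ → Set (E N)) (u : ℝ → E N → ℝ) : Prop where
  isOpen : ∀ t ∈ Icc 0 T, IsOpen (Ω t)
  openQ : ∀ p ∈ Q T Ω, ∀ᶠ q in 𝓝 p, q.1 ∈ Icc 0 T → q ∈ Q T Ω
  compact : IsCompact (Qbar T Ω)
  null : ∀ t ∈ Icc 0 T, volume (frontier (Ω t)) = 0
  /-- `u` is continuous on `Qbar`, positive in `Ω(t)` and zero on the boundary of `Ω(t)`. -/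
  cont : ContinuousOn (fun p : ℝ × E N => u p.1 p.2) (Qbar T Ω)
  pos : ∀ p ∈ Q T Ω, 0 < u p.1 p.2
  zero : ∀ p ∈ Qbar T Ω, p ∉ Q T Ω → u p.1 p.2 = 0
  /-- `∇u` extends continuously to `Qbar` and is not zero on the boundary of `Ω(t)`. -/
  grad : ∃ G : Fin N → ℝ × E N → ℝ, (∀ i, ContinuousOn (G i) (Qbar T Ω)) ∧
    (∀ p ∈ Q T Ω, ∀ i, G i p = pd i (u p.1) p.2) ∧
    ∀ p ∈ Qbar T Ω, p ∉ Q T Ω → ∃ i, G i p ≠ 0
  /-- The spatial derivatives of order at most four exist, are continuous for `t > 0` and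
  bounded. -/
  smooth : ∀ t ∈ Icc 0 T, ContDiffOn ℝ 4 (u t) (Ω t)
  deriv_cont : ∀ k ≤ 4, ContinuousOn (fun p : ℝ × E N => iteratedFDeriv ℝ k (u p.1) p.2)
    {p | p ∈ Q T Ω ∧ 0 < p.1}
  bound : ∃ K : ℝ, ∀ k ≤ 4, ∀ p ∈ Q T Ω, ‖iteratedFDeriv ℝ k (u p.1) p.2‖ ≤ K
  /-- the equation -/
  eq : ∀ p ∈ Q T Ω, 0 < p.1 → HasDerivWithinAt (fun s => u s p.2)
    (-(1 / 2 * u p.1 p.2 * lap (lap fun x => u p.1 x ^ 2) p.2 +
      ∑ i, pd i (u p.1) p.2 * pd i (lap fun x => u p.1 x ^ 2) p.2 + 1 / 2)) (Icc 0 T) p.1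

end Pool.Agent.TF
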