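import Pool.Agent.Work.MP_9c254e_an.Lip

/-!
# The energy `∫ |∇(v₁ - v₂)|²` and its derivative
-/

open scoped ContDiff Topology RealInnerProductSpace
open Set MeasureTheory Filter

namespace Pool.Agent.TF

variable {N : ℕ}

section Two

variable {K κ R : ℝ} {U₁ U₂ : Set (E N)} {u₁ u₂ : E N → ℝ}

theorem contDiff_ee (h1 : St K κ R U₁ u₁) (h2 : St K κ R U₂ u₂) (hK : 0 ≤ K) :
    ContDiff ℝ 1 (ee u₁ u₂) := (h1.contDiff_sq hK).sub (h2.contDiff_sq hK)

theorem gr_ee_all (h1 : St K κ R U₁ u₁) (h2 : St K κ R U₂ u₂) (hK : 0 ≤ K) (x : E N) :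
    gr (ee u₁ u₂) x = gr (fun y => u₁ y ^ 2) x - gr (fun y => u₂ y ^ 2) x :=
  gr_sub ((h1.contDiff_sq hK).differentiable (by norm_num) x)
    ((h2.contDiff_sq hK).differentiable (by norm_num) x)

theorem St.gr_sq_ball (h : St K κ R U₁ u₁) (hK : 0 ≤ K) {x : E N}
    (hx : x ∉ Metric.closedBall 0 R) : gr (fun y => u₁ y ^ 2) x = 0 :=
  h.gr_sq_out hK fun hh => hx (h.sub hh)

/-- continuous functions which vanish outside the large ball -/
theorem integrable_of_ball {F : Type*} [NormedAddCommGroup F] [NormedSpace ℝ F] {f : E N → F}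
    (hf : Continuous f) (h0 : ∀ x ∉ Metric.closedBall (0 : E N) R, f x = 0) : Integrable f := by
  refine hf.integrable_of_hasCompactSupport ?_
  refine HasCompactSupport.intro (isCompact_closedBall (0 : E N) R) h0

theorem integrable_inner_sq (h : St K κ R U₁ u₁) (hK : 0 ≤ K) {w : E N → ℝ}
    (hw : ContDiff ℝ 1 w) : Integrable fun x => ⟪gr w x, gr (fun y => u₁ y ^ 2) x⟫ := by
  refine integrable_of_ball (R := R)
    ((continuous_gr hw).inner (continuous_gr (h.contDiff_sq hK))) fun x hx => ?_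
  rw [h.gr_sq_ball hK hx, inner_zero_right]

theorem integrable_mul_la (h : St K κ R U₁ u₁) (_hK : 0 ≤ K) {w : E N → ℝ}
    (hw : Continuous w) : Integrable fun x => w x * la U₁ u₁ x := by
  have h1 : BC U₁ fun x => w x * lap (fun z => u₁ z ^ 2) x :=
    (bc_of_continuous h.sub hw).mul h.bc_A
  have h2 := (h1.integrableOn h.isOpen h.sub).integrable_indicator h.isOpen.measurableSet
  refine h2.congr (Eventually.of_forall fun x => ?_)
  by_cases hx : x ∈ U₁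
  · simp only [la, indicator_of_mem hx]
  · simp only [la, indicator_of_notMem hx, mul_zero]

/-- Green's formula for two domains -/
theorem green2 (h1 : St K κ R U₁ u₁) (h2 : St K κ R U₂ u₂) (hK : 1 ≤ K) (hκ : 0 < κ)
    (hκ1 : κ ≤ 1) {w : E N → ℝ} (hw : ContDiff ℝ 1 w) :
    ∫ x, ⟪gr w x, gr (ee u₁ u₂) x⟫ = -∫ x, w x * (la U₁ u₁ x - la U₂ u₂ x) := by
  have hK0 : 0 ≤ K := by linarith
  have e1 : ∀ x, ⟪gr w x, gr (ee u₁ u₂) x⟫ =
      ⟪gr w x, gr (fun y => u₁ y ^ 2) x⟫ - ⟪gr w x, gr (fun y => u₂ y ^ 2) x⟫ := fun x => by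
    rw [gr_ee_all h1 h2 hK0, inner_sub_right]
  have e2 : ∀ x, w x * (la U₁ u₁ x - la U₂ u₂ x) = w x * la U₁ u₁ x - w x * la U₂ u₂ x :=
    fun x => mul_sub _ _ _
  simp only [e1, e2]
  rw [integral_sub (integrable_inner_sq h1 hK0 hw) (integrable_inner_sq h2 hK0 hw),
    integral_sub (integrable_mul_la h1 hK0 hw.continuous) (integrable_mul_la h2 hK0 hw.continuous),
    h1.green hK hκ hκ1 hw, h2.green hK hκ hκ1 hw]
  ring

/-- the energy -/
noncomputable def EE (u₁ u₂ : E N → ℝ) : ℝ := ∫ x, ‖gr (ee u₁ u₂) x‖ ^ 2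

theorem EE_eq (h1 : St K κ R U₁ u₁) (h2 : St K κ R U₂ u₂) (hK : 1 ≤ K) (hκ : 0 < κ)
    (hκ1 : κ ≤ 1) : EE u₁ u₂ = -∫ x, ee u₁ u₂ x * (la U₁ u₁ x - la U₂ u₂ x) := by
  rw [← green2 h1 h2 hK hκ hκ1 (contDiff_ee h1 h2 (by linarith))]
  unfold EE
  simp only [real_inner_self_eq_norm_sq]

theorem integrable_mul_la2 (h1 : St K κ R U₁ u₁) (h2 : St K κ R U₂ u₂) (hK : 0 ≤ K)
    {w : E N → ℝ} (hw : Continuous w) :
    Integrable fun x => w x * (la U₁ u₁ x - la U₂ u₂ x) := by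
  have := (integrable_mul_la h1 hK hw).sub (integrable_mul_la h2 hK hw)
  refine this.congr (Eventually.of_forall fun x => ?_)
  change w x * la U₁ u₁ x - w x * la U₂ u₂ x = _
  ring

/-- the difference of two energies -/
theorem EE_sub {V₁ V₂ : Set (E N)} {z₁ z₂ : E N → ℝ} (h1 : St K κ R U₁ u₁)
    (h2 : St K κ R U₂ u₂) (h3 : St K κ R V₁ z₁) (h4 : St K κ R V₂ z₂) (hK : 1 ≤ K) (hκ : 0 < κ)
    (hκ1 : κ ≤ 1) : EE z₁ z₂ - EE u₁ u₂ = ∫ x, -((ee z₁ z₂ x - ee u₁ u₂ x) *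
      ((la V₁ z₁ x - la V₂ z₂ x) + (la U₁ u₁ x - la U₂ u₂ x))) := by
  have hK0 : 0 ≤ K := by linarith
  have c1 := contDiff_ee h1 h2 hK0
  have c2 := contDiff_ee h3 h4 hK0
  have g1 := green2 h1 h2 hK hκ hκ1 c2
  have g2 := green2 h3 h4 hK hκ hκ1 c1
  have g3 : ∫ x, ⟪gr (ee z₁ z₂) x, gr (ee u₁ u₂) x⟫ = ∫ x, ⟪gr (ee u₁ u₂) x, gr (ee z₁ z₂) x⟫ := by
    congr 1
    funext x
    exact real_inner_comm _ _
  rw [EE_eq h1 h2 hK hκ hκ1, EE_eq h3 h4 hK hκ hκ1]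
  have i1 := integrable_mul_la2 h3 h4 hK0 c2.continuous
  have i2 := integrable_mul_la2 h1 h2 hK0 c1.continuous
  have i3 := integrable_mul_la2 h1 h2 hK0 c2.continuous
  have i4 := integrable_mul_la2 h3 h4 hK0 c1.continuous
  have e : ∀ x, -((ee z₁ z₂ x - ee u₁ u₂ x) *
      ((la V₁ z₁ x - la V₂ z₂ x) + (la U₁ u₁ x - la U₂ u₂ x))) =
      (ee u₁ u₂ x * (la U₁ u₁ x - la U₂ u₂ x) - ee z₁ z₂ x * (la V₁ z₁ x - la V₂ z₂ x)) +
        (ee u₁ u₂ x * (la V₁ z₁ x - la V₂ z₂ x) - ee z₁ z₂ x * (la U₁ u₁ x - la U₂ u₂ x)) :=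
    fun x => by ring
  simp only [e]
  refine Eq.trans ?_ (integral_add (i2.sub i1) (i4.sub i3)).symm
  rw [integral_sub' i2 i1, integral_sub' i4 i3]
  linarith

end Two

/-! ### the derivative in time -/

section Time

variable {K κ R T : ℝ} {Ω : ℝ → Set (E N)} {U : ℝ → E N → ℝ}

/-- the right-hand side of the equation -/
noncomputable def rh (u : E N → ℝ) (x : E N) : ℝ :=
  -(1 / 2 * u x * lap (lap fun y => u y ^ 2) x + ⟪gr u x, gr (lap fun y => u y ^ 2) x⟫ + 1 / 2)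

theorem St.abs_rh {V : Set (E N)} {u : E N → ℝ} (h : St K κ R V u) (hK : 1 ≤ K) {x : E N}
    (hx : x ∈ V) : |rh u x| ≤ 2 * K ^ 2 := by
  have hK0 : 0 ≤ K := by linarith
  have h1 : |1 / 2 * u x * lap (lap fun y => u y ^ 2) x| ≤ 1 / 2 * K * K := by
    rw [abs_mul, abs_mul, abs_of_nonneg (h.nonneg x), abs_of_nonneg (by norm_num : (0 : ℝ) ≤ 1 / 2)]
    have := h.bu x hx
    have := h.bla x hx
    have := h.nonneg x
    gcongr
  have h2 : |⟪gr u x, gr (lap fun y => u y ^ 2) x⟫| ≤ K * K :=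
    (abs_real_inner_le_norm _ _).trans (mul_le_mul (h.bg x hx) (h.bga x hx) (norm_nonneg _) hK0)
  have h3 : (1 : ℝ) ≤ K ^ 2 := one_le_pow₀ hK
  unfold rh
  rw [abs_neg]
  have h4 := abs_add_le (1 / 2 * u x * lap (lap fun y => u y ^ 2) x +
    ⟪gr u x, gr (lap fun y => u y ^ 2) x⟫) (1 / 2)
  have h5 := abs_add_le (1 / 2 * u x * lap (lap fun y => u y ^ 2) x)
    ⟪gr u x, gr (lap fun y => u y ^ 2) x⟫
  rw [abs_of_nonneg (by norm_num : (0 : ℝ) ≤ 1 / 2)] at h4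
  linarith

theorem Sol.lip_t (h : Sol K κ R T Ω U) (hK : 1 ≤ K) {s t : ℝ} (hs : s ∈ Icc 0 T)
    (ht : t ∈ Icc 0 T) (x : E N) : |U s x - U t x| ≤ 2 * K ^ 2 * |s - t| := by
  wlog hst : t ≤ s generalizing s t
  · rw [abs_sub_comm, abs_sub_comm s t]
    exact this ht hs (le_of_lt (not_le.1 hst))
  rw [abs_of_nonneg (sub_nonneg.2 hst)]
  have hsub : Icc t s ⊆ Icc 0 T := Icc_subset_Icc ht.1 hs.2
  have hc : ContinuousOn (fun r => U r x) (Icc t s) :=
    h.cont.comp (continuous_id.prodMk continuous_const).continuousOn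
      fun r hr => ⟨hsub hr, mem_univ _⟩
  refine lip_abs hst hc (fun r hr => (h.st r (hsub hr)).nonneg x) (fun r hr hp => ?_) (by positivity)
  have hr' : r ∈ Ioo 0 T := ⟨ht.1.trans_lt hr.1, hr.2.trans_le hs.2⟩
  have hst' := h.st r (Ioo_subset_Icc_self hr')
  have hx : x ∈ Ω r := hst'.mem_of_pos hp
  exact ⟨_, h.der r hr' x hx, hst'.abs_rh hK hx⟩

theorem Sol.lip_sq (h : Sol K κ R T Ω U) (hK : 1 ≤ K) {s t : ℝ} (hs : s ∈ Icc 0 T)
    (ht : t ∈ Icc 0 T) (x : E N) : |U s x ^ 2 - U t x ^ 2| ≤ 4 * K ^ 3 * |s - t| := by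
  have hK0 : 0 ≤ K := by linarith
  have h1 := h.lip_t hK hs ht x
  have hb : ∀ r ∈ Icc 0 T, U r x ≤ K := fun r hr => by
    by_cases hx : x ∈ Ω r
    · exact (h.st r hr).bu x hx
    · rw [(h.st r hr).zero x hx]
      exact hK0
  have h2 : U s x ^ 2 - U t x ^ 2 = (U s x - U t x) * (U s x + U t x) := by ring
  have h3 : |U s x + U t x| ≤ 2 * K := by
    rw [abs_of_nonneg (add_nonneg ((h.st s hs).nonneg x) ((h.st t ht).nonneg x))]
    linarith [hb s hs, hb t ht]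
  rw [h2, abs_mul]
  calc |U s x - U t x| * |U s x + U t x| ≤ 2 * K ^ 2 * |s - t| * (2 * K) := by gcongr
    _ = 4 * K ^ 3 * |s - t| := by ring

/-- `v_t = - ph` -/
theorem Sol.slope_in (h : Sol K κ R T Ω U) {t : ℝ} (ht : t ∈ Ioo 0 T) {x : E N}
    (hx : x ∉ frontier (Ω t)) :
    Tendsto (fun s => (s - t)⁻¹ * (U s x ^ 2 - U t x ^ 2)) (𝓝[≠] t) (𝓝 (-ph (Ω t) (U t) x)) ∧
      Tendsto (fun s => la (Ω s) (U s) x) (𝓝[≠] t) (𝓝 (la (Ω t) (U t) x)) := by
  have hst := h.st t (Ioo_subset_Icc_self ht)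
  by_cases hx1 : x ∈ Ω t
  · refine ⟨?_, (h.la_cont t ht x hx1).tendsto.mono_left nhdsWithin_le_nhds⟩
    have h1 : HasDerivAt (fun s => U s x ^ 2) (2 * U t x * rh (U t) x) t := by
      have := (h.der t ht x hx1).fun_pow 2
      simpa [rh] using this
    have h2 : 2 * U t x * rh (U t) x = -ph (Ω t) (U t) x := by
      unfold ph rh
      rw [indicator_of_mem hx1, hst.dv_fl hx1]
      ring
    rw [h2, hasDerivAt_iff_tendsto_slope] at h1
    refine h1.congr fun s => ?_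
    rw [slope_def_module, smul_eq_mul]
  · have hx2 : x ∉ closure (Ω t) := by
      intro hh
      exact hx ⟨hh, by rwa [hst.isOpen.interior_eq]⟩
    have h1 : ∀ᶠ s in 𝓝 t, x ∉ Ω s := h.out t ht x hx2
    have h2 : ∀ᶠ s in 𝓝 t, s ∈ Ioo 0 T := Ioo_mem_nhds ht.1 ht.2
    constructor
    · refine (tendsto_const_nhds (x := -ph (Ω t) (U t) x)).congr' ?_
      filter_upwards [mem_nhdsWithin_of_mem_nhds h1, mem_nhdsWithin_of_mem_nhds h2] with s hs hs2
      rw [(h.st s (Ioo_subset_Icc_self hs2)).zero x hs, hst.zero x hx1]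
      unfold ph
      rw [indicator_of_notMem hx1]
      ring
    · refine (tendsto_const_nhds (x := la (Ω t) (U t) x)).congr' ?_
      filter_upwards [mem_nhdsWithin_of_mem_nhds h1] with s hs
      rw [St.la_out hs, St.la_out hx1]

end Time

section Main

variable {K κ R T : ℝ} {Ω₁ Ω₂ : ℝ → Set (E N)} {U₁ U₂ : ℝ → E N → ℝ}

theorem ee_out (h1 : Sol K κ R T Ω₁ U₁) (h2 : Sol K κ R T Ω₂ U₂) {t : ℝ} (ht : t ∈ Icc 0 T)
    {x : E N} (hx : x ∉ Metric.closedBall 0 R) : ee (U₁ t) (U₂ t) x = 0 := by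
  unfold ee
  rw [(h1.st t ht).zero x fun hh => hx ((h1.st t ht).sub hh),
    (h2.st t ht).zero x fun hh => hx ((h2.st t ht).sub hh)]
  ring

theorem lip_ee (h1 : Sol K κ R T Ω₁ U₁) (h2 : Sol K κ R T Ω₂ U₂) (hK : 1 ≤ K) {s t : ℝ}
    (hs : s ∈ Icc 0 T) (ht : t ∈ Icc 0 T) (x : E N) :
    |ee (U₁ s) (U₂ s) x - ee (U₁ t) (U₂ t) x| ≤ 8 * K ^ 3 * |s - t| := by
  have e : ee (U₁ s) (U₂ s) x - ee (U₁ t) (U₂ t) x =
      (U₁ s x ^ 2 - U₁ t x ^ 2) - (U₂ s x ^ 2 - U₂ t x ^ 2) := by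
    unfold ee
    ring
  rw [e]
  refine (abs_sub _ _).trans ?_
  linarith [h1.lip_sq hK hs ht x, h2.lip_sq hK hs ht x]

/-- **The derivative of the energy.** -/
theorem hasDerivAt_EE (h1 : Sol K κ R T Ω₁ U₁) (h2 : Sol K κ R T Ω₂ U₂) (hK : 1 ≤ K)
    (hκ : 0 < κ) (hκ1 : κ ≤ 1) {t : ℝ} (ht : t ∈ Ioo 0 T) :
    HasDerivAt (fun s => EE (U₁ s) (U₂ s)) (2 * II (Ω₁ t) (Ω₂ t) (U₁ t) (U₂ t)) t := by
  have hK0 : 0 ≤ K := by linarith
  have ht' := Ioo_subset_Icc_self ht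
  have s1 := h1.st t ht'
  have s2 := h2.st t ht'
  rw [hasDerivAt_iff_tendsto_slope]
  set L : ℝ → E N → ℝ := fun s x => la (Ω₁ s) (U₁ s) x - la (Ω₂ s) (U₂ s) x with hL
  set F : ℝ → E N → ℝ := fun s x => (s - t)⁻¹ * -((ee (U₁ s) (U₂ s) x - ee (U₁ t) (U₂ t) x) *
    (L s x + L t x)) with hF
  have hev : ∀ᶠ s in 𝓝[≠] t, s ∈ Ioo 0 T ∧ s ≠ t := by
    filter_upwards [mem_nhdsWithin_of_mem_nhds (Ioo_mem_nhds ht.1 ht.2), self_mem_nhdsWithin]
      with s hs hs2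
    exact ⟨hs, hs2⟩
  have hlim : Tendsto (fun s => ∫ x, F s x) (𝓝[≠] t)
      (𝓝 (∫ x, 2 * ((ph (Ω₁ t) (U₁ t) x - ph (Ω₂ t) (U₂ t) x) * L t x))) := by
    refine tendsto_integral_filter_of_dominated_convergence
      ((Metric.closedBall (0 : E N) R).indicator fun _ => 8 * K ^ 3 * (4 * K)) ?_ ?_ ?_ ?_
    · filter_upwards [hev] with s hs
      have hs' := Ioo_subset_Icc_self hs.1
      have c1 := contDiff_ee (h1.st s hs') (h2.st s hs') hK0
      have c2 := contDiff_ee s1 s2 hK0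
      have i1 := integrable_mul_la2 (h1.st s hs') (h2.st s hs') hK0
        (c1.continuous.sub c2.continuous)
      have i2 := integrable_mul_la2 s1 s2 hK0 (c1.continuous.sub c2.continuous)
      have i3 := ((i1.add i2).neg.const_mul (s - t)⁻¹).aestronglyMeasurable
      refine i3.congr (Eventually.of_forall fun x => ?_)
      simp only [hF, hL, Pi.neg_apply, Pi.add_apply, Pi.sub_apply]
      ring
    · filter_upwards [hev] with s hs
      have hs' := Ioo_subset_Icc_self hs.1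
      refine Eventually.of_forall fun x => ?_
      by_cases hx : x ∈ Metric.closedBall (0 : E N) R
      · rw [indicator_of_mem hx]
        have b1 := lip_ee h1 h2 hK hs' ht' x
        have b2 : |L s x + L t x| ≤ 4 * K := by
          have a1 := (h1.st s hs').abs_la hK0 x
          have a2 := (h2.st s hs').abs_la hK0 x
          have a3 := s1.abs_la hK0 x
          have a4 := s2.abs_la hK0 x
          have a5 := abs_sub (la (Ω₁ s) (U₁ s) x) (la (Ω₂ s) (U₂ s) x)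
          have a6 := abs_sub (la (Ω₁ t) (U₁ t) x) (la (Ω₂ t) (U₂ t) x)
          have a7 := abs_add_le (L s x) (L t x)
          simp only [hL] at a7 ⊢
          linarith
        have b3 : 0 < |s - t| := abs_pos.2 (sub_ne_zero.2 hs.2)
        simp only [hF]
        rw [Real.norm_eq_abs, abs_mul, abs_neg, abs_mul, abs_inv]
        calc |s - t|⁻¹ * (|ee (U₁ s) (U₂ s) x - ee (U₁ t) (U₂ t) x| * |L s x + L t x|)
            ≤ |s - t|⁻¹ * (8 * K ^ 3 * |s - t| * (4 * K)) := by gcongr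
          _ = 8 * K ^ 3 * (4 * K) := by field_simp
      · rw [indicator_of_notMem hx]
        simp only [hF]
        rw [ee_out h1 h2 hs' hx, ee_out h1 h2 ht' hx]
        simp
    · exact (integrable_indicator_iff measurableSet_closedBall).2
        (integrableOn_const (isCompact_closedBall (0 : E N) R).measure_lt_top.ne)
    · have n1 : ∀ᵐ x ∂(volume : Measure (E N)), x ∉ frontier (Ω₁ t) :=
        measure_eq_zero_iff_ae_notMem.1 (h1.null t ht')
      have n2 : ∀ᵐ x ∂(volume : Measure (E N)), x ∉ frontier (Ω₂ t) :=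
        measure_eq_zero_iff_ae_notMem.1 (h2.null t ht')
      filter_upwards [n1, n2] with x hx1 hx2
      obtain ⟨t1, t2⟩ := h1.slope_in ht hx1
      obtain ⟨t3, t4⟩ := h2.slope_in ht hx2
      have t5 : Tendsto (fun s => L s x) (𝓝[≠] t) (𝓝 (L t x)) := t2.sub t4
      have t6 := ((t1.sub t3).mul (t5.add_const (L t x))).neg
      have e1 : -((-ph (Ω₁ t) (U₁ t) x - -ph (Ω₂ t) (U₂ t) x) * (L t x + L t x)) =
          2 * ((ph (Ω₁ t) (U₁ t) x - ph (Ω₂ t) (U₂ t) x) * L t x) := by ring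
      rw [e1] at t6
      refine t6.congr fun s => ?_
      simp only [hF]
      unfold ee
      ring
  rw [integral_const_mul] at hlim
  refine hlim.congr' ?_
  filter_upwards [hev] with s hs
  have hs' := Ioo_subset_Icc_self hs.1
  have e := EE_sub s1 s2 (h1.st s hs') (h2.st s hs') hK hκ hκ1
  rw [slope_def_module, smul_eq_mul, e, ← integral_const_mul]

end Main

end Pool.Agent.TF
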