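import Pool.Agent.Work.MP_9c254e_an.Sol

/-!
# The normal form of a solution
-/

open scoped ContDiff Topology RealInnerProductSpace
open Set MeasureTheory Filter

namespace Pool.Agent.TF

variable {N : ℕ} {T : ℝ} {Ω : ℝ → Set (E N)} {u : ℝ → E N → ℝ}

theorem Q_subset : Q T Ω ⊆ Qbar T Ω := fun _ hp => ⟨hp.1, subset_closure hp.2⟩

theorem ext_of_mem {t : ℝ} {x : E N} (hx : x ∈ Ω t) : ext Ω u t x = u t x :=
  indicator_of_mem hx _

theorem ext_of_notMem {t : ℝ} {x : E N} (hx : x ∉ Ω t) : ext Ω u t x = 0 :=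
  indicator_of_notMem hx _

theorem IsSolution.cont_ext (h : IsSolution T Ω u) :
    ContinuousOn (fun p : ℝ × E N => ext Ω u p.1 p.2) (Icc 0 T ×ˢ univ) := by
  intro p hp
  by_cases hpQ : p ∈ Q T Ω
  · have hQ : Q T Ω ∈ 𝓝[Icc 0 T ×ˢ univ] p := by
      have h1 := h.openQ p hpQ
      filter_upwards [mem_nhdsWithin_of_mem_nhds h1, self_mem_nhdsWithin] with q hq hq2
      exact hq hq2.1
    have h1 : ContinuousWithinAt (fun p : ℝ × E N => u p.1 p.2) (Q T Ω) p :=
      (h.cont p (Q_subset hpQ)).mono Q_subset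
    have h2 : ContinuousWithinAt (fun p : ℝ × E N => ext Ω u p.1 p.2) (Q T Ω) p :=
      h1.congr (fun q hq => ext_of_mem hq.2) (ext_of_mem hpQ.2)
    exact h2.mono_of_mem_nhdsWithin hQ
  · have hp0 : ext Ω u p.1 p.2 = 0 := ext_of_notMem fun hh => hpQ ⟨hp.1, hh⟩
    change Tendsto _ _ (𝓝 (ext Ω u p.1 p.2))
    rw [hp0, Metric.tendsto_nhds]
    intro ε hε
    have h3 : ∀ᶠ q in 𝓝 p, q ∈ Qbar T Ω → |u q.1 q.2| < ε := by
      by_cases hpb : p ∈ Qbar T Ω
      · have h4 := h.cont p hpb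
        change Tendsto _ _ (𝓝 (u p.1 p.2)) at h4
        rw [h.zero p hpb hpQ, Metric.tendsto_nhds] at h4
        have h5 := eventually_nhdsWithin_iff.1 (h4 ε hε)
        filter_upwards [h5] with q hq hq2
        have := hq hq2
        rwa [Real.dist_eq, sub_zero] at this
      · filter_upwards [h.compact.isClosed.isOpen_compl.mem_nhds hpb] with q hq hq2
        exact absurd hq2 hq
    filter_upwards [mem_nhdsWithin_of_mem_nhds h3, self_mem_nhdsWithin] with q hq hq2
    rw [Real.dist_eq, sub_zero]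
    by_cases hqQ : q.2 ∈ Ω q.1
    · rw [ext_of_mem hqQ]
      exact hq (Q_subset ⟨hq2.1, hqQ⟩)
    · rw [ext_of_notMem hqQ, abs_zero]
      exact hε

theorem IsSolution.cont_ext_t (h : IsSolution T Ω u) {t : ℝ} (ht : t ∈ Icc 0 T) :
    Continuous (ext Ω u t) :=
  h.cont_ext.comp_continuous (f := fun x : E N => (t, x)) (continuous_const.prodMk continuous_id)
    fun _ => ⟨ht, mem_univ _⟩

theorem IsSolution.ext_eventually (h : IsSolution T Ω u) {t : ℝ} (ht : t ∈ Icc 0 T) {x : E N}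
    (hx : x ∈ Ω t) : ext Ω u t =ᶠ[𝓝 x] u t := by
  filter_upwards [(h.isOpen t ht).mem_nhds hx] with y hy
  exact ext_of_mem hy

theorem IsSolution.bd (h : IsSolution T Ω u) {K : ℝ}
    (hK : ∀ k ≤ 4, ∀ p ∈ Q T Ω, ‖iteratedFDeriv ℝ k (u p.1) p.2‖ ≤ K) {t : ℝ}
    (ht : t ∈ Icc 0 T) : Bd 4 K (Ω t) (ext Ω u t) := by
  refine ⟨(h.smooth t ht).congr fun x hx => ext_of_mem hx, fun j hj x hx => ?_⟩
  have h1 := (h.ext_eventually ht hx).iteratedFDeriv ℝ j
  rw [h1.eq_of_nhds]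
  exact hK j hj (t, x) ⟨ht, hx⟩

/-- nondegeneracy -/
theorem IsSolution.nondeg (h : IsSolution T Ω u) :
    ∃ κ : ℝ, 0 < κ ∧ κ ≤ 1 ∧ ∀ p ∈ Q T Ω, u p.1 p.2 < κ → κ ≤ ‖gr (u p.1) p.2‖ := by
  obtain ⟨G, hG1, hG2, hG3⟩ := h.grad
  rcases (Qbar T Ω).eq_empty_or_nonempty with he | hne
  · exact ⟨1, one_pos, le_rfl, fun p hp => by
      have := Q_subset hp
      rw [he] at this
      exact absurd this (notMem_empty p)⟩
  · have hc : ContinuousOn (fun p : ℝ × E N => u p.1 p.2 + ∑ i, G i p * G i p) (Qbar T Ω) :=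
      h.cont.add (continuousOn_finsetSum _ fun i _ => (hG1 i).mul (hG1 i))
    obtain ⟨p₀, hp₀, hmin⟩ := h.compact.exists_isMinOn hne hc
    have hs : ∀ p, 0 ≤ ∑ i, G i p * G i p := fun p =>
      Finset.sum_nonneg fun i _ => mul_self_nonneg _
    have hpos : 0 < u p₀.1 p₀.2 + ∑ i, G i p₀ * G i p₀ := by
      by_cases hQ : p₀ ∈ Q T Ω
      · linarith [h.pos p₀ hQ, hs p₀]
      · obtain ⟨i, hi⟩ := hG3 p₀ hp₀ hQ
        rw [h.zero p₀ hp₀ hQ, zero_add]
        exact Finset.sum_pos' (fun j _ => mul_self_nonneg _) ⟨i, Finset.mem_univ _,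
          mul_self_pos.2 hi⟩
    set c := u p₀.1 p₀.2 + ∑ i, G i p₀ * G i p₀ with hcdef
    refine ⟨min (c / 2) 1, by positivity, min_le_right _ _, fun p hp hu => ?_⟩
    have h1 : c ≤ u p.1 p.2 + ∑ i, G i p * G i p := hmin (Q_subset hp)
    have h2 : ∑ i, G i p * G i p = ‖gr (u p.1) p.2‖ ^ 2 := by
      rw [norm_sq_eq]
      exact Finset.sum_congr rfl fun i _ => by rw [hG2 p hp i, gr_apply]
    rw [h2] at h1
    have h3 := min_le_left (c / 2) 1
    have h4 := min_le_right (c / 2) 1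
    set m := min (c / 2) 1 with hm
    have m0 : 0 < m := by positivity
    by_contra hh
    rw [not_le] at hh
    have h5 : ‖gr (u p.1) p.2‖ ^ 2 < m ^ 2 := by
      have := norm_nonneg (gr (u p.1) p.2)
      nlinarith
    nlinarith

theorem lap_sq {f : E N → ℝ} {x : E N} (hf : ContDiffAt ℝ 2 f x) :
    lap (fun y => f y ^ 2) x = ∑ i, 2 * (pd i f x * pd i f x + f x * pd i (pd i f) x) := by
  unfold lap
  refine Finset.sum_congr rfl fun i _ => ?_
  have h1 : pd i (fun y => f y ^ 2) =ᶠ[𝓝 x] fun y => 2 * (f y * pd i f y) := by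
    have h2 : ∀ᶠ y in 𝓝 x, ContDiffAt ℝ 2 f y := hf.eventually (by norm_num)
    filter_upwards [h2] with y hy
    rw [pd_sq (hy.differentiableAt (by norm_num))]
    ring
  have hd := hf.differentiableAt (by norm_num : (2 : WithTop ℕ∞) ≠ 0)
  rw [pd_congr h1, pd_const_mul 2 (hd.fun_mul (diffAt_pd hf i)), pd_mul hd (diffAt_pd hf i)]

theorem pd_eq_iter {f : E N → ℝ} (i : Fin N) (x : E N) :
    pd i f x = iteratedFDeriv ℝ 1 f x ![EuclideanSpace.single i 1] := by
  rw [iteratedFDeriv_one_apply]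
  rfl

theorem pd_pd_eq_iter {f : E N → ℝ} {x : E N} (hf : ContDiffAt ℝ 2 f x) (i j : Fin N) :
    pd i (pd j f) x = iteratedFDeriv ℝ 2 f x ![EuclideanSpace.single i 1,
      EuclideanSpace.single j 1] := by
  rw [iteratedFDeriv_two_apply]
  have hd : DifferentiableAt ℝ (fderiv ℝ f) x :=
    (hf.fderiv_right (m := 1) (by norm_num)).differentiableAt (by norm_num)
  unfold pd
  rw [fderiv_clm_apply hd (differentiableAt_const _)]
  simp

theorem IsSolution.inn (h : IsSolution T Ω u) {t : ℝ} (ht : t ∈ Ioo 0 T) {x : E N}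
    (hx : x ∈ Ω t) : ∀ᶠ s in 𝓝 t, x ∈ Ω s := by
  have h1 := h.openQ (t, x) ⟨Ioo_subset_Icc_self ht, hx⟩
  have h2 : Tendsto (fun s : ℝ => (s, x)) (𝓝 t) (𝓝 (t, x)) :=
    (continuous_id.prodMk continuous_const).tendsto t
  filter_upwards [h2.eventually h1, Ioo_mem_nhds ht.1 ht.2] with s hs hs2
  exact (hs (Ioo_subset_Icc_self hs2)).2

theorem IsSolution.iter_cont (h : IsSolution T Ω u) {t : ℝ} (ht : t ∈ Ioo 0 T) {x : E N}
    (hx : x ∈ Ω t) {k : ℕ} (hk : k ≤ 4) :
    ContinuousAt (fun s => iteratedFDeriv ℝ k (u s) x) t := by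
  have hQ : (t, x) ∈ Q T Ω := ⟨Ioo_subset_Icc_self ht, hx⟩
  have h1 := h.deriv_cont k hk (t, x) ⟨hQ, ht.1⟩
  have h2 : {p | p ∈ Q T Ω ∧ 0 < p.1} ∈ 𝓝 (t, x) := by
    have h3 : ∀ᶠ p : ℝ × E N in 𝓝 (t, x), p.1 ∈ Ioo 0 T :=
      continuous_fst.continuousAt.eventually (Ioo_mem_nhds ht.1 ht.2)
    filter_upwards [h.openQ _ hQ, h3] with p hp hp2
    exact ⟨hp (Ioo_subset_Icc_self hp2), hp2.1⟩
  have h3 := h1.continuousAt h2
  have h4 : ContinuousAt (fun s : ℝ => (s, x)) t :=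
    (continuous_id.prodMk continuous_const).continuousAt
  exact ContinuousAt.comp (f := fun s : ℝ => (s, x)) (x := t) h3 h4

/-- **The normal form.** -/
theorem IsSolution.exists_sol (h : IsSolution T Ω u) :
    ∃ K κ R : ℝ, 1 ≤ K ∧ 0 < κ ∧ κ ≤ 1 ∧ Sol K κ R T Ω (ext Ω u) := by
  obtain ⟨K₀, hK₀⟩ := h.bound
  obtain ⟨κ, hκ, hκ1, hnd⟩ := h.nondeg
  obtain ⟨R, hR⟩ := h.compact.isBounded.subset_closedBall (0 : ℝ × E N)
  set K₁ := max K₀ 1 with hK₁
  have hK1 : 1 ≤ K₁ := le_max_right _ _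
  have hK0 : 0 ≤ K₁ := by linarith
  have hN : (0 : ℝ) ≤ N := Nat.cast_nonneg N
  have hbd : ∀ t ∈ Icc 0 T, Bd 4 K₁ (Ω t) (ext Ω u t) := fun t ht =>
    h.bd (fun k hk p hp => (hK₀ k hk p hp).trans (le_max_left _ _)) ht
  have n1 : 0 ≤ N * K₁ := by positivity
  have n2 : 0 ≤ N * (16 * K₁ ^ 2) := by positivity
  have n3 : 0 ≤ N * (N * (16 * K₁ ^ 2)) := by positivity
  refine ⟨K₁ + N * K₁ + N * (16 * K₁ ^ 2) + N * (N * (16 * K₁ ^ 2)), κ, R, by linarith, hκ, hκ1,
    ⟨fun t ht => ?_, h.cont_ext, fun t ht x hx => ?_, fun t ht x hx => h.inn ht hx,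
      fun t ht x hx => ?_, fun t ht x hx => ?_, h.null⟩⟩
  · -- the static part
    have hO := h.isOpen t ht
    have hb := hbd t ht
    exact
      { isOpen := hO
        sub := fun x hx => by
          have h1 := hR (Q_subset (⟨ht, hx⟩ : (t, x) ∈ Q T Ω))
          rw [mem_closedBall_zero_iff] at h1 ⊢
          exact (norm_snd_le (t, x)).trans h1
        cont := h.cont_ext_t ht
        pos := fun x hx => by
          rw [ext_of_mem hx]
          exact h.pos (t, x) ⟨ht, hx⟩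
        zero := fun x hx => ext_of_notMem hx
        smooth := hb.1
        bu := fun x hx => (le_abs_self _).trans ((hb.abs_le hx).trans (by linarith))
        bg := fun x hx => (norm_gr_le _ _).trans
          ((Bd.norm_fderiv (k := 3) hb hx).trans (by linarith))
        bh := fun x hx i j =>
          ((Bd.pd (k := 2) hO (Bd.pd (k := 3) hO hb j) i).abs_le hx).trans (by linarith)
        bl := fun x hx => ((Bd.lap (k := 2) hO hb).abs_le hx).trans (by linarith)
        ba := fun x hx => ((Bd.lap_sq hO hK0 hb).abs_le hx).trans (by linarith)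
        bga := fun x hx => (norm_gr_le _ _).trans
          ((Bd.norm_fderiv (k := 1) (Bd.lap_sq hO hK0 hb) hx).trans (by linarith))
        bla := fun x hx => ((Bd.lap_lap_sq hO hK0 hb).abs_le hx).trans (by linarith)
        nd := fun x hx hu => by
          rw [ext_of_mem hx] at hu
          rw [gr_congr (h.ext_eventually ht hx)]
          exact hnd (t, x) ⟨ht, hx⟩ hu }
  · -- the equation
    have ht' := Ioo_subset_Icc_self ht
    have h1 := (h.eq (t, x) ⟨ht', hx⟩ ht.1).hasDerivAt (Icc_mem_nhds ht.1 ht.2)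
    have e0 := h.ext_eventually ht' hx
    have e1 : (fun y => ext Ω u t y ^ 2) =ᶠ[𝓝 x] fun y => u t y ^ 2 := by
      filter_upwards [e0] with y hy
      rw [hy]
    have e2 : lap (fun y => ext Ω u t y ^ 2) =ᶠ[𝓝 x] lap fun y => u t y ^ 2 := by
      filter_upwards [e1.eventuallyEq_nhds] with y hy
      exact lap_congr hy
    have e3 : (fun s => ext Ω u s x) =ᶠ[𝓝 t] fun s => u s x := by
      filter_upwards [h.inn ht hx] with s hs
      exact ext_of_mem hs
    refine (h1.congr_of_eventuallyEq e3).congr_deriv ?_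
    rw [e0.eq_of_nhds, lap_congr e2, inner_eq]
    have e4 : ∑ i, pd i (u t) x * pd i (lap fun y => u t y ^ 2) x =
        ∑ i, gr (ext Ω u t) x i * gr (lap fun y => ext Ω u t y ^ 2) x i := by
      refine Finset.sum_congr rfl fun i _ => ?_
      rw [gr_apply, gr_apply, pd_congr e0, pd_congr e2]
    rw [← e4]
  · -- the continuity of `Δv` in time
    have ht' := Ioo_subset_Icc_self ht
    have h1 : (fun s => la (Ω s) (ext Ω u s) x) =ᶠ[𝓝 t] fun s =>
        ∑ i, 2 * (iteratedFDeriv ℝ 1 (u s) x ![EuclideanSpace.single i 1] *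
          iteratedFDeriv ℝ 1 (u s) x ![EuclideanSpace.single i 1] +
          iteratedFDeriv ℝ 0 (u s) x ![] * iteratedFDeriv ℝ 2 (u s) x
            ![EuclideanSpace.single i 1, EuclideanSpace.single i 1]) := by
      filter_upwards [h.inn ht hx, Ioo_mem_nhds ht.1 ht.2] with s hs hs2
      have hs' := Ioo_subset_Icc_self hs2
      have hc : ContDiffAt ℝ 2 (u s) x :=
        ((h.smooth s hs').contDiffAt ((h.isOpen s hs').mem_nhds hs)).of_le (by norm_num)
      have e1 : (fun y => ext Ω u s y ^ 2) =ᶠ[𝓝 x] fun y => u s y ^ 2 := by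
        filter_upwards [h.ext_eventually hs' hs] with y hy
        rw [hy]
      unfold la
      rw [indicator_of_mem hs, lap_congr e1, lap_sq hc]
      refine Finset.sum_congr rfl fun i _ => ?_
      rw [pd_eq_iter, pd_pd_eq_iter hc, iteratedFDeriv_zero_apply]
    refine ContinuousAt.congr ?_ h1.symm
    have c0 : ∀ v : Fin 0 → E N, ContinuousAt (fun s => iteratedFDeriv ℝ 0 (u s) x v) t := fun v =>
      (ContinuousMultilinearMap.apply ℝ (fun _ : Fin 0 => E N) ℝ v).continuous.continuousAt.comp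
        (h.iter_cont ht hx (by norm_num))
    have c1 : ∀ v : Fin 1 → E N, ContinuousAt (fun s => iteratedFDeriv ℝ 1 (u s) x v) t := fun v =>
      (ContinuousMultilinearMap.apply ℝ (fun _ : Fin 1 => E N) ℝ v).continuous.continuousAt.comp
        (h.iter_cont ht hx (by norm_num))
    have c2 : ∀ v : Fin 2 → E N, ContinuousAt (fun s => iteratedFDeriv ℝ 2 (u s) x v) t := fun v =>
      (ContinuousMultilinearMap.apply ℝ (fun _ : Fin 2 => E N) ℝ v).continuous.continuousAt.comp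
        (h.iter_cont ht hx (by norm_num))
    exact tendsto_finsetSum _ fun i _ => (((c1 _).mul (c1 _)).add ((c0 _).mul (c2 _))).const_mul 2
  · -- outside
    have hnb : (t, x) ∉ Qbar T Ω := fun hh => hx hh.2
    have h2 : Tendsto (fun s : ℝ => (s, x)) (𝓝 t) (𝓝 (t, x)) :=
      (continuous_id.prodMk continuous_const).tendsto t
    filter_upwards [h2.eventually (h.compact.isClosed.isOpen_compl.mem_nhds hnb),
      Ioo_mem_nhds ht.1 ht.2] with s hs hs2 hh
    exact hs (Q_subset ⟨Ioo_subset_Icc_self hs2, hh⟩)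

end Pool.Agent.TF
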