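import Pool.Agent.Work.MP_9c254e_an.Energy

/-!
# Poincaré's inequality, Grönwall's inequality and the continuous induction
-/

open scoped ContDiff Topology RealInnerProductSpace
open Set MeasureTheory Filter

namespace Pool.Agent.TF

variable {N : ℕ}

theorem pd_coord (i : Fin N) (x : E N) : pd i (fun y : E N => y i) x = 1 := by
  unfold pd
  have h : HasFDerivAt (fun y : E N => y i) (EuclideanSpace.proj i : E N →L[ℝ] ℝ) x :=
    (EuclideanSpace.proj i : E N →L[ℝ] ℝ).hasFDerivAt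
  rw [h.fderiv]
  simp

/-- Poincaré's inequality -/
theorem poincare (hN : 0 < N) {R : ℝ} (_hR : 0 ≤ R) {w : E N → ℝ} (hw : ContDiff ℝ 1 w)
    (h0 : ∀ x ∉ Metric.closedBall (0 : E N) R, w x = 0) :
    ∫ x, w x ^ 2 ≤ 4 * R ^ 2 * ∫ x, ‖gr w x‖ ^ 2 := by
  set i : Fin N := ⟨0, hN⟩
  have hcs : HasCompactSupport fun x => w x ^ 2 :=
    HasCompactSupport.intro (isCompact_closedBall (0 : E N) R) fun x hx => by rw [h0 x hx]; ring
  have hg0 : ∀ x ∉ Metric.closedBall (0 : E N) R, gr w x = 0 := by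
    intro x hx
    have h1 : w =ᶠ[𝓝 x] fun _ => 0 := by
      filter_upwards [Metric.isClosed_closedBall.isOpen_compl.mem_nhds hx] with y hy
      exact h0 y hy
    rw [gr_congr h1]
    ext j
    simp [pd]
  have hi : ContDiffOn ℝ 1 (fun y : E N => y i) univ :=
    (EuclideanSpace.proj i : E N →L[ℝ] ℝ).contDiff.contDiffOn
  have h1 := ibp isOpen_univ (χ := fun x => w x ^ 2) (hw.pow 2) hcs (subset_univ _) hi i
  simp only [pd_coord, mul_one] at h1
  have i1 : Integrable fun x => w x ^ 2 := (hw.continuous.pow 2).integrable_of_hasCompactSupport hcs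
  have i2 : Integrable fun x => ‖gr w x‖ ^ 2 :=
    integrable_of_ball (R := R) ((continuous_gr hw).norm.pow 2) fun x hx => by
      rw [hg0 x hx, norm_zero]
      ring
  have h2 : -∫ x, pd i (fun y => w y ^ 2) x * x i ≤
      ∫ x, (1 / 2 * w x ^ 2 + 2 * R ^ 2 * ‖gr w x‖ ^ 2) := by
    rw [← integral_neg]
    refine integral_mono ?_ ((i1.const_mul _).add (i2.const_mul _)) fun x => ?_
    · refine Integrable.neg (integrable_of_ball (R := R) ?_ fun x hx => ?_)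
      · exact (continuous_pd (hw.pow 2)).mul (EuclideanSpace.proj i : E N →L[ℝ] ℝ).continuous
      · rw [pd_sq (hw.differentiable (by norm_num) x), h0 x hx]
        ring
    · change -(pd i (fun y => w y ^ 2) x * x i) ≤ 1 / 2 * w x ^ 2 + 2 * R ^ 2 * ‖gr w x‖ ^ 2
      rw [pd_sq (hw.differentiable (by norm_num) x)]
      by_cases hx : x ∈ Metric.closedBall (0 : E N) R
      · have a1 : |x i| ≤ R := by
          have := PiLp.norm_apply_le x i
          rw [Real.norm_eq_abs] at this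
          exact this.trans (mem_closedBall_zero_iff.1 hx)
        have a2 := abs_pd_le w x i
        have a3 : |pd i w x * x i| ≤ ‖gr w x‖ * R := by
          rw [abs_mul]
          exact mul_le_mul a2 a1 (abs_nonneg _) (norm_nonneg _)
        have a4 : (pd i w x * x i) ^ 2 ≤ (‖gr w x‖ * R) ^ 2 := sq_le_sq' (abs_le.1 a3).1
          (abs_le.1 a3).2
        nlinarith [sq_nonneg (w x + 2 * (pd i w x * x i))]
      · rw [h0 x hx]
        have : 0 ≤ R ^ 2 * ‖gr w x‖ ^ 2 := by positivity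
        nlinarith
  have h3 : ∫ x, (1 / 2 * w x ^ 2 + 2 * R ^ 2 * ‖gr w x‖ ^ 2) =
      1 / 2 * (∫ x, w x ^ 2) + 2 * R ^ 2 * ∫ x, ‖gr w x‖ ^ 2 := by
    rw [integral_add (i1.const_mul _) (i2.const_mul _), integral_const_mul, integral_const_mul]
  rw [h3, ← h1] at h2
  linarith

section Main

variable {K κ R T : ℝ} {Ω₁ Ω₂ : ℝ → Set (E N)} {U₁ U₂ : ℝ → E N → ℝ}

theorem integrable_ge {V₁ V₂ : Set (E N)} {u₁ u₂ : E N → ℝ} (h1 : St K κ R V₁ u₁)
    (h2 : St K κ R V₂ u₂) (hK : 0 ≤ K) : Integrable fun x => ‖gr (ee u₁ u₂) x‖ ^ 2 :=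
  integrable_of_ball (R := R) ((continuous_gr (contDiff_ee h1 h2 hK)).norm.pow 2) fun x hx => by
    rw [gr_ee_all h1 h2 hK, h1.gr_sq_ball hK hx, h2.gr_sq_ball hK hx, sub_zero, norm_zero]
    ring

theorem integrable_e2 {V₁ V₂ : Set (E N)} {u₁ u₂ : E N → ℝ} (h1 : St K κ R V₁ u₁)
    (h2 : St K κ R V₂ u₂) (hK : 0 ≤ K) : Integrable fun x => ee u₁ u₂ x ^ 2 :=
  integrable_of_ball (R := R) ((contDiff_ee h1 h2 hK).continuous.pow 2) fun x hx => by
    unfold ee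
    rw [h1.zero x fun hh => hx (h1.sub hh), h2.zero x fun hh => hx (h2.sub hh)]
    ring

theorem e2_le (hN : 0 < N) (hR : 0 ≤ R) {V₁ V₂ : Set (E N)} {u₁ u₂ : E N → ℝ}
    (h1 : St K κ R V₁ u₁) (h2 : St K κ R V₂ u₂) (hK : 0 ≤ K) :
    ∫ x, ee u₁ u₂ x ^ 2 ≤ 4 * R ^ 2 * EE u₁ u₂ :=
  poincare hN hR (contDiff_ee h1 h2 hK) fun x hx => by
    unfold ee
    rw [h1.zero x fun hh => hx (h1.sub hh), h2.zero x fun hh => hx (h2.sub hh)]
    ring

theorem EE_nonneg (u₁ u₂ : E N → ℝ) : 0 ≤ EE u₁ u₂ := integral_nonneg fun _ => sq_nonneg _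

/-- the energy controls the right-hand side -/
theorem II_le_EE (hN : 0 < N) (hR : 0 ≤ R) {ε : ℝ} {V₁ V₂ : Set (E N)} {u₁ u₂ : E N → ℝ}
    (h : Pr K κ R ε V₁ V₂ u₁ u₂) (hc : Cst K κ ε) :
    II V₁ V₂ u₁ u₂ ≤ cC N K κ * (1 + 4 * R ^ 2) * EE u₁ u₂ := by
  have hK := hc.K1
  have hκ := hc.κ0
  have hK0 : 0 ≤ K := by linarith
  have h1 : EO V₁ V₂ u₁ u₂ ≤ EE u₁ u₂ :=
    setIntegral_le_integral (integrable_ge h.s1 h.s2 hK0) (Eventually.of_forall fun _ => sq_nonneg _)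
  have h2 : E2 V₁ V₂ u₁ u₂ ≤ 4 * R ^ 2 * EE u₁ u₂ :=
    (setIntegral_le_integral (integrable_e2 h.s1 h.s2 hK0)
      (Eventually.of_forall fun _ => sq_nonneg _)).trans (e2_le hN hR h.s1 h.s2 hK0)
  have h3 : 0 ≤ cC N K κ := by
    unfold cC cM cA
    positivity
  refine (h.main hc).trans ?_
  rw [mul_assoc]
  refine mul_le_mul_of_nonneg_left ?_ h3
  linarith

theorem EE_lip (h1 : Sol K κ R T Ω₁ U₁) (h2 : Sol K κ R T Ω₂ U₂) (hK : 1 ≤ K)
    (hκ : 0 < κ) (hκ1 : κ ≤ 1) {s t : ℝ} (hs : s ∈ Icc 0 T) (ht : t ∈ Icc 0 T) :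
    |EE (U₁ s) (U₂ s) - EE (U₁ t) (U₂ t)| ≤ 32 * K ^ 4 * vl N R * |s - t| := by
  have hK0 : 0 ≤ K := by linarith
  rw [EE_sub (h1.st t ht) (h2.st t ht) (h1.st s hs) (h2.st s hs) hK hκ hκ1]
  have hb : ∀ x, ‖-((ee (U₁ s) (U₂ s) x - ee (U₁ t) (U₂ t) x) *
      ((la (Ω₁ s) (U₁ s) x - la (Ω₂ s) (U₂ s) x) +
        (la (Ω₁ t) (U₁ t) x - la (Ω₂ t) (U₂ t) x)))‖ ≤
      (Metric.closedBall (0 : E N) R).indicator (fun _ => 32 * K ^ 4 * |s - t|) x := by
    intro x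
    by_cases hx : x ∈ Metric.closedBall (0 : E N) R
    · rw [indicator_of_mem hx]
      have b1 := lip_ee h1 h2 hK hs ht x
      have a1 := (h1.st s hs).abs_la hK0 x
      have a2 := (h2.st s hs).abs_la hK0 x
      have a3 := (h1.st t ht).abs_la hK0 x
      have a4 := (h2.st t ht).abs_la hK0 x
      have a5 := abs_sub (la (Ω₁ s) (U₁ s) x) (la (Ω₂ s) (U₂ s) x)
      have a6 := abs_sub (la (Ω₁ t) (U₁ t) x) (la (Ω₂ t) (U₂ t) x)
      have a7 := abs_add_le (la (Ω₁ s) (U₁ s) x - la (Ω₂ s) (U₂ s) x)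
        (la (Ω₁ t) (U₁ t) x - la (Ω₂ t) (U₂ t) x)
      rw [Real.norm_eq_abs, abs_neg, abs_mul]
      calc _ ≤ 8 * K ^ 3 * |s - t| * (4 * K) :=
            mul_le_mul b1 (by linarith) (abs_nonneg _) (by positivity)
        _ = 32 * K ^ 4 * |s - t| := by ring
    · rw [indicator_of_notMem hx, ee_out h1 h2 hs hx, ee_out h1 h2 ht hx]
      simp
  have hc := (isCompact_closedBall (0 : E N) R).measure_lt_top (μ := volume)
  have hi : Integrable ((Metric.closedBall (0 : E N) R).indicator fun _ =>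
      32 * K ^ 4 * |s - t|) :=
    (integrable_indicator_iff measurableSet_closedBall).2 (integrableOn_const hc.ne)
  have h3 := norm_integral_le_of_norm_le hi (Eventually.of_forall hb)
  rw [integral_indicator measurableSet_closedBall, setIntegral_const, smul_eq_mul,
    Real.norm_eq_abs] at h3
  refine h3.trans (le_of_eq ?_)
  unfold vl Measure.real
  ring

theorem EE_cont (h1 : Sol K κ R T Ω₁ U₁) (h2 : Sol K κ R T Ω₂ U₂) (hK : 1 ≤ K)
    (hκ : 0 < κ) (hκ1 : κ ≤ 1) : ContinuousOn (fun t => EE (U₁ t) (U₂ t)) (Icc 0 T) := by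
  have h0 : 0 ≤ 32 * K ^ 4 * vl N R := mul_nonneg (by positivity) (vl_nonneg N R)
  have h3 : LipschitzOnWith (Real.toNNReal (32 * K ^ 4 * vl N R)) (fun t => EE (U₁ t) (U₂ t))
      (Icc 0 T) := by
    refine LipschitzOnWith.of_dist_le_mul fun s hs t ht => ?_
    rw [Real.dist_eq, Real.dist_eq, Real.coe_toNNReal _ h0]
    exact EE_lip h1 h2 hK hκ hκ1 hs ht
  exact h3.continuousOn

/-- if the energy is zero the two states coincide -/
theorem eq_of_EE (hN : 0 < N) (hR : 0 ≤ R) {V₁ V₂ : Set (E N)} {u₁ u₂ : E N → ℝ}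
    (h1 : St K κ R V₁ u₁) (h2 : St K κ R V₂ u₂) (hK : 0 ≤ K) (h : EE u₁ u₂ ≤ 0) : u₁ = u₂ := by
  have h3 : ∫ x, ee u₁ u₂ x ^ 2 = 0 := by
    refine le_antisymm ((e2_le hN hR h1 h2 hK).trans ?_) (integral_nonneg fun _ => sq_nonneg _)
    have : 0 ≤ 4 * R ^ 2 := by positivity
    nlinarith
  have h4 := (integral_eq_zero_iff_of_nonneg (fun x => sq_nonneg (ee u₁ u₂ x))
    (integrable_e2 h1 h2 hK)).1 h3
  have h5 : (fun x => ee u₁ u₂ x ^ 2) = fun _ => 0 :=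
    (Continuous.ae_eq_iff_eq volume ((contDiff_ee h1 h2 hK).continuous.pow 2)
      continuous_const).1 h4
  funext x
  have h6 := congrFun h5 x
  have h7 : ee u₁ u₂ x = 0 := by
    simpa using h6
  unfold ee at h7
  exact (sq_eq_sq₀ (h1.nonneg x) (h2.nonneg x)).1 (by linarith)

/-- **the local step** -/
theorem local_step (hN : 0 < N) (hR : 0 ≤ R) (h1 : Sol K κ R T Ω₁ U₁) (h2 : Sol K κ R T Ω₂ U₂)
    {ε : ℝ} (hc : Cst K κ ε) {a b : ℝ} (ha : 0 ≤ a) (hb : b ≤ T)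
    (hp : ∀ t ∈ Ioo a b, Pr K κ R ε (Ω₁ t) (Ω₂ t) (U₁ t) (U₂ t)) (h0 : U₁ a = U₂ a) :
    ∀ t ∈ Icc a b, U₁ t = U₂ t := by
  have hK := hc.K1
  have hκ := hc.κ0
  have hκ1 := hc.κ1
  have hsub : Icc a b ⊆ Icc 0 T := Icc_subset_Icc ha hb
  set C := 2 * (cC N K κ * (1 + 4 * R ^ 2)) with hC
  set g : ℝ → ℝ := fun t => Real.exp (-(C * t)) * EE (U₁ t) (U₂ t) with hg
  have hgc : ContinuousOn g (Icc a b) :=
    (Real.continuous_exp.comp (continuous_const.mul continuous_id).neg).continuousOn.mul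
      ((EE_cont h1 h2 hK hκ hκ1).mono hsub)
  have hgd : ∀ t ∈ Ioo a b, HasDerivAt g (Real.exp (-(C * t)) * -C * EE (U₁ t) (U₂ t) +
      Real.exp (-(C * t)) * (2 * II (Ω₁ t) (Ω₂ t) (U₁ t) (U₂ t))) t := by
    intro t ht
    have e1 : HasDerivAt (fun t : ℝ => -(C * t)) (-C) t := by
      have h := ((hasDerivAt_id t).const_mul C).fun_neg
      rw [mul_one] at h
      exact h
    exact e1.exp.mul (hasDerivAt_EE h1 h2 hK hκ hκ1 ⟨ha.trans_lt ht.1, ht.2.trans_le hb⟩)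
  have hanti : AntitoneOn g (Icc a b) := by
    refine antitoneOn_of_deriv_nonpos (convex_Icc a b) hgc ?_ ?_
    · rw [interior_Icc]
      exact fun t ht => (hgd t ht).differentiableAt.differentiableWithinAt
    · rw [interior_Icc]
      intro t ht
      rw [(hgd t ht).deriv]
      have e1 := II_le_EE hN hR (hp t ht) hc
      have e2 : 0 ≤ Real.exp (-(C * t)) := (Real.exp_pos _).le
      have e3 : Real.exp (-(C * t)) * (2 * II (Ω₁ t) (Ω₂ t) (U₁ t) (U₂ t)) ≤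
          Real.exp (-(C * t)) * (C * EE (U₁ t) (U₂ t)) := by
        refine mul_le_mul_of_nonneg_left ?_ e2
        rw [hC]
        linarith
      linarith
  intro t ht
  have hab : a ≤ b := ht.1.trans ht.2
  have h3 := hanti ⟨le_rfl, hab⟩ ht ht.1
  have h4 : EE (U₁ a) (U₂ a) = 0 := by
    have e : ee (U₁ a) (U₂ a) = fun _ => 0 := by
      funext x
      unfold ee
      rw [h0]
      ring
    unfold EE
    rw [e]
    have : ∀ x : E N, gr (fun _ : E N => (0 : ℝ)) x = 0 := by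
      intro x
      ext j
      simp [pd]
    simp [this]
  simp only [hg] at h3
  rw [h4, mul_zero] at h3
  have h5 : EE (U₁ t) (U₂ t) ≤ 0 := by
    by_contra hh
    have := mul_pos (Real.exp_pos (-(C * t))) (not_le.1 hh)
    linarith
  exact eq_of_EE hN hR (h1.st t (hsub ht)) (h2.st t (hsub ht)) (by linarith) h5

/-- **Uniqueness for solutions in normal form.** -/
theorem unique_sol (hN : 0 < N) (hR : 0 ≤ R) (h1 : Sol K κ R T Ω₁ U₁)
    (h2 : Sol K κ R T Ω₂ U₂) (hK : 1 ≤ K) (hκ : 0 < κ) (hκ1 : κ ≤ 1)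
    (hclose : ∀ t₀ ∈ Icc 0 T, U₁ t₀ = U₂ t₀ → ∀ ε > 0, ∃ η > 0, ∀ t ∈ Icc 0 T, |t - t₀| < η →
      (∀ x, |U₁ t x - U₂ t x| ≤ ε) ∧ ∀ x ∈ Ω₁ t ∩ Ω₂ t, ‖gr (U₁ t) x - gr (U₂ t) x‖ ≤ ε)
    (h0 : U₁ 0 = U₂ 0) : ∀ t ∈ Icc 0 T, U₁ t = U₂ t := by
  set S : Set ℝ := {t | U₁ t = U₂ t} with hS
  have hcl : IsClosed (S ∩ Icc 0 T) := by
    have e : S ∩ Icc 0 T = ⋂ x : E N, {t ∈ Icc 0 T | U₁ t x = U₂ t x} ∩ Icc 0 T := by
      ext t
      simp only [hS, mem_inter_iff, mem_ofPred_eq, mem_iInter]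
      constructor
      · rintro ⟨e1, e2⟩ x
        exact ⟨⟨e2, congrFun e1 x⟩, e2⟩
      · intro hh
        exact ⟨funext fun x => (hh x).1.2, (hh 0).2⟩
    rw [e]
    refine isClosed_iInter fun x => ?_
    have c1 : ContinuousOn (fun r => U₁ r x) (Icc 0 T) :=
      h1.cont.comp (continuous_id.prodMk continuous_const).continuousOn
        fun r hr => ⟨hr, mem_univ _⟩
    have c2 : ContinuousOn (fun r => U₂ r x) (Icc 0 T) :=
      h2.cont.comp (continuous_id.prodMk continuous_const).continuousOn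
        fun r hr => ⟨hr, mem_univ _⟩
    have c3 : IsClosed {t ∈ Icc 0 T | U₁ t x - U₂ t x ∈ ({0} : Set ℝ)} :=
      (c1.sub c2).preimage_isClosed_of_isClosed isClosed_Icc isClosed_singleton
    have c4 : {t ∈ Icc 0 T | U₁ t x = U₂ t x} ∩ Icc 0 T =
        {t ∈ Icc 0 T | U₁ t x - U₂ t x ∈ ({0} : Set ℝ)} := by
      ext t
      simp only [mem_inter_iff, mem_ofPred_eq, mem_singleton_iff, sub_eq_zero]
      tauto
    rw [c4]
    exact c3
  have key := hcl.Icc_subset_of_forall_mem_nhdsWithin (a := 0) (b := T) h0 ?_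
  · exact fun t ht => key ht
  · rintro t₀ ⟨ht₀, ht₁⟩
    have hε : 0 < κ ^ 4 / (48 * K ^ 3) := by positivity
    have hc : Cst K κ (κ ^ 4 / (48 * K ^ 3)) := ⟨hK, hκ, hκ1, hε, by
      rw [mul_div_cancel₀ _ (by positivity)]⟩
    obtain ⟨η, hη, hη2⟩ := hclose t₀ ⟨ht₁.1, ht₁.2.le⟩ ht₀ _ hε
    have hb : t₀ < min T (t₀ + η) := lt_min ht₁.2 (by linarith)
    have h3 := local_step hN hR h1 h2 hc (a := t₀) (b := min T (t₀ + η)) ht₁.1 (min_le_left _ _)
      (fun t ht => ?_) ht₀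
    · filter_upwards [Ioo_mem_nhdsGT hb] with t ht
      exact h3 t ⟨ht.1.le, ht.2.le⟩
    · have ht' : t ∈ Icc 0 T := ⟨ht₁.1.trans ht.1.le, ht.2.le.trans (min_le_left _ _)⟩
      have ht2 : |t - t₀| < η := by
        rw [abs_of_pos (by linarith [ht.1])]
        linarith [ht.2.trans_le (min_le_right T (t₀ + η))]
      obtain ⟨q1, q2⟩ := hη2 t ht' ht2
      exact ⟨h1.st t ht', h2.st t ht', q1, q2⟩

end Main

end Pool.Agent.TF
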