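import Pool.Agent.Work.MP_9c254e_an.Cut

/-!
# The boundary layer and the limit `δ → 0`
-/

open scoped ContDiff Topology RealInnerProductSpace
open Set MeasureTheory Filter

namespace Pool.Agent.TF

variable {N : ℕ} {K κ R ε : ℝ} {U₁ U₂ : Set (E N)} {u₁ u₂ : E N → ℝ}

theorem int_mono {O : Set (E N)} (hO : IsOpen O) (hR : O ⊆ Metric.closedBall 0 R)
    {f g : E N → ℝ} (hf : BC O f) (hg : BC O g) (h : ∀ x ∈ O, f x ≤ g x) :
    ∫ x in O, f x ≤ ∫ x in O, g x :=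
  setIntegral_mono_on (hf.integrableOn hO hR) (hg.integrableOn hO hR) hO.measurableSet h

theorem int_nonneg {O : Set (E N)} (hO : IsOpen O) {f : E N → ℝ} (h : ∀ x ∈ O, 0 ≤ f x) :
    0 ≤ ∫ x in O, f x := setIntegral_nonneg hO.measurableSet h

theorem abs_int_le {O : Set (E N)} (hO : IsOpen O) (hR : O ⊆ Metric.closedBall 0 R)
    {f g : E N → ℝ} (hf : BC O f) (hg : BC O g) (h : ∀ x ∈ O, |f x| ≤ g x) :
    |∫ x in O, f x| ≤ ∫ x in O, g x := by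
  refine abs_le.2 ⟨?_, int_mono hO hR hf hg fun x hx => (le_abs_self _).trans (h x hx)⟩
  rw [← integral_neg]
  exact int_mono hO hR hg.neg hf fun x hx => by linarith [(abs_le.1 (h x hx)).1]

theorem int_add {O : Set (E N)} (hO : IsOpen O) (hR : O ⊆ Metric.closedBall 0 R)
    {f g : E N → ℝ} (hf : BC O f) (hg : BC O g) :
    ∫ x in O, (f x + g x) = (∫ x in O, f x) + ∫ x in O, g x :=
  integral_add (hf.integrableOn hO hR) (hg.integrableOn hO hR)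

theorem int_sub {O : Set (E N)} (hO : IsOpen O) (hR : O ⊆ Metric.closedBall 0 R)
    {f g : E N → ℝ} (hf : BC O f) (hg : BC O g) :
    ∫ x in O, (f x - g x) = (∫ x in O, f x) - ∫ x in O, g x :=
  integral_sub (hf.integrableOn hO hR) (hg.integrableOn hO hR)

theorem int_const_mul {O : Set (E N)} (c : ℝ) (f : E N → ℝ) :
    ∫ x in O, c * f x = c * ∫ x in O, f x := integral_const_mul _ _

/-- the scalar product of `∇χ` and `v` -/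
noncomputable def Gam (δ : ℝ) (u₁ u₂ : E N → ℝ) (v : E N) (x : E N) : ℝ :=
  mu δ u₁ x * cut δ u₂ x * ⟪gr u₁ x, v⟫ + mu δ u₂ x * cut δ u₁ x * ⟪gr u₂ x, v⟫

theorem Gam_ge {δ : ℝ} (hδ : 0 < δ) {v x : E N} {a : ℝ} (h1 : a ≤ ⟪gr u₁ x, v⟫)
    (h2 : a ≤ ⟪gr u₂ x, v⟫) : lam δ u₁ u₂ x * a ≤ Gam δ u₁ u₂ v x := by
  have h3 : 0 ≤ mu δ u₁ x * cut δ u₂ x := mul_nonneg (mu_nonneg hδ _ _) (cut_nonneg _ _ _)
  have h4 : 0 ≤ mu δ u₂ x * cut δ u₁ x := mul_nonneg (mu_nonneg hδ _ _) (cut_nonneg _ _ _)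
  have h5 := mul_le_mul_of_nonneg_left h1 h3
  have h6 := mul_le_mul_of_nonneg_left h2 h4
  unfold lam Gam
  linarith

theorem Gam_lam_zero {δ : ℝ} (hδ : 0 < δ) {v x : E N} (h : lam δ u₁ u₂ x = 0) :
    Gam δ u₁ u₂ v x = 0 := by
  have h3 : 0 ≤ mu δ u₁ x * cut δ u₂ x := mul_nonneg (mu_nonneg hδ _ _) (cut_nonneg _ _ _)
  have h4 : 0 ≤ mu δ u₂ x * cut δ u₁ x := mul_nonneg (mu_nonneg hδ _ _) (cut_nonneg _ _ _)
  unfold lam at h
  have h5 : mu δ u₁ x * cut δ u₂ x = 0 := by linarith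
  have h6 : mu δ u₂ x * cut δ u₁ x = 0 := by linarith
  unfold Gam
  rw [h5, h6]
  ring

theorem Pr.layer (h : Pr K κ R ε U₁ U₂ u₁ u₂) {δ : ℝ} (hδ : 0 < δ) {x : E N}
    (hx : lam δ u₁ u₂ x ≠ 0) : x ∈ U₁ ∩ U₂ ∧ (u₁ x ≤ 2 * δ ∨ u₂ x ≤ 2 * δ) ∧
      u₁ x ≤ 2 * δ + ε ∧ u₂ x ≤ 2 * δ + ε := by
  have h0 := abs_le.1 (h.cu x)
  have h1 : mu δ u₁ x * cut δ u₂ x ≠ 0 ∨ mu δ u₂ x * cut δ u₁ x ≠ 0 := by
    by_contra hh
    rw [not_or, not_not, not_not] at hh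
    exact hx (by rw [lam, hh.1, hh.2, add_zero])
  rcases h1 with h1 | h1
  · obtain ⟨h2, h3⟩ := mu_ne hδ (left_ne_zero_of_mul h1)
    have h4 : δ < u₂ x := by
      by_contra hh
      exact right_ne_zero_of_mul h1 (cut_eq_zero hδ (not_lt.1 hh))
    exact ⟨⟨h.s1.mem_of_pos (by linarith), h.s2.mem_of_pos (by linarith)⟩, Or.inl h3,
      by linarith [h.s1.nonneg x, abs_nonneg (u₁ x - u₂ x), h.cu x], by linarith⟩
  · obtain ⟨h2, h3⟩ := mu_ne hδ (left_ne_zero_of_mul h1)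
    have h4 : δ < u₁ x := by
      by_contra hh
      exact right_ne_zero_of_mul h1 (cut_eq_zero hδ (not_lt.1 hh))
    exact ⟨⟨h.s1.mem_of_pos (by linarith), h.s2.mem_of_pos (by linarith)⟩, Or.inr h3,
      by linarith, by linarith [abs_nonneg (u₁ x - u₂ x), h.cu x]⟩

theorem Pr.abs_Gam_le (h : Pr K κ R ε U₁ U₂ u₁ u₂) {δ : ℝ} (hδ : 0 < δ) {v x : E N}
    (hx : x ∈ U₁ ∩ U₂) : |Gam δ u₁ u₂ v x| ≤ K * (lam δ u₁ u₂ x * ‖v‖) := by
  have h3 : 0 ≤ mu δ u₁ x * cut δ u₂ x := mul_nonneg (mu_nonneg hδ _ _) (cut_nonneg _ _ _)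
  have h4 : 0 ≤ mu δ u₂ x * cut δ u₁ x := mul_nonneg (mu_nonneg hδ _ _) (cut_nonneg _ _ _)
  have h5 : |⟪gr u₁ x, v⟫| ≤ K * ‖v‖ := (abs_real_inner_le_norm _ _).trans
    (mul_le_mul_of_nonneg_right (h.s1.bg x hx.1) (norm_nonneg _))
  have h6 : |⟪gr u₂ x, v⟫| ≤ K * ‖v‖ := (abs_real_inner_le_norm _ _).trans
    (mul_le_mul_of_nonneg_right (h.s2.bg x hx.2) (norm_nonneg _))
  unfold Gam lam
  refine (abs_add_le _ _).trans ?_
  rw [abs_mul (mu δ u₁ x * cut δ u₂ x), abs_mul (mu δ u₂ x * cut δ u₁ x), abs_of_nonneg h3,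
    abs_of_nonneg h4]
  have h7 := mul_le_mul_of_nonneg_left h5 h3
  have h8 := mul_le_mul_of_nonneg_left h6 h4
  linarith

theorem Pr.bc_Gam (h : Pr K κ R ε U₁ U₂ u₁ u₂) {δ : ℝ} (hδ : 0 < δ) {G : E N → E N}
    (hG : BC (U₁ ∩ U₂) G) : BC (U₁ ∩ U₂) fun x => Gam δ u₁ u₂ (G x) x := by
  have h1 := (h.s1.bc_gr).mono (inter_subset_left (t := U₂))
  have h2 := (h.s2.bc_gr).mono (inter_subset_right (s := U₁))
  exact (((bc_mu h.s1 hδ _).mul (bc_cut h.s2 hδ _)).mul (h1.inner hG)).add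
    (((bc_mu h.s2 hδ _).mul (bc_cut h.s1 hδ _)).mul (h2.inner hG))

theorem Pr.ibp' (h : Pr K κ R ε U₁ U₂ u₁ u₂) {δ : ℝ} (hδ : 0 < δ) {G : E N → E N}
    (hG : ∀ i, ContDiffOn ℝ 1 (fun x => G x i) (U₁ ∩ U₂)) :
    ∫ x in U₁ ∩ U₂, chi δ u₁ u₂ x * dv G x = -∫ x in U₁ ∩ U₂, Gam δ u₁ u₂ (G x) x :=
  h.ibp hδ hG

/-- the mass of the layer -/
theorem Pr.mass (h : Pr K κ R ε U₁ U₂ u₁ u₂) (hc : Cst K κ ε) {δ : ℝ} (hδ : 0 < δ)
    (hδκ : 2 * δ + ε < κ) :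
    κ ^ 2 / 2 * ∫ x in U₁ ∩ U₂, lam δ u₁ u₂ x ≤ K * vl N R := by
  have hO := h.isOpen
  have hR := h.sub
  have hG : ∀ i, ContDiffOn ℝ 1 (fun x => gr u₁ x i) (U₁ ∩ U₂) := fun i =>
    (h.s1.smooth_gr i).mono inter_subset_left
  have h1 := h.ibp' hδ hG
  have h2 : κ ^ 2 / 2 * ∫ x in U₁ ∩ U₂, lam δ u₁ u₂ x ≤
      ∫ x in U₁ ∩ U₂, Gam δ u₁ u₂ (gr u₁ x) x := by
    rw [← integral_const_mul]
    refine setIntegral_mono_on ?_ ?_ hO.measurableSet fun x hx => ?_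
    · exact ((BC.const (κ ^ 2 / 2)).mul (h.bc_lam hδ _)).integrableOn hO hR
    · exact (h.bc_Gam hδ (h.s1.bc_gr.mono inter_subset_left)).integrableOn hO hR
    · rw [mul_comm]
      rcases eq_or_ne (lam δ u₁ u₂ x) 0 with h0 | h0
      · rw [h0, Gam_lam_zero hδ h0, zero_mul]
      · obtain ⟨-, -, h3, h4⟩ := h.layer hδ h0
        obtain ⟨h5, h6⟩ := h.inner_ge hc hx (by linarith)
        refine Gam_ge hδ ?_ ?_
        · rw [real_inner_self_eq_norm_sq]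
          have h7 : κ ^ 2 ≤ ‖gr u₁ x‖ ^ 2 := pow_le_pow_left₀ hc.κ0.le h6 2
          nlinarith [sq_nonneg κ]
        · rwa [real_inner_comm]
  have h3 : |∫ x in U₁ ∩ U₂, chi δ u₁ u₂ x * dv (gr u₁) x| ≤ K * vl N R := by
    refine abs_integral_le hR (fun x hx => ?_) (by linarith [hc.K1])
    rw [abs_mul, abs_of_nonneg (chi_nonneg _ _ _ _), dv_gr]
    have h4 := chi_le_one δ u₁ u₂ x
    have h5 := h.s1.bl x hx.1
    have h6 := chi_nonneg δ u₁ u₂ x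
    have h7 := abs_nonneg (lap u₁ x)
    nlinarith
  have h4 := (abs_le.1 h3).1
  linarith

/-- the limit `δ → 0` -/
theorem Pr.tendsto_chi (h : Pr K κ R ε U₁ U₂ u₁ u₂) {f : E N → ℝ} (hf : BC (U₁ ∩ U₂) f) :
    Tendsto (fun δ => ∫ x in U₁ ∩ U₂, chi δ u₁ u₂ x * f x) (𝓝[>] 0)
      (𝓝 (∫ x in U₁ ∩ U₂, f x)) := by
  have hO := h.isOpen
  refine tendsto_integral_filter_of_dominated_convergence (fun x => ‖f x‖) ?_ ?_ ?_ ?_
  · filter_upwards [self_mem_nhdsWithin] with δ hδ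
    exact (((h.bc_chi hδ _).mul hf).integrableOn hO h.sub).aestronglyMeasurable
  · refine Eventually.of_forall fun δ => Eventually.of_forall fun x => ?_
    rw [norm_mul, Real.norm_eq_abs, abs_of_nonneg (chi_nonneg _ _ _ _)]
    exact mul_le_of_le_one_left (norm_nonneg _) (chi_le_one _ _ _ _)
  · exact (hf.norm.integrableOn hO h.sub)
  · refine (ae_restrict_iff' hO.measurableSet).2 (Eventually.of_forall fun x hx => ?_)
    have h1 := h.s1.pos x hx.1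
    have h2 := h.s2.pos x hx.2
    refine tendsto_const_nhds.congr' ?_
    have h3 : ∀ᶠ δ in 𝓝[>] (0 : ℝ), δ < min (u₁ x) (u₂ x) / 2 :=
      mem_nhdsWithin_of_mem_nhds (Iio_mem_nhds (by positivity))
    filter_upwards [h3, self_mem_nhdsWithin] with δ hδ hδ0
    have h4 := min_le_left (u₁ x) (u₂ x)
    have h5 := min_le_right (u₁ x) (u₂ x)
    unfold chi
    rw [cut_eq_one hδ0 (by linarith), cut_eq_one hδ0 (by linarith)]
    ring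

/-- the small values of `δ` -/
theorem Cst.eventually (hc : Cst K κ ε) : ∀ᶠ δ in 𝓝[>] (0 : ℝ), 0 < δ ∧ 2 * δ + ε < κ ∧ δ ≤ 1 := by
  have h3 : (0 : ℝ) < (κ - ε) / 2 := by
    have := hc.ε_le.1
    have := hc.ε0
    linarith
  filter_upwards [mem_nhdsWithin_of_mem_nhds (Iio_mem_nhds h3),
    mem_nhdsWithin_of_mem_nhds (Iio_mem_nhds one_pos), self_mem_nhdsWithin] with δ hδ hδ1 hδ0
  have : δ < (κ - ε) / 2 := hδ
  exact ⟨hδ0, by linarith, le_of_lt hδ1⟩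

theorem tendsto_mul_const (c : ℝ) : Tendsto (fun δ : ℝ => δ * c) (𝓝[>] 0) (𝓝 0) := by
  have : Tendsto (fun δ : ℝ => δ * c) (𝓝 0) (𝓝 (0 * c)) :=
    (continuous_id.mul continuous_const).tendsto _
  rw [zero_mul] at this
  exact this.mono_left nhdsWithin_le_nhds

theorem Pr.abs_int_Gam_le (h : Pr K κ R ε U₁ U₂ u₁ u₂) {δ : ℝ} (hδ : 0 < δ)
    {G : E N → E N} (hG : BC (U₁ ∩ U₂) G) {D : E N → ℝ} (hD : BC (U₁ ∩ U₂) D)
    (hGD : ∀ x ∈ U₁ ∩ U₂, lam δ u₁ u₂ x ≠ 0 → ‖G x‖ ≤ D x) (hK : 0 ≤ K) :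
    |∫ x in U₁ ∩ U₂, Gam δ u₁ u₂ (G x) x| ≤ K * ∫ x in U₁ ∩ U₂, lam δ u₁ u₂ x * D x := by
  rw [← integral_const_mul]
  refine abs_int_le h.isOpen h.sub (h.bc_Gam hδ hG) ((BC.const K).mul ((h.bc_lam hδ _).mul hD))
    fun x hx => (h.abs_Gam_le hδ hx).trans (mul_le_mul_of_nonneg_left ?_ hK)
  rcases eq_or_ne (lam δ u₁ u₂ x) 0 with h0 | h0
  · rw [h0, zero_mul, zero_mul]
  · exact mul_le_mul_of_nonneg_left (hGD x hx h0) (lam_nonneg hδ _ _ _)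

/-- the bound for the mass of the layer -/
noncomputable def mB (N : ℕ) (K κ R : ℝ) : ℝ := 2 * (K * vl N R) / κ ^ 2

theorem Pr.mass' (h : Pr K κ R ε U₁ U₂ u₁ u₂) (hc : Cst K κ ε) {δ : ℝ} (hδ : 0 < δ)
    (hδκ : 2 * δ + ε < κ) : ∫ x in U₁ ∩ U₂, lam δ u₁ u₂ x ≤ mB N K κ R := by
  have h1 := h.mass hc hδ hδκ
  have h2 := pow_pos hc.κ0 2
  unfold mB
  rw [le_div_iff₀ h2]
  linarith

theorem mB_nonneg (hc : Cst K κ ε) : 0 ≤ mB N K κ R :=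
  div_nonneg (mul_nonneg zero_le_two (mul_nonneg (by linarith [hc.K1]) (vl_nonneg _ _)))
    (sq_nonneg _)

/-- fields which vanish at the boundary -/
theorem Pr.int_dv_zero (h : Pr K κ R ε U₁ U₂ u₁ u₂) (hc : Cst K κ ε) {G : E N → E N}
    (hG : ∀ i, ContDiffOn ℝ 1 (fun x => G x i) (U₁ ∩ U₂)) (hGb : BC (U₁ ∩ U₂) G)
    (hdv : BC (U₁ ∩ U₂) (dv G)) {C : ℝ} (hC0 : 0 ≤ C)
    (hC : ∀ x ∈ U₁ ∩ U₂, ‖G x‖ ≤ C * min (u₁ x) (u₂ x)) : ∫ x in U₁ ∩ U₂, dv G x = 0 := by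
  have hK : 0 ≤ K := by linarith [hc.K1]
  refine tendsto_nhds_unique (h.tendsto_chi hdv) ?_
  rw [tendsto_zero_iff_abs_tendsto_zero]
  refine squeeze_zero' (Eventually.of_forall fun δ => abs_nonneg _) ?_
    (tendsto_mul_const (2 * K * C * mB N K κ R))
  filter_upwards [hc.eventually] with δ hh
  obtain ⟨hδ, hδκ, -⟩ := hh
  change |∫ x in U₁ ∩ U₂, chi δ u₁ u₂ x * dv G x| ≤ _
  rw [h.ibp' hδ hG, abs_neg]
  refine (h.abs_int_Gam_le hδ hGb (D := fun _ => C * (2 * δ)) (BC.const _) (fun x hx h0 => ?_)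
    hK).trans ?_
  · refine (hC x hx).trans (mul_le_mul_of_nonneg_left ?_ hC0)
    rcases (h.layer hδ h0).2.1 with h1 | h1
    · exact (min_le_left _ _).trans h1
    · exact (min_le_right _ _).trans h1
  · rw [integral_mul_const]
    have h5 := h.mass' hc hδ hδκ
    have h6 : 0 ≤ K * (C * (2 * δ)) := by positivity
    calc K * ((∫ x in U₁ ∩ U₂, lam δ u₁ u₂ x) * (C * (2 * δ)))
        = K * (C * (2 * δ)) * ∫ x in U₁ ∩ U₂, lam δ u₁ u₂ x := by ring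
      _ ≤ K * (C * (2 * δ)) * mB N K κ R := mul_le_mul_of_nonneg_left h5 h6
      _ = δ * (2 * K * C * mB N K κ R) := by ring

end Pool.Agent.TF
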