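import Pool.Agent.Work.MP_9c254e_an.Sol

/-!
# The square of a state is of class `C^1`; Green's formula
-/

open scoped ContDiff Topology RealInnerProductSpace
open Set MeasureTheory Filter

namespace Pool.Agent.TF

variable {N : ℕ}

/-! ### a Lipschitz bound for nonnegative functions -/

theorem lip_half {φ : ℝ → ℝ} {a b C : ℝ} (hab : a ≤ b) (hφ : ContinuousOn φ (Icc a b))
    (h0 : ∀ s ∈ Icc a b, 0 ≤ φ s)
    (hd : ∀ s ∈ Ioo a b, 0 < φ s → ∃ d, HasDerivAt φ d s ∧ |d| ≤ C) (hC : 0 ≤ C) :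
    φ b - φ a ≤ C * (b - a) := by
  by_contra hcon
  rw [not_le] at hcon
  set S : Set ℝ := {s ∈ Icc a b | φ s ≤ φ a + C * (s - a)} with hS
  have hSc : IsClosed S :=
    isClosed_Icc.isClosed_le hφ
      ((continuous_const.add (continuous_const.mul (continuous_id.sub continuous_const))).continuousOn)
  have hSb : BddAbove S := ⟨b, fun s hs => hs.1.2⟩
  have haS : a ∈ S := ⟨⟨le_rfl, hab⟩, by simp⟩
  have hcS : sSup S ∈ S := hSc.csSup_mem ⟨a, haS⟩ hSb
  set c := sSup S with hc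
  have hcb : c < b := by
    refine lt_of_le_of_ne hcS.1.2 fun hh => ?_
    have := hcS.2
    rw [hh] at this
    linarith
  have hpos : ∀ s ∈ Ioo c b, 0 < φ s := by
    intro s hs
    have h1 : s ∉ S := fun h => not_lt.2 (le_csSup hSb h) hs.1
    have h2 : s ∈ Icc a b := ⟨hcS.1.1.trans hs.1.le, hs.2.le⟩
    have h3 : ¬ φ s ≤ φ a + C * (s - a) := fun h => h1 ⟨h2, h⟩
    have h4 : 0 ≤ C * (s - a) := mul_nonneg hC (by linarith [h2.1])
    linarith [not_le.1 h3, h0 a ⟨le_rfl, hab⟩]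
  have hd' : ∀ s ∈ Ioo c b, HasDerivAt φ (deriv φ s) s ∧ |deriv φ s| ≤ C := by
    intro s hs
    obtain ⟨d, h1, h2⟩ := hd s ⟨hcS.1.1.trans_lt hs.1, hs.2⟩ (hpos s hs)
    rw [h1.deriv]
    exact ⟨h1, h2⟩
  obtain ⟨ξ, hξ, hξ2⟩ := exists_hasDerivAt_eq_slope φ (deriv φ) hcb
    (hφ.mono (Icc_subset_Icc_left hcS.1.1)) fun s hs => (hd' s hs).1
  have h1 := (abs_le.1 (hd' ξ hξ).2).2
  rw [hξ2, div_le_iff₀ (by linarith)] at h1
  have h2 := hcS.2
  linarith

theorem lip_abs {φ : ℝ → ℝ} {a b C : ℝ} (hab : a ≤ b) (hφ : ContinuousOn φ (Icc a b))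
    (h0 : ∀ s ∈ Icc a b, 0 ≤ φ s)
    (hd : ∀ s ∈ Ioo a b, 0 < φ s → ∃ d, HasDerivAt φ d s ∧ |d| ≤ C) (hC : 0 ≤ C) :
    |φ b - φ a| ≤ C * (b - a) := by
  refine abs_le.2 ⟨?_, lip_half hab hφ h0 hd hC⟩
  have hm : ∀ s ∈ Icc a b, a + b - s ∈ Icc a b := fun s hs => ⟨by linarith [hs.2], by linarith [hs.1]⟩
  have h1 := lip_half (φ := fun s => φ (a + b - s)) hab
    (hφ.comp (continuous_const.sub continuous_id).continuousOn hm) (fun s hs => h0 _ (hm s hs))
    (fun s hs hp => ?_) hC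
  · simp only [add_sub_cancel_right, add_sub_cancel_left] at h1
    linarith
  · obtain ⟨d, h2, h3⟩ := hd (a + b - s) ⟨by linarith [hs.2], by linarith [hs.1]⟩ hp
    refine ⟨d * -1, ?_, by rwa [mul_neg_one, abs_neg]⟩
    have h4 : HasDerivAt (fun s : ℝ => a + b - s) (-1) s := (hasDerivAt_id s).const_sub (a + b)
    exact h2.comp s h4

section St

variable {K κ R : ℝ} {U : Set (E N)} {u : E N → ℝ}

theorem St.lip (h : St K κ R U u) (hK : 0 ≤ K) (x y : E N) : |u x - u y| ≤ K * ‖x - y‖ := by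
  set φ : ℝ → ℝ := fun s => u (y + s • (x - y)) with hφ
  have hl : ∀ s : ℝ, HasDerivAt (fun s : ℝ => y + s • (x - y)) (x - y) s := fun s => by
    have := ((hasDerivAt_id s).smul_const (x - y)).const_add y
    simpa using this
  have hc : Continuous fun s : ℝ => y + s • (x - y) :=
    continuous_const.add (continuous_id.smul continuous_const)
  have h1 := lip_abs (φ := φ) (C := K * ‖x - y‖) zero_le_one (h.cont.comp hc).continuousOn
    (fun s _ => h.nonneg _) (fun s _ hs => ?_) (by positivity)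
  · simp only [hφ, one_smul, zero_smul, add_zero, sub_zero, mul_one] at h1
    rwa [add_sub_cancel] at h1
  · have hm : y + s • (x - y) ∈ U := h.mem_of_pos hs
    refine ⟨_, (h.diffAt hm).hasFDerivAt.comp_hasDerivAt s (hl s), ?_⟩
    rw [fderiv_eq_inner]
    exact (abs_real_inner_le_norm _ _).trans (mul_le_mul_of_nonneg_right (h.bg _ hm)
      (norm_nonneg _))

theorem St.hasFDerivAt_sq_out (h : St K κ R U u) (hK : 0 ≤ K) {x : E N} (hx : x ∉ U) :
    HasFDerivAt (fun y => u y ^ 2) (0 : E N →L[ℝ] ℝ) x := by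
  rw [hasFDerivAt_iff_isLittleO]
  have h0 := h.zero x hx
  have h1 : (fun y => u y ^ 2 - u x ^ 2 - (0 : E N →L[ℝ] ℝ) (y - x)) =O[𝓝 x]
      fun y => ‖y - x‖ ^ 2 := by
    refine Asymptotics.IsBigO.of_bound (K ^ 2) (Eventually.of_forall fun y => ?_)
    have h2 := h.lip hK y x
    rw [h0, sub_zero] at h2
    rw [h0]
    simp only [zero_apply, sub_zero, ne_eq, OfNat.ofNat_ne_zero,
      not_false_eq_true, zero_pow, norm_pow, Real.norm_eq_abs, abs_norm]
    have := pow_le_pow_left₀ (abs_nonneg _) h2 2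
    rwa [mul_pow] at this
  refine h1.trans_isLittleO ?_
  have h3 : (fun y : E N => ‖y - x‖ ^ 2) =o[𝓝 x] fun y => ‖y - x‖ := by
    have h4 : (fun y : E N => ‖y - x‖) =o[𝓝 x] fun _ => (1 : ℝ) := by
      rw [Asymptotics.isLittleO_one_iff]
      have : Tendsto (fun y : E N => ‖y - x‖) (𝓝 x) (𝓝 ‖x - x‖) :=
        ((continuous_id.sub continuous_const).norm).tendsto x
      simpa using this
    have h5 := h4.mul_isBigO (Asymptotics.isBigO_refl (fun y : E N => ‖y - x‖) (𝓝 x))
    refine (h5.congr_left fun y => (sq _).symm).congr_right fun y => one_mul _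
  exact h3.of_norm_right

theorem St.gr_sq_out (h : St K κ R U u) (hK : 0 ≤ K) {x : E N} (hx : x ∉ U) :
    gr (fun y => u y ^ 2) x = 0 := by
  ext i
  change pd i (fun y => u y ^ 2) x = 0
  unfold pd
  rw [(h.hasFDerivAt_sq_out hK hx).fderiv]
  simp

theorem St.norm_fderiv_sq (h : St K κ R U u) (hK : 0 ≤ K) (x : E N) :
    ‖fderiv ℝ (fun y => u y ^ 2) x‖ ≤ 2 * K * u x := by
  by_cases hx : x ∈ U
  · refine (norm_fderiv_le _ _).trans ?_
    rw [h.gr_sq hx, norm_smul, Real.norm_eq_abs,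
      abs_of_nonneg (mul_nonneg zero_le_two (h.nonneg x))]
    have := mul_le_mul_of_nonneg_left (h.bg x hx) (mul_nonneg zero_le_two (h.nonneg x))
    linarith
  · rw [(h.hasFDerivAt_sq_out hK hx).fderiv, norm_zero, h.zero x hx, mul_zero]

theorem St.contDiff_sq (h : St K κ R U u) (hK : 0 ≤ K) : ContDiff ℝ 1 fun y => u y ^ 2 := by
  rw [contDiff_one_iff_fderiv]
  constructor
  · intro x
    by_cases hx : x ∈ U
    · exact (h.diffAt hx).fun_pow 2
    · exact (h.hasFDerivAt_sq_out hK hx).differentiableAt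
  · rw [continuous_iff_continuousAt]
    intro x
    by_cases hx : x ∈ U
    · have h1 : ContDiffAt ℝ 1 (fun y => u y ^ 2) x :=
        ((h.contDiffAt hx).pow 2).of_le (by norm_num)
      exact (h1.fderiv_right (m := 0) (by norm_num)).continuousAt
    · have h0 : fderiv ℝ (fun y => u y ^ 2) x = 0 := (h.hasFDerivAt_sq_out hK hx).fderiv
      unfold ContinuousAt
      rw [h0, tendsto_zero_iff_norm_tendsto_zero]
      have h1 : Tendsto (fun y => 2 * K * u y) (𝓝 x) (𝓝 (2 * K * u x)) :=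
        (continuous_const.mul h.cont).tendsto x
      rw [h.zero x hx, mul_zero] at h1
      exact squeeze_zero (fun y => norm_nonneg _) (fun y => h.norm_fderiv_sq hK y) h1

theorem St.integrable_la (h : St K κ R U u) : Integrable (la U u) :=
  (h.bc_A.integrableOn h.isOpen h.sub).integrable_indicator h.isOpen.measurableSet

theorem St.la_out {x : E N} (hx : x ∉ U) : la U u x = 0 := indicator_of_notMem hx _

theorem St.abs_la (h : St K κ R U u) (hK : 0 ≤ K) (x : E N) : |la U u x| ≤ K := by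
  by_cases hx : x ∈ U
  · unfold la
    rw [indicator_of_mem hx]
    exact h.ba x hx
  · rw [St.la_out hx, abs_zero]
    exact hK

/-- the bound of a continuous function on the large ball -/
theorem bc_of_continuous {F : Type*} [NormedAddCommGroup F] [NormedSpace ℝ F]
    (hU : U ⊆ Metric.closedBall 0 R) {w : E N → F} (hw : Continuous w) : BC U w := by
  obtain ⟨C, hC⟩ := (isCompact_closedBall (0 : E N) R).exists_bound_of_continuousOn
    hw.continuousOn
  exact ⟨hw.continuousOn, C, fun x hx => hC x (hU hx)⟩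

theorem continuous_gr {w : E N → ℝ} (hw : ContDiff ℝ 1 w) : Continuous (gr w) :=
  (PiLp.continuous_toLp 2 _).comp (continuous_pi fun _ => continuous_pd hw)

theorem St.int_dv_zero (h : St K κ R U u) (hK : 1 ≤ K) (hκ : 0 < κ) (hκ1 : κ ≤ 1)
    {G : E N → E N} (hG : ∀ i, ContDiffOn ℝ 1 (fun x => G x i) U) (hGb : BC U G)
    (hdv : BC U (dv G)) {C : ℝ} (hC0 : 0 ≤ C) (hC : ∀ x ∈ U, ‖G x‖ ≤ C * u x) :
    ∫ x in U, dv G x = 0 := by
  have hε : 0 < κ ^ 4 / (48 * K ^ 3) := by positivity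
  have hc : Cst K κ (κ ^ 4 / (48 * K ^ 3)) := ⟨hK, hκ, hκ1, hε, by
    rw [mul_div_cancel₀ _ (by positivity)]⟩
  have hp : Pr K κ R (κ ^ 4 / (48 * K ^ 3)) U U u u :=
    ⟨h, h, fun x => by rw [sub_self, abs_zero]; exact hε.le, fun x _ => by
      rw [sub_self, norm_zero]
      exact hε.le⟩
  have h1 := hp.int_dv_zero hc (G := G) (C := C) (by rwa [inter_self]) (by rwa [inter_self])
    (by rwa [inter_self]) hC0 (by
      rw [inter_self]
      intro x hx
      rw [min_self]
      exact hC x hx)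
  rwa [inter_self] at h1

/-- Green's formula -/
theorem St.green (h : St K κ R U u) (hK : 1 ≤ K) (hκ : 0 < κ) (hκ1 : κ ≤ 1)
    {w : E N → ℝ} (hw : ContDiff ℝ 1 w) :
    ∫ x, ⟪gr w x, gr (fun y => u y ^ 2) x⟫ = -∫ x, w x * la U u x := by
  have hK0 : 0 ≤ K := by linarith
  have bw : BC U w := bc_of_continuous h.sub hw.continuous
  have bgw : BC U (gr w) := bc_of_continuous h.sub (continuous_gr hw)
  have bgv : BC U (gr fun y => u y ^ 2) :=
    bc_of_continuous h.sub (continuous_gr (h.contDiff_sq hK0))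
  have hsv : ∀ i, ContDiffOn ℝ 1 (fun x => gr (fun y => u y ^ 2) x i) U := fun i =>
    (contDiffOn_pd (i := i) (k := 3) h.isOpen h.smooth_sq).of_le (by norm_num)
  have hdv : ∀ x ∈ U, dv (fun y => w y • gr (fun z => u z ^ 2) y) x =
      ⟪gr w x, gr (fun y => u y ^ 2) x⟫ + w x * lap (fun z => u z ^ 2) x := fun x hx =>
    dv_smul (hw.differentiable (by norm_num) x) fun i => diffAt_of_c1 h.isOpen (hsv i) hx
  have hb1 : BC U fun x => ⟪gr w x, gr (fun y => u y ^ 2) x⟫ := bgw.inner bgv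
  have hb2 : BC U fun x => w x * lap (fun z => u z ^ 2) x := bw.mul h.bc_A
  obtain ⟨C, hC⟩ := (isCompact_closedBall (0 : E N) R).exists_bound_of_continuousOn
    hw.continuous.continuousOn
  have h1 := h.int_dv_zero hK hκ hκ1 (G := fun y => w y • gr (fun z => u z ^ 2) y)
    (fun i => hw.contDiffOn.mul (hsv i)) (bw.smul bgv)
    ((hb1.add hb2).congr fun x hx => hdv x hx) (C := |C| * (2 * K)) (by positivity)
    fun x hx => by
      rw [norm_smul]
      have h2 : ‖gr (fun z => u z ^ 2) x‖ ≤ 2 * K * u x :=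
        (norm_gr_le _ _).trans (h.norm_fderiv_sq hK0 x)
      have h3 : ‖w x‖ ≤ |C| := (hC x (h.sub hx)).trans (le_abs_self _)
      calc ‖w x‖ * ‖gr (fun z => u z ^ 2) x‖ ≤ |C| * (2 * K * u x) := by
            have := h.nonneg x
            gcongr
        _ = |C| * (2 * K) * u x := by ring
  rw [setIntegral_congr_fun h.isOpen.measurableSet hdv, int_add h.isOpen h.sub hb1 hb2] at h1
  have h2 : ∫ x in U, ⟪gr w x, gr (fun y => u y ^ 2) x⟫ =
      ∫ x, ⟪gr w x, gr (fun y => u y ^ 2) x⟫ :=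
    setIntegral_eq_integral_of_forall_compl_eq_zero fun x hx => by
      rw [h.gr_sq_out hK0 hx, inner_zero_right]
  have h3 : ∫ x in U, w x * lap (fun z => u z ^ 2) x = ∫ x, w x * la U u x := by
    rw [← integral_indicator h.isOpen.measurableSet]
    refine integral_congr_ae (Eventually.of_forall fun x => ?_)
    by_cases hx : x ∈ U
    · simp only [la, indicator_of_mem hx]
    · simp only [la, indicator_of_notMem hx, mul_zero]
  rw [← h2, ← h3]
  linarith

end St

end Pool.Agent.TF
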