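import Pool.Agent.Work.MP_9c254e_an.Gron
import Pool.Agent.Work.MP_9c254e_an.Classical
import Pool.Agent.Work.MP_9c254e_an.Close

/-!
# Uniqueness
-/

open scoped ContDiff Topology RealInnerProductSpace
open Set MeasureTheory Filter

namespace Pool.Agent.TF

variable {N : ℕ}

theorem IsSolution.unique {T : ℝ} {Ω₁ Ω₂ : ℝ → Set (E N)} {u₁ u₂ : ℝ → E N → ℝ} (hN : 0 < N)
    (h₁ : IsSolution T Ω₁ u₁) (h₂ : IsSolution T Ω₂ u₂) (h0 : ext Ω₁ u₁ 0 = ext Ω₂ u₂ 0) :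
    ∀ t ∈ Icc 0 T, ext Ω₁ u₁ t = ext Ω₂ u₂ t := by
  obtain ⟨K₁, κ₁, R₁, hK₁, hκ₁, hκ₁', hs₁⟩ := h₁.exists_sol
  obtain ⟨K₂, κ₂, R₂, hK₂, hκ₂, hκ₂', hs₂⟩ := h₂.exists_sol
  have a1 := hs₁.mono (le_max_left K₁ K₂) (min_le_left κ₁ κ₂) (le_max_left R₁ (max R₂ 0))
  have a2 := hs₂.mono (le_max_right K₁ K₂) (min_le_right κ₁ κ₂)
    ((le_max_left R₂ 0).trans (le_max_right R₁ _))
  exact unique_sol hN ((le_max_right R₂ 0).trans (le_max_right R₁ _)) a1 a2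
    (hK₁.trans (le_max_left _ _)) (lt_min hκ₁ hκ₂) ((min_le_left _ _).trans hκ₁')
    (fun t₀ ht₀ ha ε hε => close h₁ h₂ ht₀ ha hε) h0

section Restrict

variable {T T' : ℝ} {Ω : ℝ → Set (E N)} {u : ℝ → E N → ℝ}

theorem Q_restrict (hT : T' ≤ T) {p : ℝ × E N} (hp : p ∈ Q T' Ω) : p ∈ Q T Ω :=
  ⟨⟨hp.1.1, hp.1.2.trans hT⟩, hp.2⟩

theorem Qbar_restrict (hT : T' ≤ T) {p : ℝ × E N} (hp : p ∈ Qbar T' Ω) : p ∈ Qbar T Ω :=
  ⟨⟨hp.1.1, hp.1.2.trans hT⟩, hp.2⟩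

theorem IsClassical.restrict (h : IsClassical T Ω u) (hT : T' ≤ T) : IsClassical T' Ω u := by
  have hn : ∀ p ∈ Qbar T' Ω, p ∉ Q T' Ω → p ∉ Q T Ω := fun p hp hq hh => hq ⟨hp.1, hh.2⟩
  obtain ⟨D, hD1, hD2, hD3⟩ := h.deriv
  exact
    { isOpen := fun t ht => h.isOpen t ⟨ht.1, ht.2.trans hT⟩
      openQ := fun p hp => by
        filter_upwards [h.openQ p (Q_restrict hT hp)] with q hq hq2
        exact ⟨hq2, (hq ⟨hq2.1, hq2.2.trans hT⟩).2⟩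
      compact := by
        have h1 : Qbar T' Ω = Qbar T Ω ∩ {p | p.1 ∈ Icc 0 T'} := by
          ext p
          exact ⟨fun hp => ⟨Qbar_restrict hT hp, hp.1⟩, fun hp => ⟨hp.2, hp.1.2⟩⟩
        rw [h1]
        exact h.compact.inter_right (isClosed_Icc.preimage continuous_fst)
      null := fun t ht => h.null t ⟨ht.1, ht.2.trans hT⟩
      cont := h.cont.mono fun p hp => Qbar_restrict hT hp
      pos := fun p hp => h.pos p (Q_restrict hT hp)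
      zero := fun p hp hq => h.zero p (Qbar_restrict hT hp) (hn p hp hq)
      smooth := fun t ht => h.smooth t ⟨ht.1, ht.2.trans hT⟩
      deriv := ⟨D, fun k hk => (hD1 k hk).mono fun p hp => ⟨Qbar_restrict hT hp.1, hp.2⟩,
        fun k hk p hp => hD2 k hk p (Q_restrict hT hp),
        fun p hp hq => hD3 p (Qbar_restrict hT hp) (hn p hp hq)⟩
      eq := fun p hp hp0 => (h.eq p (Q_restrict hT hp) hp0).mono (Icc_subset_Icc_right hT) }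

theorem RegularAtZero.restrict (h : RegularAtZero T Ω u) (hT : T' ≤ T) :
    RegularAtZero T' Ω u := by
  have hn : ∀ p ∈ Qbar T' Ω, p ∉ Q T' Ω → p ∉ Q T Ω := fun p hp hq hh => hq ⟨hp.1, hh.2⟩
  obtain ⟨K, hK⟩ := h.bound
  obtain ⟨G, hG1, hG2, hG3⟩ := h.grad
  exact
    { smooth := h.smooth
      bound := ⟨K, fun k hk p hp => hK k hk p (Q_restrict hT hp)⟩
      grad := ⟨G, hG1.mono fun p hp => Qbar_restrict hT hp, fun p hp => hG2 p (Q_restrict hT hp),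
        fun p hp hq => hG3 p (Qbar_restrict hT hp) (hn p hp hq)⟩ }

end Restrict

/-- **Uniqueness.** -/
theorem IsClassical.unique (hN : 0 < N) {T₁ T₂ : ℝ} {Ω₁ Ω₂ : ℝ → Set (E N)}
    {u₁ u₂ : ℝ → E N → ℝ} (h₁ : IsClassical T₁ Ω₁ u₁) (h₂ : IsClassical T₂ Ω₂ u₂) {t₀ : ℝ}
    (h0 : 0 ≤ t₀) (hr : t₀ = 0 → RegularAtZero T₁ Ω₁ u₁ ∧ RegularAtZero T₂ Ω₂ u₂)
    (hΩ : Ω₁ t₀ = Ω₂ t₀) (hu : ∀ x ∈ Ω₁ t₀, u₁ t₀ x = u₂ t₀ x) :
    ∀ t ∈ Icc t₀ (min T₁ T₂), Ω₁ t = Ω₂ t ∧ ∀ x ∈ Ω₁ t, u₁ t x = u₂ t x := by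
  have a1 := h₁.restrict (min_le_left T₁ T₂)
  have a2 := h₂.restrict (min_le_right T₁ T₂)
  have he : ext Ω₁ u₁ t₀ = ext Ω₂ u₂ t₀ := by
    funext x
    by_cases hx : x ∈ Ω₁ t₀
    · rw [ext_of_mem hx, ext_of_mem (hΩ ▸ hx), hu x hx]
    · rw [ext_of_notMem hx, ext_of_notMem (hΩ ▸ hx)]
  -- the two extensions coincide
  have key : ∀ t ∈ Icc t₀ (min T₁ T₂), ext Ω₁ u₁ t = ext Ω₂ u₂ t := by
    rcases eq_or_lt_of_le h0 with hz | hz
    · obtain ⟨r1, r2⟩ := hr hz.symm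
      rw [← hz] at he ⊢
      exact IsSolution.unique hN (a1.toIsSolution (r1.restrict (min_le_left T₁ T₂)))
        (a2.toIsSolution (r2.restrict (min_le_right T₁ T₂))) he
    · intro t ht
      have h3 := IsSolution.unique hN (a1.shift hz) (a2.shift hz)
        (by
          change (Ω₁ (0 + t₀)).indicator (u₁ (0 + t₀)) = (Ω₂ (0 + t₀)).indicator (u₂ (0 + t₀))
          rw [zero_add]
          exact he) (t - t₀) ⟨by linarith [ht.1], by linarith [ht.2]⟩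
      change (Ω₁ (t - t₀ + t₀)).indicator (u₁ (t - t₀ + t₀)) =
        (Ω₂ (t - t₀ + t₀)).indicator (u₂ (t - t₀ + t₀)) at h3
      rw [sub_add_cancel] at h3
      exact h3
  intro t ht
  have ht' : t ∈ Icc 0 (min T₁ T₂) := ⟨h0.trans ht.1, ht.2⟩
  have h3 := key t ht
  have hsub : ∀ x, x ∈ Ω₁ t ↔ x ∈ Ω₂ t := by
    intro x
    constructor
    · intro hx
      by_contra hx2
      have h4 := congrFun h3 x
      rw [ext_of_mem hx, ext_of_notMem hx2] at h4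
      exact (a1.pos (t, x) ⟨ht', hx⟩).ne' h4
    · intro hx
      by_contra hx2
      have h4 := congrFun h3 x
      rw [ext_of_mem hx, ext_of_notMem hx2] at h4
      exact (a2.pos (t, x) ⟨ht', hx⟩).ne h4
  refine ⟨Set.ext hsub, fun x hx => ?_⟩
  have h4 := congrFun h3 x
  rwa [ext_of_mem hx, ext_of_mem ((hsub x).1 hx)] at h4

end Pool.Agent.TF
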