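import Pool.Agent.Work.MP_9c254e_an.Layer

/-!
# The Rellich field; smoothness of the fields
-/

open scoped ContDiff Topology RealInnerProductSpace
open Set MeasureTheory Filter

namespace Pool.Agent.TF

variable {N : ℕ}

theorem diffAt_pd {f : E N → ℝ} {x : E N} (hf : ContDiffAt ℝ 2 f x) (i : Fin N) :
    DifferentiableAt ℝ (pd i f) x := by
  have hd : DifferentiableAt ℝ (fderiv ℝ f) x :=
    (hf.fderiv_right (m := 1) (by norm_num)).differentiableAt (by norm_num)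
  exact hd.clm_apply (differentiableAt_const _)

theorem inner_gr (f h : E N → ℝ) :
    (fun y => ⟪gr f y, gr h y⟫) = fun y => ∑ j, pd j f y * pd j h y := by
  funext y
  rw [inner_eq]
  rfl

theorem diffAt_inner {f h : E N → ℝ} {x : E N} (hf : ContDiffAt ℝ 2 f x)
    (hh : ContDiffAt ℝ 2 h x) : DifferentiableAt ℝ (fun y => ⟪gr f y, gr h y⟫) x := by
  rw [inner_gr]
  exact DifferentiableAt.fun_sum fun j _ => (diffAt_pd hf j).fun_mul (diffAt_pd hh j)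

theorem pd_inner {f h : E N → ℝ} {x : E N} (hf : ContDiffAt ℝ 2 f x)
    (hh : ContDiffAt ℝ 2 h x) (i : Fin N) : pd i (fun y => ⟪gr f y, gr h y⟫) x =
      ∑ j, (pd i (pd j f) x * pd j h x + pd j f x * pd i (pd j h) x) := by
  rw [inner_gr, pd_sum fun j _ => (diffAt_pd hf j).fun_mul (diffAt_pd hh j)]
  exact Finset.sum_congr rfl fun j _ => pd_mul (diffAt_pd hf j) (diffAt_pd hh j)

/-- the Rellich field -/
noncomputable def rell (f h : E N → ℝ) (y : E N) : E N :=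
  (2 * ⟪gr f y, gr h y⟫) • gr h y - ⟪gr h y, gr h y⟫ • gr f y

theorem rellich {f h : E N → ℝ} {x : E N} (hf : ContDiffAt ℝ 2 f x) (hh : ContDiffAt ℝ 2 h x) :
    dv (rell f h) x = 2 * ⟪gr f x, gr h x⟫ * lap h x +
      2 * (∑ i, ∑ j, pd i (pd j f) x * (pd i h x * pd j h x)) -
      ⟪gr h x, gr h x⟫ * lap f x := by
  have h1 : ∀ i, pd i (fun y => rell f h y i) x =
      2 * pd i (fun y => ⟪gr f y, gr h y⟫) x * pd i h x +
        2 * ⟪gr f x, gr h x⟫ * pd i (pd i h) x -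
      (pd i (fun y => ⟪gr h y, gr h y⟫) x * pd i f x + ⟪gr h x, gr h x⟫ * pd i (pd i f) x) := by
    intro i
    have e : (fun y => rell f h y i) = fun y => (2 * ⟪gr f y, gr h y⟫) * pd i h y -
        ⟪gr h y, gr h y⟫ * pd i f y := rfl
    rw [e, pd_sub (((diffAt_inner hf hh).const_mul 2).fun_mul (diffAt_pd hh i))
      ((diffAt_inner hh hh).fun_mul (diffAt_pd hf i)),
      pd_mul ((diffAt_inner hf hh).const_mul 2) (diffAt_pd hh i),
      pd_mul (diffAt_inner hh hh) (diffAt_pd hf i), pd_const_mul 2 (diffAt_inner hf hh)]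
  have h2 : dv (rell f h) x = ∑ i, pd i (fun y => rell f h y i) x := rfl
  rw [h2]
  simp only [h1, pd_inner hf hh, pd_inner hh hh]
  rw [Finset.sum_sub_distrib, Finset.sum_add_distrib, Finset.sum_add_distrib, ← Finset.mul_sum,
    ← Finset.mul_sum]
  have h3 : ∑ i, 2 * (∑ j, (pd i (pd j f) x * pd j h x + pd j f x * pd i (pd j h) x)) * pd i h x =
      2 * (∑ i, ∑ j, pd i (pd j f) x * (pd i h x * pd j h x)) +
        2 * ∑ i, ∑ j, pd j f x * pd i (pd j h) x * pd i h x := by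
    rw [Finset.mul_sum, Finset.mul_sum, ← Finset.sum_add_distrib]
    refine Finset.sum_congr rfl fun i _ => ?_
    rw [Finset.sum_add_distrib, mul_add, add_mul, Finset.mul_sum, Finset.mul_sum, Finset.mul_sum,
      Finset.mul_sum, Finset.sum_mul, Finset.sum_mul]
    congr 1
    · exact Finset.sum_congr rfl fun j _ => by ring
    · exact Finset.sum_congr rfl fun j _ => by ring
  have h4 : ∑ i, (∑ j, (pd i (pd j h) x * pd j h x + pd j h x * pd i (pd j h) x)) * pd i f x =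
      2 * ∑ i, ∑ j, pd j f x * pd i (pd j h) x * pd i h x := by
    have h5 : ∑ i, ∑ j, pd j f x * pd i (pd j h) x * pd i h x =
        ∑ i, ∑ j, pd i f x * pd i (pd j h) x * pd j h x := by
      rw [Finset.sum_comm]
      refine Finset.sum_congr rfl fun i _ => Finset.sum_congr rfl fun j _ => ?_
      rw [pd_comm hh]
    rw [h5, Finset.mul_sum]
    refine Finset.sum_congr rfl fun i _ => ?_
    rw [Finset.sum_mul, Finset.mul_sum]
    exact Finset.sum_congr rfl fun j _ => by ring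
  have h6 : ∑ i, pd i (pd i h) x = lap h x := rfl
  have h7 : ∑ i, pd i (pd i f) x = lap f x := rfl
  rw [h3, h4, h6, h7]
  ring

/-! ### smoothness -/

theorem smooth_lap {U : Set (E N)} (hU : IsOpen U) {k : ℕ} {f : E N → ℝ}
    (hf : ContDiffOn ℝ (k + 2 : ℕ) f U) : ContDiffOn ℝ k (lap f) U := by
  refine ContDiffOn.sum fun i _ => ?_
  exact contDiffOn_pd hU (contDiffOn_pd (k := k + 1) hU hf)

section St

variable {K κ R : ℝ} {U : Set (E N)} {u : E N → ℝ}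

theorem St.smooth_sq (h : St K κ R U u) : ContDiffOn ℝ 4 (fun y => u y ^ 2) U := h.smooth.pow 2

theorem St.smooth_A (h : St K κ R U u) : ContDiffOn ℝ 2 (lap fun y => u y ^ 2) U :=
  smooth_lap (k := 2) h.isOpen h.smooth_sq

theorem St.smooth_gA (h : St K κ R U u) (i : Fin N) :
    ContDiffOn ℝ 1 (pd i (lap fun y => u y ^ 2)) U :=
  contDiffOn_pd (k := 1) h.isOpen h.smooth_A

theorem St.bc_A (h : St K κ R U u) : BC U (lap fun y => u y ^ 2) :=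
  ⟨h.smooth_A.continuousOn, K, h.ba⟩

theorem St.bc_gA (h : St K κ R U u) : BC U (gr (lap fun y => u y ^ 2)) :=
  BC.of_comps fun i => ⟨(h.smooth_gA i).continuousOn, K, fun x hx =>
    (abs_pd_le _ x i).trans (h.bga x hx)⟩

theorem St.bc_lA (h : St K κ R U u) : BC U (lap (lap fun y => u y ^ 2)) :=
  ⟨(smooth_lap (k := 0) h.isOpen h.smooth_A).continuousOn, K, h.bla⟩

theorem St.gr_sq (h : St K κ R U u) {x : E N} (hx : x ∈ U) :
    gr (fun y => u y ^ 2) x = (2 * u x) • gr u x := TF.gr_sq (h.diffAt hx)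

end St

/-! ### the functions of the pair -/

section Pr

variable {K κ R ε : ℝ} {U₁ U₂ : Set (E N)} {u₁ u₂ : E N → ℝ}

/-- `v₁ - v₂` -/
noncomputable def ee (u₁ u₂ : E N → ℝ) (y : E N) : ℝ := u₁ y ^ 2 - u₂ y ^ 2

/-- `Δ v₁ - Δ v₂` -/
noncomputable def bb (u₁ u₂ : E N → ℝ) (y : E N) : ℝ :=
  lap (fun z => u₁ z ^ 2) y - lap (fun z => u₂ z ^ 2) y

/-- `v ∇Δv` -/
noncomputable def fl (u : E N → ℝ) (y : E N) : E N := (u y ^ 2) • gr (lap fun z => u z ^ 2) y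

/-- `v₁ ∇Δv₁ - v₂ ∇Δv₂` -/
noncomputable def ff (u₁ u₂ : E N → ℝ) (y : E N) : E N := fl u₁ y - fl u₂ y

/-- `u₁ u₂ / (u₁ + u₂)` -/
noncomputable def rr (u₁ u₂ : E N → ℝ) (y : E N) : ℝ := u₁ y * u₂ y / (u₁ y + u₂ y)

theorem Pr.smooth_ee (h : Pr K κ R ε U₁ U₂ u₁ u₂) : ContDiffOn ℝ 4 (ee u₁ u₂) (U₁ ∩ U₂) :=
  (h.s1.smooth_sq.mono inter_subset_left).sub (h.s2.smooth_sq.mono inter_subset_right)

theorem Pr.smooth_bb (h : Pr K κ R ε U₁ U₂ u₁ u₂) : ContDiffOn ℝ 2 (bb u₁ u₂) (U₁ ∩ U₂) :=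
  (h.s1.smooth_A.mono inter_subset_left).sub (h.s2.smooth_A.mono inter_subset_right)

theorem Pr.p_pos (h : Pr K κ R ε U₁ U₂ u₁ u₂) {x : E N} (hx : x ∈ U₁ ∩ U₂) :
    0 < u₁ x + u₂ x := add_pos (h.s1.pos x hx.1) (h.s2.pos x hx.2)

theorem Pr.smooth_rr (h : Pr K κ R ε U₁ U₂ u₁ u₂) : ContDiffOn ℝ 4 (rr u₁ u₂) (U₁ ∩ U₂) := by
  have h1 := h.s1.smooth.mono (inter_subset_left (t := U₂))
  have h2 := h.s2.smooth.mono (inter_subset_right (s := U₁))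
  exact (h1.mul h2).div (h1.add h2) fun x hx => (h.p_pos hx).ne'

theorem Pr.gr_ee (h : Pr K κ R ε U₁ U₂ u₁ u₂) {x : E N} (hx : x ∈ U₁ ∩ U₂) :
    gr (ee u₁ u₂) x = (2 * u₁ x) • gr u₁ x - (2 * u₂ x) • gr u₂ x := by
  have h1 := ((h.s1.diffAt hx.1).fun_pow 2)
  have h2 := ((h.s2.diffAt hx.2).fun_pow 2)
  have h3 : gr (ee u₁ u₂) x = gr (fun y => u₁ y ^ 2 - u₂ y ^ 2) x := rfl
  rw [h3, gr_sub h1 h2, h.s1.gr_sq hx.1, h.s2.gr_sq hx.2]

theorem Pr.lap_ee (h : Pr K κ R ε U₁ U₂ u₁ u₂) {x : E N} (hx : x ∈ U₁ ∩ U₂) :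
    lap (ee u₁ u₂) x = bb u₁ u₂ x := by
  have hO := h.isOpen.mem_nhds hx
  have hs1 : ∀ y ∈ U₁ ∩ U₂, DifferentiableAt ℝ (fun z => u₁ z ^ 2) y := fun y hy =>
    (h.s1.diffAt hy.1).fun_pow 2
  have hs2 : ∀ y ∈ U₁ ∩ U₂, DifferentiableAt ℝ (fun z => u₂ z ^ 2) y := fun y hy =>
    (h.s2.diffAt hy.2).fun_pow 2
  have c1 : ContDiffAt ℝ 2 (fun z => u₁ z ^ 2) x :=
    ((h.s1.smooth_sq.contDiffAt (h.s1.isOpen.mem_nhds hx.1)).of_le (by norm_num))
  have c2 : ContDiffAt ℝ 2 (fun z => u₂ z ^ 2) x :=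
    ((h.s2.smooth_sq.contDiffAt (h.s2.isOpen.mem_nhds hx.2)).of_le (by norm_num))
  unfold bb lap
  rw [← Finset.sum_sub_distrib]
  refine Finset.sum_congr rfl fun i _ => ?_
  have h1 : pd i (ee u₁ u₂) =ᶠ[𝓝 x] fun y => pd i (fun z => u₁ z ^ 2) y -
      pd i (fun z => u₂ z ^ 2) y := by
    filter_upwards [hO] with y hy
    exact pd_sub (hs1 y hy) (hs2 y hy)
  rw [pd_congr h1]
  exact pd_sub (diffAt_pd c1 i) (diffAt_pd c2 i)

theorem Pr.gr_bb (h : Pr K κ R ε U₁ U₂ u₁ u₂) {x : E N} (hx : x ∈ U₁ ∩ U₂) :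
    gr (bb u₁ u₂) x = gr (lap fun z => u₁ z ^ 2) x - gr (lap fun z => u₂ z ^ 2) x := by
  have h1 : DifferentiableAt ℝ (lap fun z => u₁ z ^ 2) x :=
    (h.s1.smooth_A.contDiffAt (h.s1.isOpen.mem_nhds hx.1)).differentiableAt (by norm_num)
  have h2 : DifferentiableAt ℝ (lap fun z => u₂ z ^ 2) x :=
    (h.s2.smooth_A.contDiffAt (h.s2.isOpen.mem_nhds hx.2)).differentiableAt (by norm_num)
  exact gr_sub h1 h2

theorem Pr.gr_rr (h : Pr K κ R ε U₁ U₂ u₁ u₂) {x : E N} (hx : x ∈ U₁ ∩ U₂) :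
    gr (rr u₁ u₂) x = (u₂ x ^ 2 / (u₁ x + u₂ x) ^ 2) • gr u₁ x +
      (u₁ x ^ 2 / (u₁ x + u₂ x) ^ 2) • gr u₂ x := by
  have hp := h.p_pos hx
  have d1 := h.s1.diffAt hx.1
  have d2 := h.s2.diffAt hx.2
  have dr : DifferentiableAt ℝ (rr u₁ u₂) x :=
    (h.smooth_rr.contDiffAt (h.isOpen.mem_nhds hx)).differentiableAt (by norm_num)
  have h1 : (fun y => rr u₁ u₂ y * (u₁ y + u₂ y)) =ᶠ[𝓝 x] fun y => u₁ y * u₂ y := by
    filter_upwards [h.isOpen.mem_nhds hx] with y hy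
    unfold rr
    exact div_mul_cancel₀ _ (h.p_pos hy).ne'
  ext i
  have h2 := pd_congr (i := i) h1
  rw [pd_mul dr (d1.fun_add d2), pd_mul d1 d2] at h2
  have h3 : pd i (fun y => u₁ y + u₂ y) x = pd i u₁ x + pd i u₂ x := pd_add d1 d2
  rw [h3] at h2
  change pd i (rr u₁ u₂) x = u₂ x ^ 2 / (u₁ x + u₂ x) ^ 2 * pd i u₁ x +
    u₁ x ^ 2 / (u₁ x + u₂ x) ^ 2 * pd i u₂ x
  have h4 : rr u₁ u₂ x = u₁ x * u₂ x / (u₁ x + u₂ x) := rfl
  rw [h4] at h2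
  have h5 : pd i (rr u₁ u₂) x = (pd i u₁ x * u₂ x + u₁ x * pd i u₂ x -
      u₁ x * u₂ x / (u₁ x + u₂ x) * (pd i u₁ x + pd i u₂ x)) / (u₁ x + u₂ x) := by
    rw [eq_div_iff hp.ne']
    linarith
  rw [h5]
  field_simp
  ring

end Pr

end Pool.Agent.TF
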