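import Pool.Agent.Work.MP_9c254e_an.StatE

/-!
# The normal form of a solution: extension by zero, uniform constants
-/

open scoped ContDiff Topology RealInnerProductSpace
open Set MeasureTheory Filter

namespace Pool.Agent.TF

variable {N : ℕ}

/-- extension by zero -/
noncomputable def ext (Ω : ℝ → Set (E N)) (u : ℝ → E N → ℝ) (t : ℝ) : E N → ℝ :=
  (Ω t).indicator (u t)

/-- the normal form of a solution -/
structure Sol (K κ R T : ℝ) (Ω : ℝ → Set (E N)) (U : ℝ → E N → ℝ) : Prop where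
  st : ∀ t ∈ Icc 0 T, St K κ R (Ω t) (U t)
  cont : ContinuousOn (fun p : ℝ × E N => U p.1 p.2) (Icc 0 T ×ˢ univ)
  der : ∀ t ∈ Ioo 0 T, ∀ x ∈ Ω t, HasDerivAt (fun s => U s x)
    (-(1 / 2 * U t x * lap (lap fun y => U t y ^ 2) x +
      ⟪gr (U t) x, gr (lap fun y => U t y ^ 2) x⟫ + 1 / 2)) t
  inn : ∀ t ∈ Ioo 0 T, ∀ x ∈ Ω t, ∀ᶠ s in 𝓝 t, x ∈ Ω s
  la_cont : ∀ t ∈ Ioo 0 T, ∀ x ∈ Ω t, ContinuousAt (fun s => la (Ω s) (U s) x) t
  out : ∀ t ∈ Ioo 0 T, ∀ x ∉ closure (Ω t), ∀ᶠ s in 𝓝 t, x ∉ Ω s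
  null : ∀ t ∈ Icc 0 T, volume (frontier (Ω t)) = 0

theorem St.mono {K κ R K' κ' R' : ℝ} {U : Set (E N)} {u : E N → ℝ} (h : St K κ R U u)
    (hK : K ≤ K') (hκ : κ' ≤ κ) (hR : R ≤ R') : St K' κ' R' U u where
  isOpen := h.isOpen
  sub := h.sub.trans (Metric.closedBall_subset_closedBall hR)
  cont := h.cont
  pos := h.pos
  zero := h.zero
  smooth := h.smooth
  bu x hx := (h.bu x hx).trans hK
  bg x hx := (h.bg x hx).trans hK
  bh x hx i j := (h.bh x hx i j).trans hK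
  bl x hx := (h.bl x hx).trans hK
  ba x hx := (h.ba x hx).trans hK
  bga x hx := (h.bga x hx).trans hK
  bla x hx := (h.bla x hx).trans hK
  nd x hx hu := hκ.trans (h.nd x hx (hu.trans_le hκ))

theorem Sol.mono {K κ R K' κ' R' T : ℝ} {Ω : ℝ → Set (E N)} {U : ℝ → E N → ℝ}
    (h : Sol K κ R T Ω U) (hK : K ≤ K') (hκ : κ' ≤ κ) (hR : R ≤ R') : Sol K' κ' R' T Ω U where
  st t ht := (h.st t ht).mono hK hκ hR
  cont := h.cont
  der := h.der
  inn := h.inn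
  la_cont := h.la_cont
  out := h.out
  null := h.null

end Pool.Agent.TF
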