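import Pool.Agent.Work.MP_9c254e_an.Rell

/-!
# The static inequalities, part A: Hardy's inequality for `Δv₁ - Δv₂`
-/

open scoped ContDiff Topology RealInnerProductSpace
open Set MeasureTheory Filter

namespace Pool.Agent.TF

variable {N : ℕ} {K κ R ε : ℝ} {U₁ U₂ : Set (E N)} {u₁ u₂ : E N → ℝ}

theorem int_le2 {O : Set (E N)} (hO : IsOpen O) (hR : O ⊆ Metric.closedBall 0 R)
    {f g₁ g₂ : E N → ℝ} {c : ℝ} (hf : BC O f) (h1 : BC O g₁) (h2 : BC O g₂)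
    (h : ∀ x ∈ O, f x ≤ g₁ x + c * g₂ x) :
    ∫ x in O, f x ≤ (∫ x in O, g₁ x) + c * ∫ x in O, g₂ x := by
  rw [← integral_const_mul, ← int_add hO hR h1 ((BC.const c).mul h2)]
  exact int_mono hO hR hf (h1.add ((BC.const c).mul h2)) h

theorem int_le3 {O : Set (E N)} (hO : IsOpen O) (hR : O ⊆ Metric.closedBall 0 R)
    {f g₁ g₂ g₃ : E N → ℝ} {c d : ℝ} (hf : BC O f) (h1 : BC O g₁) (h2 : BC O g₂) (h3 : BC O g₃)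
    (h : ∀ x ∈ O, f x ≤ g₁ x + c * g₂ x + d * g₃ x) :
    ∫ x in O, f x ≤ (∫ x in O, g₁ x) + c * (∫ x in O, g₂ x) + d * ∫ x in O, g₃ x := by
  rw [← integral_const_mul, ← int_add hO hR h1 ((BC.const c).mul h2)]
  exact int_le2 hO hR hf (h1.add ((BC.const c).mul h2)) h3 h

theorem int_le4 {O : Set (E N)} (hO : IsOpen O) (hR : O ⊆ Metric.closedBall 0 R)
    {f g₁ g₂ g₃ g₄ : E N → ℝ} {c d e : ℝ} (hf : BC O f) (h1 : BC O g₁) (h2 : BC O g₂)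
    (h3 : BC O g₃) (h4 : BC O g₄)
    (h : ∀ x ∈ O, f x ≤ g₁ x + c * g₂ x + d * g₃ x + e * g₄ x) :
    ∫ x in O, f x ≤ (∫ x in O, g₁ x) + c * (∫ x in O, g₂ x) + d * (∫ x in O, g₃ x) +
      e * ∫ x in O, g₄ x := by
  rw [← integral_const_mul, ← int_add hO hR h1 ((BC.const c).mul h2)]
  exact int_le3 hO hR hf (h1.add ((BC.const c).mul h2)) h3 h4 h

/-! ### bounded functions of the pair -/

theorem Pr.bu1 (h : Pr K κ R ε U₁ U₂ u₁ u₂) : BC (U₁ ∩ U₂) u₁ := h.s1.bc_u.mono inter_subset_left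

theorem Pr.bu2 (h : Pr K κ R ε U₁ U₂ u₁ u₂) : BC (U₁ ∩ U₂) u₂ := h.s2.bc_u.mono inter_subset_right

theorem Pr.bg1 (h : Pr K κ R ε U₁ U₂ u₁ u₂) : BC (U₁ ∩ U₂) (gr u₁) :=
  h.s1.bc_gr.mono inter_subset_left

theorem Pr.bg2 (h : Pr K κ R ε U₁ U₂ u₁ u₂) : BC (U₁ ∩ U₂) (gr u₂) :=
  h.s2.bc_gr.mono inter_subset_right

theorem Pr.bee (h : Pr K κ R ε U₁ U₂ u₁ u₂) : BC (U₁ ∩ U₂) (ee u₁ u₂) :=
  (h.bu1.pow 2).sub (h.bu2.pow 2)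

theorem Pr.bge (h : Pr K κ R ε U₁ U₂ u₁ u₂) : BC (U₁ ∩ U₂) (gr (ee u₁ u₂)) :=
  ((((BC.const 2).mul h.bu1).smul h.bg1).sub (((BC.const 2).mul h.bu2).smul h.bg2)).congr
    fun _ hx => h.gr_ee hx

theorem Pr.bbb (h : Pr K κ R ε U₁ U₂ u₁ u₂) : BC (U₁ ∩ U₂) (bb u₁ u₂) :=
  (h.s1.bc_A.mono inter_subset_left).sub (h.s2.bc_A.mono inter_subset_right)

theorem Pr.bgb (h : Pr K κ R ε U₁ U₂ u₁ u₂) : BC (U₁ ∩ U₂) (gr (bb u₁ u₂)) :=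
  ((h.s1.bc_gA.mono inter_subset_left).sub (h.s2.bc_gA.mono inter_subset_right)).congr
    fun _ hx => h.gr_bb hx

theorem Pr.rr_nonneg (h : Pr K κ R ε U₁ U₂ u₁ u₂) {x : E N} (hx : x ∈ U₁ ∩ U₂) :
    0 ≤ rr u₁ u₂ x :=
  div_nonneg (mul_nonneg (h.s1.nonneg x) (h.s2.nonneg x)) (h.p_pos hx).le

theorem Pr.rr_le (h : Pr K κ R ε U₁ U₂ u₁ u₂) {x : E N} (hx : x ∈ U₁ ∩ U₂) :
    rr u₁ u₂ x ≤ u₁ x ∧ rr u₁ u₂ x ≤ u₂ x := by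
  have h1 := h.s1.pos x hx.1
  have h2 := h.s2.pos x hx.2
  unfold rr
  constructor
  · rw [div_le_iff₀ (h.p_pos hx)]
    nlinarith
  · rw [div_le_iff₀ (h.p_pos hx)]
    nlinarith

theorem Pr.min_le_rr (h : Pr K κ R ε U₁ U₂ u₁ u₂) {x : E N} (hx : x ∈ U₁ ∩ U₂) {c : ℝ}
    (hc : 0 ≤ c) (h1 : c ≤ u₁ x) (h2 : c ≤ u₂ x) : c / 2 ≤ rr u₁ u₂ x := by
  unfold rr
  rw [le_div_iff₀ (h.p_pos hx)]
  nlinarith [mul_nonneg (sub_nonneg.2 h1) (sub_nonneg.2 h2), mul_nonneg hc (sub_nonneg.2 h1),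
    mul_nonneg hc (sub_nonneg.2 h2)]

theorem Pr.rr_le_K (h : Pr K κ R ε U₁ U₂ u₁ u₂) {x : E N} (hx : x ∈ U₁ ∩ U₂) :
    rr u₁ u₂ x ≤ K := (h.rr_le hx).1.trans (h.s1.bu x hx.1)

theorem Pr.brr (h : Pr K κ R ε U₁ U₂ u₁ u₂) : BC (U₁ ∩ U₂) (rr u₁ u₂) :=
  ⟨h.smooth_rr.continuousOn, K, fun x hx => by
    rw [Real.norm_eq_abs, abs_of_nonneg (h.rr_nonneg hx)]
    exact h.rr_le_K hx⟩

theorem Pr.coef (h : Pr K κ R ε U₁ U₂ u₁ u₂) {x : E N} (hx : x ∈ U₁ ∩ U₂) :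
    0 ≤ u₂ x ^ 2 / (u₁ x + u₂ x) ^ 2 ∧ 0 ≤ u₁ x ^ 2 / (u₁ x + u₂ x) ^ 2 ∧
      1 / 2 ≤ u₂ x ^ 2 / (u₁ x + u₂ x) ^ 2 + u₁ x ^ 2 / (u₁ x + u₂ x) ^ 2 ∧
      u₂ x ^ 2 / (u₁ x + u₂ x) ^ 2 + u₁ x ^ 2 / (u₁ x + u₂ x) ^ 2 ≤ 1 := by
  have h1 := h.s1.pos x hx.1
  have h2 := h.s2.pos x hx.2
  have hp : 0 < (u₁ x + u₂ x) ^ 2 := pow_pos (h.p_pos hx) 2
  refine ⟨by positivity, by positivity, ?_, ?_⟩
  · rw [← add_div, le_div_iff₀ hp]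
    nlinarith [sq_nonneg (u₁ x - u₂ x)]
  · rw [← add_div, div_le_iff₀ hp]
    nlinarith [mul_pos h1 h2]

theorem Pr.norm_gr_rr (h : Pr K κ R ε U₁ U₂ u₁ u₂) {x : E N} (hx : x ∈ U₁ ∩ U₂) :
    ‖gr (rr u₁ u₂) x‖ ≤ K := by
  obtain ⟨h1, h2, -, h4⟩ := h.coef hx
  have hK := h.s1.K_nonneg hx.1
  rw [h.gr_rr hx]
  refine (norm_add_le _ _).trans ?_
  rw [norm_smul, norm_smul, Real.norm_eq_abs, Real.norm_eq_abs, abs_of_nonneg h1, abs_of_nonneg h2]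
  have h5 := mul_le_mul_of_nonneg_left (h.s1.bg x hx.1) h1
  have h6 := mul_le_mul_of_nonneg_left (h.s2.bg x hx.2) h2
  have h7 := mul_le_mul_of_nonneg_right h4 hK
  linarith

theorem Pr.bgrr (h : Pr K κ R ε U₁ U₂ u₁ u₂) : BC (U₁ ∩ U₂) (gr (rr u₁ u₂)) :=
  BC.of_comps fun i => ⟨(contDiffOn_pd (i := i) (k := 3) h.isOpen h.smooth_rr).continuousOn, K,
    fun x hx => (abs_pd_le _ x i).trans (h.norm_gr_rr hx)⟩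

theorem Pr.abs_bb (h : Pr K κ R ε U₁ U₂ u₁ u₂) {x : E N} (hx : x ∈ U₁ ∩ U₂) :
    |bb u₁ u₂ x| ≤ 2 * K := by
  have h1 := h.s1.ba x hx.1
  have h2 := h.s2.ba x hx.2
  unfold bb
  refine (abs_sub _ _).trans ?_
  linarith

theorem Pr.norm_ge (h : Pr K κ R ε U₁ U₂ u₁ u₂) {x : E N} (hx : x ∈ U₁ ∩ U₂) :
    ‖gr (ee u₁ u₂) x‖ ≤ 4 * K ^ 2 := by
  have hK := h.s1.K_nonneg hx.1
  rw [h.gr_ee hx]
  refine (norm_sub_le _ _).trans ?_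
  rw [norm_smul, norm_smul, Real.norm_eq_abs, Real.norm_eq_abs,
    abs_of_nonneg (mul_nonneg zero_le_two (h.s1.nonneg x)),
    abs_of_nonneg (mul_nonneg zero_le_two (h.s2.nonneg x))]
  have h1 := mul_le_mul (h.s1.bu x hx.1) (h.s1.bg x hx.1) (norm_nonneg _) hK
  have h2 := mul_le_mul (h.s2.bu x hx.2) (h.s2.bg x hx.2) (norm_nonneg _) hK
  nlinarith

theorem Pr.diff_rr (h : Pr K κ R ε U₁ U₂ u₁ u₂) {x : E N} (hx : x ∈ U₁ ∩ U₂) :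
    DifferentiableAt ℝ (rr u₁ u₂) x :=
  (h.smooth_rr.contDiffAt (h.isOpen.mem_nhds hx)).differentiableAt (by norm_num)

theorem Pr.diff_bb (h : Pr K κ R ε U₁ U₂ u₁ u₂) {x : E N} (hx : x ∈ U₁ ∩ U₂) :
    DifferentiableAt ℝ (bb u₁ u₂) x :=
  (h.smooth_bb.contDiffAt (h.isOpen.mem_nhds hx)).differentiableAt (by norm_num)

theorem Pr.diff_ee (h : Pr K κ R ε U₁ U₂ u₁ u₂) {x : E N} (hx : x ∈ U₁ ∩ U₂) :
    DifferentiableAt ℝ (ee u₁ u₂) x :=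
  (h.smooth_ee.contDiffAt (h.isOpen.mem_nhds hx)).differentiableAt (by norm_num)

theorem Pr.smooth_ge (h : Pr K κ R ε U₁ U₂ u₁ u₂) (i : Fin N) :
    ContDiffOn ℝ 1 (fun x => gr (ee u₁ u₂) x i) (U₁ ∩ U₂) :=
  (contDiffOn_pd (i := i) (k := 3) h.isOpen h.smooth_ee).of_le (by norm_num)

theorem diffAt_of_c1 {O : Set (E N)} (hO : IsOpen O) {f : E N → ℝ} (hf : ContDiffOn ℝ 1 f O)
    {x : E N} (hx : x ∈ O) : DifferentiableAt ℝ f x :=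
  (hf.contDiffAt (hO.mem_nhds hx)).differentiableAt (by norm_num)

/-! ### (2) -/

theorem Pr.dv2 (h : Pr K κ R ε U₁ U₂ u₁ u₂) {x : E N} (hx : x ∈ U₁ ∩ U₂) :
    dv (fun y => (rr u₁ u₂ y ^ 2 * bb u₁ u₂ y) • gr (ee u₁ u₂) y) x =
      2 * rr u₁ u₂ x * bb u₁ u₂ x * ⟪gr (rr u₁ u₂) x, gr (ee u₁ u₂) x⟫ +
        rr u₁ u₂ x ^ 2 * ⟪gr (bb u₁ u₂) x, gr (ee u₁ u₂) x⟫ + rr u₁ u₂ x ^ 2 * bb u₁ u₂ x ^ 2 := by
  have dr := h.diff_rr hx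
  have db := h.diff_bb hx
  rw [dv_smul ((dr.fun_pow 2).fun_mul db) fun i => diffAt_of_c1 h.isOpen (h.smooth_ge i) hx, dv_gr,
    h.lap_ee hx, gr_mul (dr.fun_pow 2) db, gr_sq dr, inner_add_left, real_inner_smul_left,
    real_inner_smul_left, real_inner_smul_left]
  ring

/-- the weighted dissipation -/
noncomputable def DD (U₁ U₂ : Set (E N)) (u₁ u₂ : E N → ℝ) : ℝ :=
  ∫ x in U₁ ∩ U₂, (u₁ x ^ 2 + u₂ x ^ 2) / 2 * ‖gr (bb u₁ u₂) x‖ ^ 2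

noncomputable def EO (U₁ U₂ : Set (E N)) (u₁ u₂ : E N → ℝ) : ℝ :=
  ∫ x in U₁ ∩ U₂, ‖gr (ee u₁ u₂) x‖ ^ 2

noncomputable def BB (U₁ U₂ : Set (E N)) (u₁ u₂ : E N → ℝ) : ℝ :=
  ∫ x in U₁ ∩ U₂, bb u₁ u₂ x ^ 2

theorem Pr.bdd (h : Pr K κ R ε U₁ U₂ u₁ u₂) :
    BC (U₁ ∩ U₂) fun x => (u₁ x ^ 2 + u₂ x ^ 2) / 2 * ‖gr (bb u₁ u₂) x‖ ^ 2 := by
  have h1 := ((BC.const (2⁻¹ : ℝ)).mul ((h.bu1.pow 2).add (h.bu2.pow 2))).mul (h.bgb.norm.pow 2)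
  refine h1.congr fun x _ => ?_
  ring

theorem Pr.r2 (h : Pr K κ R ε U₁ U₂ u₁ u₂) (hc : Cst K κ ε) :
    ∫ x in U₁ ∩ U₂, rr u₁ u₂ x ^ 2 * bb u₁ u₂ x ^ 2 ≤
      2 * DD U₁ U₂ u₁ u₂ + 5 * K ^ 2 * EO U₁ U₂ u₁ u₂ := by
  have hK := hc.K1
  have hbc : BC (U₁ ∩ U₂) fun x =>
      2 * rr u₁ u₂ x * bb u₁ u₂ x * ⟪gr (rr u₁ u₂) x, gr (ee u₁ u₂) x⟫ +
        rr u₁ u₂ x ^ 2 * ⟪gr (bb u₁ u₂) x, gr (ee u₁ u₂) x⟫ + rr u₁ u₂ x ^ 2 * bb u₁ u₂ x ^ 2 :=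
    ((((BC.const 2).mul h.brr).mul h.bbb).mul (h.bgrr.inner h.bge)).add
      ((h.brr.pow 2).mul (h.bgb.inner h.bge)) |>.add ((h.brr.pow 2).mul (h.bbb.pow 2))
  have hz : ∫ x in U₁ ∩ U₂,
      dv (fun y => (rr u₁ u₂ y ^ 2 * bb u₁ u₂ y) • gr (ee u₁ u₂) y) x = 0 := by
    refine h.int_dv_zero hc (C := K * (2 * K) * (4 * K ^ 2)) (fun i => ?_)
      (((h.brr.pow 2).mul h.bbb).smul h.bge) (hbc.congr fun x hx => h.dv2 hx) (by positivity)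
      fun x hx => ?_
    · exact (((h.smooth_rr.of_le (by norm_num)).pow 2).mul (h.smooth_bb.of_le (by norm_num))).mul
        (h.smooth_ge i)
    · rw [norm_smul, norm_mul, Real.norm_eq_abs, Real.norm_eq_abs, abs_of_nonneg (sq_nonneg _)]
      have h1 := h.rr_nonneg hx
      have h2 : rr u₁ u₂ x ≤ min (u₁ x) (u₂ x) := le_min (h.rr_le hx).1 (h.rr_le hx).2
      have h3 := h.rr_le_K hx
      have h4 := h.abs_bb hx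
      have h5 := h.norm_ge hx
      have h6 : rr u₁ u₂ x ^ 2 ≤ min (u₁ x) (u₂ x) * K := by
        rw [sq]
        exact mul_le_mul h2 h3 h1 (h1.trans h2)
      calc rr u₁ u₂ x ^ 2 * |bb u₁ u₂ x| * ‖gr (ee u₁ u₂) x‖
          ≤ min (u₁ x) (u₂ x) * K * (2 * K) * (4 * K ^ 2) := by
            have h7 : 0 ≤ min (u₁ x) (u₂ x) := h1.trans h2
            gcongr
        _ = K * (2 * K) * (4 * K ^ 2) * min (u₁ x) (u₂ x) := by ring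
  rw [setIntegral_congr_fun h.isOpen.measurableSet fun x hx => h.dv2 hx] at hz
  have h1 := int_le3 h.isOpen h.sub (f := fun x => (1 / 2) * (rr u₁ u₂ x ^ 2 * bb u₁ u₂ x ^ 2))
    (c := 1) (d := 9 / 4 * K ^ 2) ((BC.const (1 / 2)).mul ((h.brr.pow 2).mul (h.bbb.pow 2))) hbc
    h.bdd (h.bge.norm.pow 2) fun x hx => by
      have e1 := h.rr_nonneg hx
      obtain ⟨e2, e3⟩ := h.rr_le hx
      have e4 := h.rr_le_K hx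
      have e5 := h.norm_gr_rr hx
      have i1 := abs_le.1 (abs_real_inner_le_norm (gr (rr u₁ u₂) x) (gr (ee u₁ u₂) x))
      have i2 := abs_le.1 (abs_real_inner_le_norm (gr (bb u₁ u₂) x) (gr (ee u₁ u₂) x))
      set r := rr u₁ u₂ x with hr
      set b := bb u₁ u₂ x with hb
      set q := ‖gr (ee u₁ u₂) x‖ with hq
      set g := ‖gr (bb u₁ u₂) x‖ with hg
      have q0 : 0 ≤ q := norm_nonneg _
      have g0 : 0 ≤ g := norm_nonneg _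
      have t1 : -(2 * r * b * ⟪gr (rr u₁ u₂) x, gr (ee u₁ u₂) x⟫) ≤
          1 / 2 * (r ^ 2 * b ^ 2) + 2 * K ^ 2 * q ^ 2 := by
        have a1 : |⟪gr (rr u₁ u₂) x, gr (ee u₁ u₂) x⟫| ≤ K * q :=
          (abs_real_inner_le_norm _ _).trans (mul_le_mul_of_nonneg_right e5 q0)
        have a2 : ⟪gr (rr u₁ u₂) x, gr (ee u₁ u₂) x⟫ ^ 2 ≤ (K * q) ^ 2 := sq_le_sq' (abs_le.1 a1).1 (abs_le.1 a1).2
        nlinarith [sq_nonneg (r * b + 2 * ⟪gr (rr u₁ u₂) x, gr (ee u₁ u₂) x⟫)]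
      have t2 : -(r ^ 2 * ⟪gr (bb u₁ u₂) x, gr (ee u₁ u₂) x⟫) ≤
          (u₁ x ^ 2 + u₂ x ^ 2) / 2 * g ^ 2 + 1 / 4 * K ^ 2 * q ^ 2 := by
        have b1 : r ^ 2 ≤ (u₁ x ^ 2 + u₂ x ^ 2) / 2 := by
          have := pow_le_pow_left₀ e1 e2 2
          have := pow_le_pow_left₀ e1 e3 2
          linarith
        have b2 : r ^ 2 ≤ K ^ 2 := pow_le_pow_left₀ e1 e4 2
        have b3 : r ^ 2 * (g * q) ≤ r ^ 2 * g ^ 2 + 1 / 4 * r ^ 2 * q ^ 2 := by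
          nlinarith [mul_nonneg (sq_nonneg r) (sq_nonneg (g - q / 2))]
        have b4 : -(r ^ 2 * ⟪gr (bb u₁ u₂) x, gr (ee u₁ u₂) x⟫) ≤ r ^ 2 * (g * q) := by
          have := mul_le_mul_of_nonneg_left i2.1 (sq_nonneg r)
          linarith
        have b5 := mul_le_mul_of_nonneg_right b1 (sq_nonneg g)
        have b6 := mul_le_mul_of_nonneg_right b2 (sq_nonneg q)
        linarith
      linarith
  rw [integral_const_mul, hz] at h1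
  unfold DD EO
  have h2 : 0 ≤ ∫ x in U₁ ∩ U₂, ‖gr (ee u₁ u₂) x‖ ^ 2 := int_nonneg h.isOpen fun x _ => sq_nonneg _
  have h3 := mul_nonneg (sq_nonneg K) h2
  linarith

end Pool.Agent.TF
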