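import Pool.Agent.Work.MP_9c254e_an.StatA

/-!
# The static inequalities, part B: the bound of `∫ b²`
-/

open scoped ContDiff Topology RealInnerProductSpace
open Set MeasureTheory Filter

namespace Pool.Agent.TF

variable {N : ℕ} {K κ R ε : ℝ} {U₁ U₂ : Set (E N)} {u₁ u₂ : E N → ℝ}

theorem Pr.dv3 (h : Pr K κ R ε U₁ U₂ u₁ u₂) {x : E N} (hx : x ∈ U₁ ∩ U₂) :
    dv (fun y => (bb u₁ u₂ y ^ 2 * rr u₁ u₂ y) • gr u₁ y) x =
      2 * bb u₁ u₂ x * rr u₁ u₂ x * ⟪gr (bb u₁ u₂) x, gr u₁ x⟫ +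
        bb u₁ u₂ x ^ 2 * ⟪gr (rr u₁ u₂) x, gr u₁ x⟫ +
        bb u₁ u₂ x ^ 2 * rr u₁ u₂ x * lap u₁ x := by
  have dr := h.diff_rr hx
  have db := h.diff_bb hx
  rw [dv_smul ((db.fun_pow 2).fun_mul dr) fun i => diffAt_of_c1 h.s1.isOpen (h.s1.smooth_gr i) hx.1,
    dv_gr, gr_mul (db.fun_pow 2) dr, gr_sq db, inner_add_left, real_inner_smul_left,
    real_inner_smul_left, real_inner_smul_left]
  ring

/-- `κ ≤ u₁` implies that `r` is large -/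
theorem Pr.rr_ge (h : Pr K κ R ε U₁ U₂ u₁ u₂) (hc : Cst K κ ε) {x : E N} (hx : x ∈ U₁ ∩ U₂)
    (h1 : κ ≤ u₁ x) : κ / 4 ≤ rr u₁ u₂ x := by
  have h2 := abs_le.1 (h.cu x)
  have h3 := hc.ε_le.1
  have h4 := hc.κ0
  have h5 := hc.ε0
  have h6 := h.min_le_rr hx (c := κ / 2) (by positivity) (by linarith) (by linarith)
  linarith

theorem Pr.gr_rr_ge (h : Pr K κ R ε U₁ U₂ u₁ u₂) (hc : Cst K κ ε) {x : E N}
    (hx : x ∈ U₁ ∩ U₂) :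
    κ ^ 4 / 4 ≤ κ ^ 2 * ⟪gr (rr u₁ u₂) x, gr u₁ x⟫ + 32 * K ^ 2 * rr u₁ u₂ x ^ 2 := by
  have hK := hc.K1
  have hκ := hc.κ0
  have hκ1 := hc.κ1
  have hr0 := h.rr_nonneg hx
  rcases lt_or_ge (u₁ x) κ with h1 | h1
  · obtain ⟨h2, h3⟩ := h.inner_ge hc hx h1
    obtain ⟨a1, a2, a3, -⟩ := h.coef hx
    have h4 : ⟪gr (rr u₁ u₂) x, gr u₁ x⟫ = u₂ x ^ 2 / (u₁ x + u₂ x) ^ 2 * ‖gr u₁ x‖ ^ 2 +
        u₁ x ^ 2 / (u₁ x + u₂ x) ^ 2 * ⟪gr u₁ x, gr u₂ x⟫ := by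
      rw [h.gr_rr hx, inner_add_left, real_inner_smul_left, real_inner_smul_left,
        real_inner_self_eq_norm_sq, real_inner_comm (gr u₁ x) (gr u₂ x)]
    have h5 : κ ^ 2 / 2 ≤ ‖gr u₁ x‖ ^ 2 := by
      have := pow_le_pow_left₀ hκ.le h3 2
      nlinarith [sq_nonneg κ]
    have h6 := mul_le_mul_of_nonneg_left h5 a1
    have h7 := mul_le_mul_of_nonneg_left h2 a2
    have h8 : κ ^ 2 / 4 ≤ ⟪gr (rr u₁ u₂) x, gr u₁ x⟫ := by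
      rw [h4]
      have h9 := mul_le_mul_of_nonneg_right a3 (show 0 ≤ κ ^ 2 / 2 by positivity)
      linarith
    have h10 := mul_le_mul_of_nonneg_left h8 (sq_nonneg κ)
    have h11 : 0 ≤ 32 * K ^ 2 * rr u₁ u₂ x ^ 2 := by positivity
    linarith
  · have h2 := h.rr_ge hc hx h1
    have h3 : |⟪gr (rr u₁ u₂) x, gr u₁ x⟫| ≤ K * K :=
      (abs_real_inner_le_norm _ _).trans (mul_le_mul (h.norm_gr_rr hx) (h.s1.bg x hx.1)
        (norm_nonneg _) (by linarith))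
    have h4 := (abs_le.1 h3).1
    have h5 : κ ^ 2 / 16 ≤ rr u₁ u₂ x ^ 2 := by
      have := pow_le_pow_left₀ (by positivity) h2 2
      linarith
    have h6 : κ ^ 2 * (-(K * K)) ≤ κ ^ 2 * ⟪gr (rr u₁ u₂) x, gr u₁ x⟫ :=
      mul_le_mul_of_nonneg_left h4 (sq_nonneg κ)
    have h7 : κ ^ 2 * K ^ 2 ≤ 16 * K ^ 2 * rr u₁ u₂ x ^ 2 := by
      have := mul_le_mul_of_nonneg_left h5 (show 0 ≤ 16 * K ^ 2 by positivity)
      linarith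
    have h8 : κ ^ 4 / 4 ≤ 4 * K ^ 2 * rr u₁ u₂ x ^ 2 := by
      have e1 : κ ^ 4 ≤ κ ^ 2 := pow_le_pow_of_le_one hκ.le hκ1 (by norm_num)
      have e2 : (1 : ℝ) ≤ K ^ 2 := one_le_pow₀ hK
      have e3 : rr u₁ u₂ x ^ 2 ≤ K ^ 2 * rr u₁ u₂ x ^ 2 := by
        nlinarith [sq_nonneg (rr u₁ u₂ x)]
      linarith
    have h9 : 0 ≤ K ^ 2 * rr u₁ u₂ x ^ 2 := by positivity
    linarith

theorem Pr.rr_sq_le (h : Pr K κ R ε U₁ U₂ u₁ u₂) {x : E N} (hx : x ∈ U₁ ∩ U₂) :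
    rr u₁ u₂ x ^ 2 ≤ (u₁ x ^ 2 + u₂ x ^ 2) / 2 := by
  have e1 := h.rr_nonneg hx
  obtain ⟨e2, e3⟩ := h.rr_le hx
  have := pow_le_pow_left₀ e1 e2 2
  have := pow_le_pow_left₀ e1 e3 2
  linarith

theorem Pr.r3 (h : Pr K κ R ε U₁ U₂ u₁ u₂) (hc : Cst K κ ε) :
    κ ^ 4 * BB U₁ U₂ u₁ u₂ ≤ 1440 * K ^ 4 * (DD U₁ U₂ u₁ u₂ + EO U₁ U₂ u₁ u₂) := by
  have hK := hc.K1
  have hκ := hc.κ0
  have hκ1 := hc.κ1
  have hbc : BC (U₁ ∩ U₂) fun x =>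
      2 * bb u₁ u₂ x * rr u₁ u₂ x * ⟪gr (bb u₁ u₂) x, gr u₁ x⟫ +
        bb u₁ u₂ x ^ 2 * ⟪gr (rr u₁ u₂) x, gr u₁ x⟫ +
        bb u₁ u₂ x ^ 2 * rr u₁ u₂ x * lap u₁ x :=
    ((((BC.const 2).mul h.bbb).mul h.brr).mul (h.bgb.inner h.bg1)).add
      ((h.bbb.pow 2).mul (h.bgrr.inner h.bg1)) |>.add
      (((h.bbb.pow 2).mul h.brr).mul (h.s1.bc_lap.mono inter_subset_left))
  have hz : ∫ x in U₁ ∩ U₂, dv (fun y => (bb u₁ u₂ y ^ 2 * rr u₁ u₂ y) • gr u₁ y) x = 0 := by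
    refine h.int_dv_zero hc (C := (2 * K) ^ 2 * K) (fun i => ?_)
      (((h.bbb.pow 2).mul h.brr).smul h.bg1) (hbc.congr fun x hx => h.dv3 hx) (by positivity)
      fun x hx => ?_
    · exact (((h.smooth_bb.of_le (by norm_num)).pow 2).mul (h.smooth_rr.of_le (by norm_num))).mul
        ((h.s1.smooth_gr i).mono inter_subset_left)
    · rw [norm_smul, norm_mul, Real.norm_eq_abs, Real.norm_eq_abs, abs_of_nonneg (sq_nonneg _),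
        abs_of_nonneg (h.rr_nonneg hx)]
      have h1 := h.rr_nonneg hx
      have h2 : rr u₁ u₂ x ≤ min (u₁ x) (u₂ x) := le_min (h.rr_le hx).1 (h.rr_le hx).2
      have h4 : bb u₁ u₂ x ^ 2 ≤ (2 * K) ^ 2 := sq_le_sq' (abs_le.1 (h.abs_bb hx)).1
        (abs_le.1 (h.abs_bb hx)).2
      have h5 := h.s1.bg x hx.1
      calc bb u₁ u₂ x ^ 2 * rr u₁ u₂ x * ‖gr u₁ x‖
          ≤ (2 * K) ^ 2 * min (u₁ x) (u₂ x) * K := by
            have h7 : 0 ≤ min (u₁ x) (u₂ x) := h1.trans h2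
            gcongr
        _ = (2 * K) ^ 2 * K * min (u₁ x) (u₂ x) := by ring
  rw [setIntegral_congr_fun h.isOpen.measurableSet fun x hx => h.dv3 hx] at hz
  have h1 := int_le3 h.isOpen h.sub (f := fun x => κ ^ 4 / 8 * bb u₁ u₂ x ^ 2)
    (g₁ := fun x => κ ^ 2 * (2 * bb u₁ u₂ x * rr u₁ u₂ x * ⟪gr (bb u₁ u₂) x, gr u₁ x⟫ +
        bb u₁ u₂ x ^ 2 * ⟪gr (rr u₁ u₂) x, gr u₁ x⟫ +
        bb u₁ u₂ x ^ 2 * rr u₁ u₂ x * lap u₁ x))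
    (c := 36 * K ^ 2) (d := 16 * K ^ 2) ((BC.const _).mul (h.bbb.pow 2)) ((BC.const _).mul hbc)
    ((h.brr.pow 2).mul (h.bbb.pow 2)) h.bdd fun x hx => by
      have e1 := h.rr_nonneg hx
      have e2 := h.gr_rr_ge hc hx
      have e3 := h.rr_sq_le hx
      have e4 := h.s1.bl x hx.1
      have e5 : |⟪gr (bb u₁ u₂) x, gr u₁ x⟫| ≤ K * ‖gr (bb u₁ u₂) x‖ := by
        refine (abs_real_inner_le_norm _ _).trans ?_
        rw [mul_comm]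
        exact mul_le_mul_of_nonneg_right (h.s1.bg x hx.1) (norm_nonneg _)
      set r := rr u₁ u₂ x with hr
      set b := bb u₁ u₂ x with hb
      set g := ‖gr (bb u₁ u₂) x‖ with hg
      set I1 := ⟪gr (bb u₁ u₂) x, gr u₁ x⟫ with hI1
      set I2 := ⟪gr (rr u₁ u₂) x, gr u₁ x⟫ with hI2
      set l := lap u₁ x with hl
      set s := (u₁ x ^ 2 + u₂ x ^ 2) / 2 with hs
      have g0 : 0 ≤ g := norm_nonneg _
      -- the laplacian term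
      have t1 : -(κ ^ 2 * (b ^ 2 * r * l)) ≤ κ ^ 4 / 16 * b ^ 2 + 4 * K ^ 2 * (r ^ 2 * b ^ 2) := by
        have a1 : -(r * l) ≤ r * K := by
          have := mul_le_mul_of_nonneg_left (abs_le.1 e4).1 e1
          linarith
        have a2 : κ ^ 2 * (r * K) ≤ κ ^ 4 / 16 + 4 * K ^ 2 * r ^ 2 := by
          nlinarith [sq_nonneg (κ ^ 2 / 4 - 2 * K * r)]
        have a3 : κ ^ 2 * (-(r * l)) ≤ κ ^ 4 / 16 + 4 * K ^ 2 * r ^ 2 :=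
          (mul_le_mul_of_nonneg_left a1 (sq_nonneg κ)).trans a2
        have a4 := mul_le_mul_of_nonneg_right a3 (sq_nonneg b)
        linarith
      -- the gradient term
      have t2 : -(κ ^ 2 * (2 * b * r * I1)) ≤ κ ^ 4 / 16 * b ^ 2 + 16 * K ^ 2 * (s * g ^ 2) := by
        have a1 : I1 ^ 2 ≤ (K * g) ^ 2 := sq_le_sq' (abs_le.1 e5).1 (abs_le.1 e5).2
        have a2 : -(κ ^ 2 * (2 * b * r * I1)) ≤ κ ^ 4 / 16 * b ^ 2 + 16 * (r ^ 2 * I1 ^ 2) := by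
          nlinarith [sq_nonneg (κ ^ 2 / 4 * b + 4 * r * I1)]
        have a3 := mul_le_mul_of_nonneg_left a1 (sq_nonneg r)
        have a4 := mul_le_mul_of_nonneg_right e3 (show 0 ≤ K ^ 2 * g ^ 2 by positivity)
        nlinarith
      have t3 := mul_le_mul_of_nonneg_right e2 (sq_nonneg b)
      nlinarith
  rw [integral_const_mul, integral_const_mul, hz] at h1
  have h2 := h.r2 hc
  have h3 : 0 ≤ DD U₁ U₂ u₁ u₂ := int_nonneg h.isOpen fun x _ => by positivity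
  have h4 : 0 ≤ EO U₁ U₂ u₁ u₂ := int_nonneg h.isOpen fun x _ => sq_nonneg _
  have h5 := mul_le_mul_of_nonneg_left h2 (show 0 ≤ 36 * K ^ 2 by positivity)
  have h6 : K ^ 2 ≤ K ^ 4 := pow_le_pow_right₀ hK (by norm_num)
  have h7 := mul_le_mul_of_nonneg_right h6 h3
  unfold DD EO BB at *
  nlinarith

end Pool.Agent.TF
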