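import Pool.Agent.Work.MP_9c254e_an.StatB

/-!
# The static inequalities, part C: the Rellich identity
-/

open scoped ContDiff Topology RealInnerProductSpace
open Set MeasureTheory Filter

namespace Pool.Agent.TF

variable {N : ℕ} {K κ R ε : ℝ} {U₁ U₂ : Set (E N)} {u₁ u₂ : E N → ℝ}

/-- the quadratic form of the Rellich field at the boundary -/
theorem zz_ge {g v h : E N} {w δ : ℝ} (hc : Cst K κ ε) (hδ : 0 < δ) (hδ1 : δ ≤ 1)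
    (hg : ‖g‖ ≤ K) (hv : ‖v‖ ≤ K) (hh : ‖h‖ ≤ 2 * ε * (|w| + 2 * δ)) (hw : |w| ≤ ε)
    (h1 : κ ^ 2 / 2 ≤ ⟪v, g⟫) (h2 : κ ≤ ‖g‖) :
    κ ^ 4 * w ^ 2 - 144 * K ^ 3 * δ ≤
      ⟪v, (2 * ⟪g, (2 * w) • g + h⟫) • ((2 * w) • g + h) -
        ⟪(2 * w) • g + h, (2 * w) • g + h⟫ • g⟫ := by
  have hK := hc.K1
  have hκ := hc.κ0
  have hκ1 := hc.κ1
  have hε := hc.ε0
  have hs := hc.small
  obtain ⟨-, hε1, -⟩ := hc.ε_le
  have h3 : ⟪v, (2 * ⟪g, (2 * w) • g + h⟫) • ((2 * w) • g + h) -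
        ⟪(2 * w) • g + h, (2 * w) • g + h⟫ • g⟫ =
      4 * w ^ 2 * ‖g‖ ^ 2 * ⟪v, g⟫ + 4 * w * ‖g‖ ^ 2 * ⟪v, h⟫ + 2 * ⟪g, h⟫ * ⟪v, h⟫ -
        ‖h‖ ^ 2 * ⟪v, g⟫ := by
    rw [inner_sub_right, real_inner_smul_right, real_inner_smul_right, inner_add_right,
      inner_add_right, inner_add_right, real_inner_smul_right, real_inner_smul_right,
      inner_add_left, inner_add_left, real_inner_smul_left, real_inner_smul_left,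
      real_inner_smul_right, real_inner_smul_right, real_inner_self_eq_norm_sq,
      real_inner_self_eq_norm_sq, real_inner_comm g h]
    ring
  rw [h3]
  have a1 : |⟪v, h⟫| ≤ K * ‖h‖ :=
    (abs_real_inner_le_norm _ _).trans (mul_le_mul_of_nonneg_right hv (norm_nonneg _))
  have a2 : |⟪g, h⟫| ≤ K * ‖h‖ :=
    (abs_real_inner_le_norm _ _).trans (mul_le_mul_of_nonneg_right hg (norm_nonneg _))
  have a3 : |⟪v, g⟫| ≤ K * K :=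
    (abs_real_inner_le_norm _ _).trans (mul_le_mul hv hg (norm_nonneg _) (by linarith))
  have a4 : κ ^ 2 ≤ ‖g‖ ^ 2 := pow_le_pow_left₀ hκ.le h2 2
  have a5 : ‖g‖ ^ 2 ≤ K ^ 2 := pow_le_pow_left₀ (norm_nonneg _) hg 2
  set G := ‖g‖ ^ 2 with hG
  set H := ‖h‖ with hH
  have H0 : 0 ≤ H := norm_nonneg _
  set W := |w| with hW
  have W0 : 0 ≤ W := abs_nonneg w
  have WW : w ^ 2 = W ^ 2 := (sq_abs w).symm
  -- the main term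
  have m1 : 2 * κ ^ 4 * w ^ 2 ≤ 4 * w ^ 2 * G * ⟪v, g⟫ := by
    have b1 : κ ^ 2 * (κ ^ 2 / 2) ≤ G * ⟪v, g⟫ :=
      mul_le_mul a4 h1 (by positivity) (by positivity)
    have b2 := mul_le_mul_of_nonneg_left b1 (show 0 ≤ 4 * w ^ 2 by positivity)
    linarith
  -- the errors
  have m2 : |4 * w * G * ⟪v, h⟫| ≤ 4 * K ^ 3 * (W * H) := by
    rw [abs_mul, abs_mul, abs_mul, abs_of_nonneg (show (0 : ℝ) ≤ 4 by norm_num),
      abs_of_nonneg (show 0 ≤ G from sq_nonneg _)]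
    calc 4 * W * G * |⟪v, h⟫| ≤ 4 * W * K ^ 2 * (K * H) := by gcongr
      _ = 4 * K ^ 3 * (W * H) := by ring
  have m3 : |2 * ⟪g, h⟫ * ⟪v, h⟫| ≤ 2 * K ^ 2 * H ^ 2 := by
    rw [abs_mul, abs_mul, abs_of_nonneg (show (0 : ℝ) ≤ 2 by norm_num)]
    calc 2 * |⟪g, h⟫| * |⟪v, h⟫| ≤ 2 * (K * H) * (K * H) := by gcongr
      _ = 2 * K ^ 2 * H ^ 2 := by ring
  have m4 : H ^ 2 * ⟪v, g⟫ ≤ K ^ 2 * H ^ 2 := by
    have := mul_le_mul_of_nonneg_left ((le_abs_self _).trans a3) (sq_nonneg H)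
    linarith
  -- the size of `H`
  have n1 : W * H ≤ 2 * ε * W ^ 2 + 4 * δ := by
    have b1 := mul_le_mul_of_nonneg_left hh W0
    have b2 : ε * (W * δ) ≤ δ := by
      calc ε * (W * δ) ≤ 1 * (1 * δ) := by
            have : W ≤ 1 := by linarith
            gcongr
        _ = δ := by ring
    nlinarith
  have n2 : H ^ 2 ≤ 8 * ε * W ^ 2 + 32 * δ := by
    have b1 := pow_le_pow_left₀ H0 hh 2
    have b2 : (W + 2 * δ) ^ 2 ≤ 2 * W ^ 2 + 8 * δ ^ 2 := by nlinarith [sq_nonneg (W - 2 * δ)]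
    have b3 : ε ^ 2 ≤ ε := by nlinarith
    have b4 : δ ^ 2 ≤ δ := by nlinarith
    have b5 : (2 * ε * (W + 2 * δ)) ^ 2 ≤ 4 * ε ^ 2 * (2 * W ^ 2 + 8 * δ ^ 2) := by
      have := mul_le_mul_of_nonneg_left b2 (show 0 ≤ 4 * ε ^ 2 by positivity)
      linarith
    have b6 : ε ^ 2 * W ^ 2 ≤ ε * W ^ 2 := mul_le_mul_of_nonneg_right b3 (sq_nonneg W)
    have b7 : ε ^ 2 * δ ^ 2 ≤ 1 * δ := mul_le_mul (by nlinarith) b4 (sq_nonneg δ) zero_le_one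
    nlinarith
  have n3 : 48 * (K ^ 3 * ε * W ^ 2) ≤ κ ^ 4 * W ^ 2 := by
    have := mul_le_mul_of_nonneg_right hs (sq_nonneg W)
    linarith
  have n4 : K ^ 2 ≤ K ^ 3 := pow_le_pow_right₀ hK (by norm_num)
  have n5 := mul_le_mul_of_nonneg_left n1 (show 0 ≤ K ^ 3 by positivity)
  have n6 := mul_le_mul_of_nonneg_left n2 (show 0 ≤ K ^ 2 by positivity)
  have n7 : K ^ 2 * (8 * ε * W ^ 2 + 32 * δ) ≤ K ^ 3 * (8 * ε * W ^ 2 + 32 * δ) :=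
    mul_le_mul_of_nonneg_right n4 (by positivity)
  have m2' := (abs_le.1 m2).1
  have m3' := (abs_le.1 m3).1
  rw [WW] at m1 ⊢
  have n8 : 0 ≤ K ^ 3 * δ := by positivity
  have n9 : 0 ≤ κ ^ 4 * W ^ 2 := by positivity
  linarith

/-- the gradient of `e` in the layer -/
theorem Pr.gr_ee' (h : Pr K κ R ε U₁ U₂ u₁ u₂) {x : E N} (hx : x ∈ U₁ ∩ U₂) :
    gr (ee u₁ u₂) x = (2 * (u₁ x - u₂ x)) • gr u₁ x + (2 * u₂ x) • (gr u₁ x - gr u₂ x) := by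
  rw [h.gr_ee hx]
  module

theorem Pr.min_le (h : Pr K κ R ε U₁ U₂ u₁ u₂) {δ : ℝ} (hδ : 0 < δ) {x : E N}
    (hx : lam δ u₁ u₂ x ≠ 0) :
    u₁ x ≤ |u₁ x - u₂ x| + 2 * δ ∧ u₂ x ≤ |u₁ x - u₂ x| + 2 * δ := by
  have h1 := (h.layer hδ hx).2.1
  have h2 := le_abs_self (u₁ x - u₂ x)
  have h3 := neg_abs_le (u₁ x - u₂ x)
  have h4 := abs_nonneg (u₁ x - u₂ x)
  rcases h1 with h1 | h1
  · exact ⟨by linarith, by linarith⟩
  · exact ⟨by linarith, by linarith⟩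

theorem Pr.rell_ge (h : Pr K κ R ε U₁ U₂ u₁ u₂) (hc : Cst K κ ε) {δ : ℝ} (hδ : 0 < δ)
    (hδκ : 2 * δ + ε < κ) (hδ1 : δ ≤ 1) {x : E N} (hx : x ∈ U₁ ∩ U₂) :
    lam δ u₁ u₂ x * (κ ^ 4 * (u₁ x - u₂ x) ^ 2 - 144 * K ^ 3 * δ) ≤
      Gam δ u₁ u₂ (rell u₁ (ee u₁ u₂) x) x := by
  rcases eq_or_ne (lam δ u₁ u₂ x) 0 with h0 | h0
  · rw [h0, Gam_lam_zero hδ h0, zero_mul]
  · obtain ⟨-, -, h3, h4⟩ := h.layer hδ h0
    obtain ⟨h5, h6⟩ := h.inner_ge hc hx (by linarith)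
    have h7 := (h.min_le hδ h0).2
    have h8 : ‖(2 * u₂ x) • (gr u₁ x - gr u₂ x)‖ ≤ 2 * ε * (|u₁ x - u₂ x| + 2 * δ) := by
      rw [norm_smul, Real.norm_eq_abs, abs_of_nonneg (mul_nonneg zero_le_two (h.s2.nonneg x))]
      calc 2 * u₂ x * ‖gr u₁ x - gr u₂ x‖ ≤ 2 * (|u₁ x - u₂ x| + 2 * δ) * ε := by
            have := h.cg x hx
            have := h.s2.nonneg x
            gcongr
        _ = 2 * ε * (|u₁ x - u₂ x| + 2 * δ) := by ring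
    unfold rell
    rw [h.gr_ee' hx]
    refine Gam_ge hδ ?_ ?_
    · refine zz_ge hc hδ hδ1 (h.s1.bg x hx.1) (h.s1.bg x hx.1) h8 (h.cu x) ?_ h6
      rw [real_inner_self_eq_norm_sq]
      have := pow_le_pow_left₀ hc.κ0.le h6 2
      nlinarith [sq_nonneg κ]
    · refine zz_ge hc hδ hδ1 (h.s1.bg x hx.1) (h.s2.bg x hx.2) h8 (h.cu x) ?_ h6
      rwa [real_inner_comm]

theorem Pr.contDiffAt1 (h : Pr K κ R ε U₁ U₂ u₁ u₂) {x : E N} (hx : x ∈ U₁ ∩ U₂) :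
    ContDiffAt ℝ 2 u₁ x := (h.s1.contDiffAt hx.1).of_le (by norm_num)

theorem Pr.contDiffAt_ee (h : Pr K κ R ε U₁ U₂ u₁ u₂) {x : E N} (hx : x ∈ U₁ ∩ U₂) :
    ContDiffAt ℝ 2 (ee u₁ u₂) x :=
  (h.smooth_ee.contDiffAt (h.isOpen.mem_nhds hx)).of_le (by norm_num)

theorem smooth_inner {O : Set (E N)} {f h : E N → ℝ}
    (hf : ∀ i, ContDiffOn ℝ 1 (fun x => gr f x i) O)
    (hh : ∀ i, ContDiffOn ℝ 1 (fun x => gr h x i) O) :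
    ContDiffOn ℝ 1 (fun y => ⟪gr f y, gr h y⟫) O := by
  rw [inner_gr]
  exact ContDiffOn.sum fun j _ => (hf j).mul (hh j)

theorem smooth_rell {O : Set (E N)} {f h : E N → ℝ}
    (hf : ∀ i, ContDiffOn ℝ 1 (fun x => gr f x i) O)
    (hh : ∀ i, ContDiffOn ℝ 1 (fun x => gr h x i) O) (i : Fin N) :
    ContDiffOn ℝ 1 (fun x => rell f h x i) O := by
  have e : (fun y => rell f h y i) = fun y => (2 * ⟪gr f y, gr h y⟫) * gr h y i -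
        ⟪gr h y, gr h y⟫ * gr f y i := rfl
  rw [e]
  exact ((contDiffOn_const.mul (smooth_inner hf hh)).mul (hh i)).sub
    ((smooth_inner hh hh).mul (hf i))

theorem Pr.smooth_g1 (h : Pr K κ R ε U₁ U₂ u₁ u₂) (i : Fin N) :
    ContDiffOn ℝ 1 (fun x => gr u₁ x i) (U₁ ∩ U₂) := (h.s1.smooth_gr i).mono inter_subset_left

theorem Pr.smooth_g2 (h : Pr K κ R ε U₁ U₂ u₁ u₂) (i : Fin N) :
    ContDiffOn ℝ 1 (fun x => gr u₂ x i) (U₁ ∩ U₂) := (h.s2.smooth_gr i).mono inter_subset_right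

theorem Pr.b_rell (h : Pr K κ R ε U₁ U₂ u₁ u₂) : BC (U₁ ∩ U₂) (rell u₁ (ee u₁ u₂)) :=
  (((BC.const 2).mul (h.bg1.inner h.bge)).smul h.bge).sub ((h.bge.inner h.bge).smul h.bg1)

theorem Pr.bgi (h : Pr K κ R ε U₁ U₂ u₁ u₂) (i : Fin N) :
    BC (U₁ ∩ U₂) (pd i (ee u₁ u₂)) :=
  ⟨(h.smooth_ge i).continuousOn, 4 * K ^ 2, fun x hx => (abs_pd_le _ x i).trans (h.norm_ge hx)⟩

theorem Pr.bhess (h : Pr K κ R ε U₁ U₂ u₁ u₂) (i j : Fin N) :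
    BC (U₁ ∩ U₂) (pd i (pd j u₁)) :=
  ⟨((contDiffOn_pd (i := i) (k := 2) h.s1.isOpen
    (contDiffOn_pd (i := j) (k := 3) h.s1.isOpen h.s1.smooth)).continuousOn).mono
      inter_subset_left, K, fun x hx => h.s1.bh x hx.1 i j⟩

/-- the divergence of the Rellich field -/
noncomputable def zd (u₁ u₂ : E N → ℝ) (x : E N) : ℝ :=
  2 * ⟪gr u₁ x, gr (ee u₁ u₂) x⟫ * bb u₁ u₂ x +
    2 * (∑ i, ∑ j, pd i (pd j u₁) x * (pd i (ee u₁ u₂) x * pd j (ee u₁ u₂) x)) -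
    ⟪gr (ee u₁ u₂) x, gr (ee u₁ u₂) x⟫ * lap u₁ x

theorem Pr.dv_rell (h : Pr K κ R ε U₁ U₂ u₁ u₂) {x : E N} (hx : x ∈ U₁ ∩ U₂) :
    dv (rell u₁ (ee u₁ u₂)) x = zd u₁ u₂ x := by
  rw [rellich (h.contDiffAt1 hx) (h.contDiffAt_ee hx), h.lap_ee hx]
  rfl

theorem Pr.b_zd (h : Pr K κ R ε U₁ U₂ u₁ u₂) : BC (U₁ ∩ U₂) (zd u₁ u₂) := by
  refine (((((BC.const 2).mul (h.bg1.inner h.bge)).mul h.bbb).add ((BC.const 2).mul
    (BC.sum _ fun i _ => BC.sum _ fun j _ => (h.bhess i j).mul ((h.bgi i).mul (h.bgi j))))).sub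
    ((h.bge.inner h.bge).mul (h.s1.bc_lap.mono inter_subset_left)))

theorem Pr.b_dvrell (h : Pr K κ R ε U₁ U₂ u₁ u₂) : BC (U₁ ∩ U₂) (dv (rell u₁ (ee u₁ u₂))) :=
  h.b_zd.congr fun _ hx => h.dv_rell hx

theorem Pr.abs_zd (h : Pr K κ R ε U₁ U₂ u₁ u₂) {x : E N} (hx : x ∈ U₁ ∩ U₂) :
    |zd u₁ u₂ x| ≤ 2 * K * (‖gr (ee u₁ u₂) x‖ * |bb u₁ u₂ x|) +
      (2 * K * N + K) * ‖gr (ee u₁ u₂) x‖ ^ 2 := by
  have hK := h.s1.K_nonneg hx.1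
  set q := ‖gr (ee u₁ u₂) x‖ with hq
  have q0 : 0 ≤ q := norm_nonneg _
  have a1 : |2 * ⟪gr u₁ x, gr (ee u₁ u₂) x⟫ * bb u₁ u₂ x| ≤ 2 * K * (q * |bb u₁ u₂ x|) := by
    rw [abs_mul, abs_mul, abs_of_nonneg (show (0 : ℝ) ≤ 2 by norm_num)]
    have b1 : |⟪gr u₁ x, gr (ee u₁ u₂) x⟫| ≤ K * q :=
      (abs_real_inner_le_norm _ _).trans (mul_le_mul_of_nonneg_right (h.s1.bg x hx.1) q0)
    calc 2 * |⟪gr u₁ x, gr (ee u₁ u₂) x⟫| * |bb u₁ u₂ x| ≤ 2 * (K * q) * |bb u₁ u₂ x| := by gcongr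
      _ = 2 * K * (q * |bb u₁ u₂ x|) := by ring
  have a2 : |2 * (∑ i, ∑ j, pd i (pd j u₁) x * (pd i (ee u₁ u₂) x * pd j (ee u₁ u₂) x))| ≤
      2 * K * N * q ^ 2 := by
    rw [abs_mul, abs_of_nonneg (show (0 : ℝ) ≤ 2 by norm_num)]
    have b1 : |∑ i, ∑ j, pd i (pd j u₁) x * (pd i (ee u₁ u₂) x * pd j (ee u₁ u₂) x)| ≤
        K * (∑ i, |pd i (ee u₁ u₂) x|) ^ 2 := by
      calc |∑ i, ∑ j, pd i (pd j u₁) x * (pd i (ee u₁ u₂) x * pd j (ee u₁ u₂) x)|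
          ≤ ∑ i, |∑ j, pd i (pd j u₁) x * (pd i (ee u₁ u₂) x * pd j (ee u₁ u₂) x)| :=
            Finset.abs_sum_le_sum_abs _ _
        _ ≤ ∑ i, ∑ j, K * (|pd i (ee u₁ u₂) x| * |pd j (ee u₁ u₂) x|) := by
            refine Finset.sum_le_sum fun i _ => (Finset.abs_sum_le_sum_abs _ _).trans
              (Finset.sum_le_sum fun j _ => ?_)
            rw [abs_mul, abs_mul]
            exact mul_le_mul_of_nonneg_right (h.s1.bh x hx.1 i j) (by positivity)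
        _ = K * (∑ i, |pd i (ee u₁ u₂) x|) ^ 2 := by
            rw [sq, Finset.sum_mul_sum, Finset.mul_sum]
            exact Finset.sum_congr rfl fun i _ => by rw [Finset.mul_sum]
    have b2 : (∑ i, |pd i (ee u₁ u₂) x|) ^ 2 ≤ N * q ^ 2 := by
      have c1 := sq_sum_le_card_mul_sum_sq (s := (Finset.univ : Finset (Fin N)))
        (f := fun i => |pd i (ee u₁ u₂) x|)
      rw [Finset.card_univ, Fintype.card_fin] at c1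
      have c2 : ∑ i, |pd i (ee u₁ u₂) x| ^ 2 = q ^ 2 := by
        rw [hq, norm_sq_eq]
        refine Finset.sum_congr rfl fun i _ => ?_
        rw [sq_abs, gr_apply]
        ring
      rwa [c2] at c1
    have b3 := mul_le_mul_of_nonneg_left b2 hK
    linarith
  have a3 : |⟪gr (ee u₁ u₂) x, gr (ee u₁ u₂) x⟫ * lap u₁ x| ≤ K * q ^ 2 := by
    rw [real_inner_self_eq_norm_sq, abs_mul, abs_of_nonneg (sq_nonneg _), mul_comm]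
    exact mul_le_mul_of_nonneg_right (h.s1.bl x hx.1) (sq_nonneg _)
  unfold zd
  refine (abs_sub _ _).trans ?_
  have a4 := abs_add_le (2 * ⟪gr u₁ x, gr (ee u₁ u₂) x⟫ * bb u₁ u₂ x)
    (2 * (∑ i, ∑ j, pd i (pd j u₁) x * (pd i (ee u₁ u₂) x * pd j (ee u₁ u₂) x)))
  linarith

/-- the boundary functional -/
noncomputable def ze (U₁ U₂ : Set (E N)) (u₁ u₂ : E N → ℝ) : ℝ :=
  -∫ x in U₁ ∩ U₂, dv (rell u₁ (ee u₁ u₂)) x

theorem Pr.bw (h : Pr K κ R ε U₁ U₂ u₁ u₂) : BC (U₁ ∩ U₂) fun x => u₁ x - u₂ x := h.bu1.sub h.bu2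

theorem Pr.rell_int (h : Pr K κ R ε U₁ U₂ u₁ u₂) (hc : Cst K κ ε) {δ : ℝ} (hδ : 0 < δ)
    (hδκ : 2 * δ + ε < κ) (hδ1 : δ ≤ 1) :
    κ ^ 4 * ∫ x in U₁ ∩ U₂, lam δ u₁ u₂ x * (u₁ x - u₂ x) ^ 2 ≤
      -(∫ x in U₁ ∩ U₂, chi δ u₁ u₂ x * dv (rell u₁ (ee u₁ u₂)) x) +
        δ * (144 * K ^ 3 * mB N K κ R) := by
  have hK := hc.K1
  have h1 : κ ^ 4 * ∫ x in U₁ ∩ U₂, lam δ u₁ u₂ x * (u₁ x - u₂ x) ^ 2 ≤
      (∫ x in U₁ ∩ U₂, Gam δ u₁ u₂ (rell u₁ (ee u₁ u₂) x) x) +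
        144 * K ^ 3 * δ * ∫ x in U₁ ∩ U₂, lam δ u₁ u₂ x := by
    rw [← integral_const_mul]
    refine int_le2 h.isOpen h.sub ((BC.const _).mul ((h.bc_lam hδ _).mul (h.bw.pow 2)))
      (h.bc_Gam hδ h.b_rell) (h.bc_lam hδ _) fun x hx => ?_
    have := h.rell_ge hc hδ hδκ hδ1 hx
    linarith
  have h2 := h.ibp' hδ (smooth_rell h.smooth_g1 h.smooth_ge)
  have h3 := mul_le_mul_of_nonneg_left (h.mass' hc hδ hδκ)
    (show 0 ≤ 144 * K ^ 3 * δ by positivity)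
  rw [h2, neg_neg]
  linarith

/-- the limit lemma -/
theorem Pr.lim_le (h : Pr K κ R ε U₁ U₂ u₁ u₂) (hc : Cst K κ ε) {a : ℝ → ℝ} {a₀ C C' : ℝ}
    (hC : 0 ≤ C) (ha : Tendsto a (𝓝[>] 0) (𝓝 a₀))
    (hb : ∀ δ, 0 < δ → 2 * δ + ε < κ → δ ≤ 1 →
      a δ ≤ C * (∫ x in U₁ ∩ U₂, lam δ u₁ u₂ x * (u₁ x - u₂ x) ^ 2) + δ * C') :
    κ ^ 4 * a₀ ≤ C * ze U₁ U₂ u₁ u₂ := by
  have hκ := hc.κ0
  have h1 : Tendsto (fun δ : ℝ => C * (-(∫ x in U₁ ∩ U₂, chi δ u₁ u₂ x *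
      dv (rell u₁ (ee u₁ u₂)) x) + δ * (144 * K ^ 3 * mB N K κ R)) + δ * (κ ^ 4 * C'))
      (𝓝[>] 0) (𝓝 (C * (ze U₁ U₂ u₁ u₂ + 0) + 0)) :=
    (((h.tendsto_chi h.b_dvrell).neg.add (tendsto_mul_const _)).const_mul C).add
      (tendsto_mul_const _)
  rw [add_zero, add_zero] at h1
  refine le_of_tendsto_of_tendsto (ha.const_mul (κ ^ 4)) h1 ?_
  filter_upwards [hc.eventually] with δ hh
  obtain ⟨hδ, hδκ, hδ1⟩ := hh
  have h2 := mul_le_mul_of_nonneg_left (hb δ hδ hδκ hδ1) (show 0 ≤ κ ^ 4 by positivity)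
  have h3 := mul_le_mul_of_nonneg_left (h.rell_int hc hδ hδκ hδ1) hC
  linarith

theorem Pr.int_lam_nonneg (h : Pr K κ R ε U₁ U₂ u₁ u₂) {δ : ℝ} (hδ : 0 < δ) :
    0 ≤ ∫ x in U₁ ∩ U₂, lam δ u₁ u₂ x * (u₁ x - u₂ x) ^ 2 :=
  int_nonneg h.isOpen fun _ _ => mul_nonneg (lam_nonneg hδ _ _ _) (sq_nonneg _)

theorem Pr.ze_nonneg (h : Pr K κ R ε U₁ U₂ u₁ u₂) (hc : Cst K κ ε) : 0 ≤ ze U₁ U₂ u₁ u₂ := by
  have h1 := h.lim_le hc (a := fun _ => 0) (C := 1) (C' := 0) zero_le_one tendsto_const_nhds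
    fun δ hδ _ _ => by
      have := h.int_lam_nonneg hδ
      linarith
  linarith

theorem Pr.r4 (h : Pr K κ R ε U₁ U₂ u₁ u₂) {θ : ℝ} (hθ : 0 < θ) :
    ze U₁ U₂ u₁ u₂ ≤ θ * BB U₁ U₂ u₁ u₂ + (K ^ 2 / θ + 2 * K * N + K) * EO U₁ U₂ u₁ u₂ := by
  have h1 : |∫ x in U₁ ∩ U₂, dv (rell u₁ (ee u₁ u₂)) x| ≤
      ∫ x in U₁ ∩ U₂, (θ * bb u₁ u₂ x ^ 2 + (K ^ 2 / θ + 2 * K * N + K) *
        ‖gr (ee u₁ u₂) x‖ ^ 2) := by
    refine abs_int_le h.isOpen h.sub h.b_dvrell (((BC.const θ).mul (h.bbb.pow 2)).add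
      ((BC.const _).mul (h.bge.norm.pow 2))) fun x hx => ?_
    rw [h.dv_rell hx]
    refine (h.abs_zd hx).trans ?_
    set q := ‖gr (ee u₁ u₂) x‖ with hq
    have a1 : 2 * K * (q * |bb u₁ u₂ x|) ≤ θ * bb u₁ u₂ x ^ 2 + K ^ 2 / θ * q ^ 2 := by
      rw [← sq_abs (bb u₁ u₂ x)]
      set B := |bb u₁ u₂ x| with hB
      have : 0 ≤ (θ * B - K * q) ^ 2 / θ := by positivity
      have e : (θ * B - K * q) ^ 2 / θ = θ * B ^ 2 - 2 * K * (q * B) + K ^ 2 / θ * q ^ 2 := by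
        field_simp
        ring
      linarith
    linarith
  rw [int_add h.isOpen h.sub ((BC.const θ).mul (h.bbb.pow 2)) ((BC.const _).mul
    (h.bge.norm.pow 2)), integral_const_mul, integral_const_mul] at h1
  have h2 := (abs_le.1 h1).1
  unfold ze BB EO
  linarith

end Pool.Agent.TF
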