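import Pool.Agent.Work.MP_9c254e_an.StatC

/-!
# The static inequalities, part D: the dissipation and Hardy's inequality for `u₁ - u₂`
-/

open scoped ContDiff Topology RealInnerProductSpace
open Set MeasureTheory Filter

namespace Pool.Agent.TF

variable {N : ℕ} {K κ R ε : ℝ} {U₁ U₂ : Set (E N)} {u₁ u₂ : E N → ℝ}

/-! ### the flux -/

theorem St.smooth_fl {K κ R : ℝ} {U : Set (E N)} {u : E N → ℝ} (h : St K κ R U u) (i : Fin N) :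
    ContDiffOn ℝ 1 (fun x => fl u x i) U := by
  have e : (fun x => fl u x i) = fun x => u x ^ 2 * pd i (lap fun z => u z ^ 2) x := rfl
  rw [e]
  exact (h.smooth_sq.of_le (by norm_num)).mul (h.smooth_gA i)

theorem St.bc_fl {K κ R : ℝ} {U : Set (E N)} {u : E N → ℝ} (h : St K κ R U u) : BC U (fl u) :=
  (h.bc_u.pow 2).smul h.bc_gA

theorem St.dv_fl {K κ R : ℝ} {U : Set (E N)} {u : E N → ℝ} (h : St K κ R U u) {x : E N}
    (hx : x ∈ U) : dv (fl u) x = 2 * u x * ⟪gr u x, gr (lap fun z => u z ^ 2) x⟫ +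
      u x ^ 2 * lap (lap fun z => u z ^ 2) x := by
  have h1 : dv (fl u) x = ⟪gr (fun z => u z ^ 2) x, gr (lap fun z => u z ^ 2) x⟫ +
      u x ^ 2 * dv (gr (lap fun z => u z ^ 2)) x := by
    have := dv_smul (f := fun z => u z ^ 2) (G := gr (lap fun z => u z ^ 2)) (x := x)
      ((h.diffAt hx).fun_pow 2) fun i => diffAt_of_c1 h.isOpen (h.smooth_gA i) hx
    exact this
  rw [h1, h.gr_sq hx, real_inner_smul_left, dv_gr]

theorem St.bc_dvfl {K κ R : ℝ} {U : Set (E N)} {u : E N → ℝ} (h : St K κ R U u) :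
    BC U (dv (fl u)) :=
  ((((BC.const 2).mul h.bc_u).mul (h.bc_gr.inner h.bc_gA)).add ((h.bc_u.pow 2).mul h.bc_lA)).congr
    fun _ hx => h.dv_fl hx

theorem St.abs_dvfl {K κ R : ℝ} {U : Set (E N)} {u : E N → ℝ} (h : St K κ R U u) {x : E N}
    (hx : x ∈ U) : |dv (fl u) x| ≤ 3 * K ^ 2 * u x := by
  have hK := h.K_nonneg hx
  have hu := h.nonneg x
  have h1 : |⟪gr u x, gr (lap fun z => u z ^ 2) x⟫| ≤ K * K :=
    (abs_real_inner_le_norm _ _).trans (mul_le_mul (h.bg x hx) (h.bga x hx) (norm_nonneg _) hK)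
  have h2 := h.bla x hx
  have h3 := h.bu x hx
  rw [h.dv_fl hx]
  refine (abs_add_le _ _).trans ?_
  rw [abs_mul, abs_mul (u x ^ 2), abs_of_nonneg (show 0 ≤ 2 * u x by positivity),
    abs_of_nonneg (sq_nonneg (u x))]
  have h4 := mul_le_mul_of_nonneg_left h1 (show 0 ≤ 2 * u x by positivity)
  have h5 : u x ^ 2 * |lap (lap fun z => u z ^ 2) x| ≤ u x * K * K := by
    calc u x ^ 2 * |lap (lap fun z => u z ^ 2) x| = u x * u x * |lap (lap fun z => u z ^ 2) x| := by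
          ring
      _ ≤ u x * K * K := by gcongr
  linarith

theorem St.norm_fl {K κ R : ℝ} {U : Set (E N)} {u : E N → ℝ} (h : St K κ R U u) {x : E N}
    (hx : x ∈ U) : ‖fl u x‖ ≤ K * u x ^ 2 := by
  unfold fl
  rw [norm_smul, Real.norm_eq_abs, abs_of_nonneg (sq_nonneg _), mul_comm]
  exact mul_le_mul_of_nonneg_right (h.bga x hx) (sq_nonneg _)

/-! ### the flux of the pair -/

theorem Pr.smooth_ff (h : Pr K κ R ε U₁ U₂ u₁ u₂) (i : Fin N) :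
    ContDiffOn ℝ 1 (fun x => ff u₁ u₂ x i) (U₁ ∩ U₂) :=
  ((h.s1.smooth_fl i).mono inter_subset_left).sub ((h.s2.smooth_fl i).mono inter_subset_right)

theorem Pr.bff (h : Pr K κ R ε U₁ U₂ u₁ u₂) : BC (U₁ ∩ U₂) (ff u₁ u₂) :=
  (h.s1.bc_fl.mono inter_subset_left).sub (h.s2.bc_fl.mono inter_subset_right)

theorem dv_sub {F G : E N → E N} {x : E N} (hF : ∀ i, DifferentiableAt ℝ (fun y => F y i) x)
    (hG : ∀ i, DifferentiableAt ℝ (fun y => G y i) x) :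
    dv (fun y => F y - G y) x = dv F x - dv G x := by
  unfold dv
  rw [← Finset.sum_sub_distrib]
  exact Finset.sum_congr rfl fun i _ => pd_sub (hF i) (hG i)

theorem Pr.dv_ff (h : Pr K κ R ε U₁ U₂ u₁ u₂) {x : E N} (hx : x ∈ U₁ ∩ U₂) :
    dv (ff u₁ u₂) x = dv (fl u₁) x - dv (fl u₂) x :=
  dv_sub (fun i => diffAt_of_c1 h.s1.isOpen (h.s1.smooth_fl i) hx.1)
    fun i => diffAt_of_c1 h.s2.isOpen (h.s2.smooth_fl i) hx.2

theorem Pr.bdvff (h : Pr K κ R ε U₁ U₂ u₁ u₂) : BC (U₁ ∩ U₂) (dv (ff u₁ u₂)) :=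
  ((h.s1.bc_dvfl.mono inter_subset_left).sub (h.s2.bc_dvfl.mono inter_subset_right)).congr
    fun _ hx => h.dv_ff hx

/-- `F = s ∇b + e ∇c` -/
theorem Pr.inner_ff (h : Pr K κ R ε U₁ U₂ u₁ u₂) {x : E N} (hx : x ∈ U₁ ∩ U₂) :
    ⟪gr (bb u₁ u₂) x, ff u₁ u₂ x⟫ =
      (u₁ x ^ 2 + u₂ x ^ 2) / 2 * ‖gr (bb u₁ u₂) x‖ ^ 2 +
        ee u₁ u₂ x * ⟪gr (bb u₁ u₂) x, (1 / 2 : ℝ) • (gr (lap fun z => u₁ z ^ 2) x +
          gr (lap fun z => u₂ z ^ 2) x)⟫ := by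
  have e1 : ff u₁ u₂ x = ((u₁ x ^ 2 + u₂ x ^ 2) / 2) • gr (bb u₁ u₂) x +
      ee u₁ u₂ x • ((1 / 2 : ℝ) • (gr (lap fun z => u₁ z ^ 2) x +
          gr (lap fun z => u₂ z ^ 2) x)) := by
    rw [h.gr_bb hx]
    unfold ff fl ee
    module
  rw [e1, inner_add_right, real_inner_smul_right, real_inner_smul_right,
    real_inner_self_eq_norm_sq]

noncomputable def WW (U₁ U₂ : Set (E N)) (u₁ u₂ : E N → ℝ) : ℝ :=
  ∫ x in U₁ ∩ U₂, (u₁ x - u₂ x) ^ 2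

theorem ee_eq (x : E N) : ee u₁ u₂ x = (u₁ x - u₂ x) * (u₁ x + u₂ x) := by
  unfold ee
  ring

theorem Pr.t5 (h : Pr K κ R ε U₁ U₂ u₁ u₂) (hc : Cst K κ ε) {x : E N} (hx : x ∈ U₁ ∩ U₂) :
    -⟪gr (bb u₁ u₂) x, ff u₁ u₂ x⟫ ≤
      -(3 / 4 * ((u₁ x ^ 2 + u₂ x ^ 2) / 2 * ‖gr (bb u₁ u₂) x‖ ^ 2)) +
        4 * K ^ 2 * (u₁ x - u₂ x) ^ 2 := by
  have hK : 0 ≤ K := by linarith [hc.K1]
  rw [h.inner_ff hx]
  have h1 : |⟪gr (bb u₁ u₂) x, (1 / 2 : ℝ) • (gr (lap fun z => u₁ z ^ 2) x +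
      gr (lap fun z => u₂ z ^ 2) x)⟫| ≤ ‖gr (bb u₁ u₂) x‖ * K := by
    refine (abs_real_inner_le_norm _ _).trans (mul_le_mul_of_nonneg_left ?_ (norm_nonneg _))
    rw [norm_smul, Real.norm_eq_abs, abs_of_nonneg (by norm_num : (0 : ℝ) ≤ 1 / 2)]
    have := norm_add_le (gr (lap fun z => u₁ z ^ 2) x) (gr (lap fun z => u₂ z ^ 2) x)
    have := h.s1.bga x hx.1
    have := h.s2.bga x hx.2
    linarith
  set g := ‖gr (bb u₁ u₂) x‖ with hg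
  set J := ⟪gr (bb u₁ u₂) x, (1 / 2 : ℝ) • (gr (lap fun z => u₁ z ^ 2) x +
      gr (lap fun z => u₂ z ^ 2) x)⟫ with hJ
  set a := u₁ x with ha
  set b := u₂ x with hb
  have g0 : 0 ≤ g := norm_nonneg _
  have h2 : -(ee u₁ u₂ x * J) ≤ |ee u₁ u₂ x| * (g * K) := by
    have e1 := neg_abs_le (ee u₁ u₂ x * J)
    rw [abs_mul] at e1
    have e2 := mul_le_mul_of_nonneg_left h1 (abs_nonneg (ee u₁ u₂ x))
    linarith
  have h3 : |ee u₁ u₂ x| = |a - b| * (a + b) := by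
    rw [ee_eq, abs_mul, abs_of_pos (h.p_pos hx)]
  have h4 : (a + b) ^ 2 ≤ 2 * (a ^ 2 + b ^ 2) := by nlinarith [sq_nonneg (a - b)]
  have h5 : |a - b| * (a + b) * (g * K) ≤ (a + b) ^ 2 / 16 * g ^ 2 + 4 * K ^ 2 * (a - b) ^ 2 := by
    rw [← sq_abs (a - b)]
    nlinarith [sq_nonneg ((a + b) / 4 * g - 2 * K * |a - b|)]
  have h6 := mul_le_mul_of_nonneg_right h4 (sq_nonneg g)
  rw [h3] at h2
  linarith

/-- the dissipation -/
theorem Pr.r5 (h : Pr K κ R ε U₁ U₂ u₁ u₂) (hc : Cst K κ ε) :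
    κ ^ 4 * ∫ x in U₁ ∩ U₂, bb u₁ u₂ x * dv (ff u₁ u₂) x ≤
      κ ^ 4 * (-(3 / 4 * DD U₁ U₂ u₁ u₂) + 4 * K ^ 2 * WW U₁ U₂ u₁ u₂) +
        4 * K ^ 3 * ze U₁ U₂ u₁ u₂ := by
  have hK := hc.K1
  have hκ := hc.κ0
  have hdv : ∀ x ∈ U₁ ∩ U₂, dv (fun y => bb u₁ u₂ y • ff u₁ u₂ y) x =
      ⟪gr (bb u₁ u₂) x, ff u₁ u₂ x⟫ + bb u₁ u₂ x * dv (ff u₁ u₂) x := fun x hx =>
    dv_smul (h.diff_bb hx) fun i => diffAt_of_c1 h.isOpen (h.smooth_ff i) hx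
  have hb1 : BC (U₁ ∩ U₂) fun x => ⟪gr (bb u₁ u₂) x, ff u₁ u₂ x⟫ := h.bgb.inner h.bff
  have hb2 : BC (U₁ ∩ U₂) fun x => bb u₁ u₂ x * dv (ff u₁ u₂) x := h.bbb.mul h.bdvff
  have hb3 : BC (U₁ ∩ U₂) (dv fun y => bb u₁ u₂ y • ff u₁ u₂ y) :=
    (hb1.add hb2).congr fun x hx => hdv x hx
  have hG : ∀ i, ContDiffOn ℝ 1 (fun x => (bb u₁ u₂ x • ff u₁ u₂ x) i) (U₁ ∩ U₂) := fun i =>
    (h.smooth_bb.of_le (by norm_num)).mul (h.smooth_ff i)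
  -- the divergence
  have h1 : κ ^ 4 * ∫ x in U₁ ∩ U₂, dv (fun y => bb u₁ u₂ y • ff u₁ u₂ y) x ≤
      4 * K ^ 3 * ze U₁ U₂ u₁ u₂ := by
    refine h.lim_le hc (a := fun δ => ∫ x in U₁ ∩ U₂, chi δ u₁ u₂ x *
      dv (fun y => bb u₁ u₂ y • ff u₁ u₂ y) x) (C' := 64 * K ^ 3 * mB N K κ R) (by positivity)
      (h.tendsto_chi hb3) fun δ hδ hδκ hδ1 => ?_
    rw [h.ibp' hδ hG]
    have e1 := h.abs_int_Gam_le hδ (G := fun x => bb u₁ u₂ x • ff u₁ u₂ x) (h.bbb.smul h.bff)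
      (D := fun x => 4 * K ^ 2 * (u₁ x - u₂ x) ^ 2 + 64 * K ^ 2 * δ)
      (((BC.const _).mul (h.bw.pow 2)).add (BC.const _)) (fun x hx h0 => ?_) (by linarith)
    · have e2 : K * ∫ x in U₁ ∩ U₂, lam δ u₁ u₂ x *
          (4 * K ^ 2 * (u₁ x - u₂ x) ^ 2 + 64 * K ^ 2 * δ) =
          4 * K ^ 3 * (∫ x in U₁ ∩ U₂, lam δ u₁ u₂ x * (u₁ x - u₂ x) ^ 2) +
            64 * K ^ 3 * δ * ∫ x in U₁ ∩ U₂, lam δ u₁ u₂ x := by
        rw [← integral_const_mul, ← integral_const_mul, ← integral_const_mul,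
          ← int_add h.isOpen h.sub ((BC.const _).mul ((h.bc_lam hδ _).mul (h.bw.pow 2)))
            ((BC.const _).mul (h.bc_lam hδ _))]
        refine integral_congr_ae (Eventually.of_forall fun x => ?_)
        change K * (lam δ u₁ u₂ x * (4 * K ^ 2 * (u₁ x - u₂ x) ^ 2 + 64 * K ^ 2 * δ)) = _
        ring
      rw [e2] at e1
      have e3 := mul_le_mul_of_nonneg_left (h.mass' hc hδ hδκ)
        (show 0 ≤ 64 * K ^ 3 * δ by positivity)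
      have e4 := (abs_le.1 e1).1
      linarith
    · obtain ⟨m1, m2⟩ := h.min_le hδ h0
      have m3 := h.layer hδ h0
      rw [norm_smul, Real.norm_eq_abs]
      have e2 : ‖ff u₁ u₂ x‖ ≤ K * (u₁ x ^ 2 + u₂ x ^ 2) := by
        unfold ff
        refine (norm_sub_le _ _).trans ?_
        have := h.s1.norm_fl hx.1
        have := h.s2.norm_fl hx.2
        linarith
      have p0 := h.s1.pos x hx.1
      have p1 := h.s2.pos x hx.2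
      have e3 : u₁ x ^ 2 + u₂ x ^ 2 ≤ 2 * (u₁ x - u₂ x) ^ 2 + 32 * δ := by
        have q1 : u₁ x + u₂ x ≤ |u₁ x - u₂ x| + 4 * δ := by
          have := le_abs_self (u₁ x - u₂ x)
          have := neg_abs_le (u₁ x - u₂ x)
          rcases m3.2.1 with h7 | h7
          · linarith
          · linarith
        have q2 := pow_le_pow_left₀ (h.p_pos hx).le q1 2
        have q3 : (|u₁ x - u₂ x| + 4 * δ) ^ 2 ≤ 2 * |u₁ x - u₂ x| ^ 2 + 32 * δ ^ 2 := by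
          nlinarith [sq_nonneg (|u₁ x - u₂ x| - 4 * δ)]
        rw [sq_abs] at q3
        have q4 : δ ^ 2 ≤ δ := by nlinarith
        have q5 : u₁ x ^ 2 + u₂ x ^ 2 ≤ (u₁ x + u₂ x) ^ 2 := by nlinarith [mul_pos p0 p1]
        linarith
      calc |bb u₁ u₂ x| * ‖ff u₁ u₂ x‖
          ≤ (2 * K) * (K * (2 * (u₁ x - u₂ x) ^ 2 + 32 * δ)) := by
            refine mul_le_mul (h.abs_bb hx) (e2.trans ?_) (norm_nonneg _) (by linarith)
            exact mul_le_mul_of_nonneg_left e3 (by linarith)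
        _ = 4 * K ^ 2 * (u₁ x - u₂ x) ^ 2 + 64 * K ^ 2 * δ := by ring
  rw [setIntegral_congr_fun h.isOpen.measurableSet hdv, int_add h.isOpen h.sub hb1 hb2] at h1
  -- the dissipation
  have h2 := int_le2 h.isOpen h.sub (f := fun x => -⟪gr (bb u₁ u₂) x, ff u₁ u₂ x⟫)
    (g₁ := fun x => -(3 / 4 * ((u₁ x ^ 2 + u₂ x ^ 2) / 2 * ‖gr (bb u₁ u₂) x‖ ^ 2)))
    (c := 4 * K ^ 2) hb1.neg ((BC.const (3 / 4)).mul h.bdd).neg (h.bw.pow 2)
    fun x hx => h.t5 hc hx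
  rw [integral_neg, integral_neg, integral_const_mul] at h2
  have h3 := mul_le_mul_of_nonneg_left h2 (show 0 ≤ κ ^ 4 by positivity)
  unfold DD WW
  linarith

/-! ### Hardy's inequality for `u₁ - u₂` -/

noncomputable def E2 (U₁ U₂ : Set (E N)) (u₁ u₂ : E N → ℝ) : ℝ :=
  ∫ x in U₁ ∩ U₂, ee u₁ u₂ x ^ 2

theorem Pr.diff_w (h : Pr K κ R ε U₁ U₂ u₁ u₂) {x : E N} (hx : x ∈ U₁ ∩ U₂) :
    DifferentiableAt ℝ (fun y => u₁ y - u₂ y) x := (h.s1.diffAt hx.1).fun_sub (h.s2.diffAt hx.2)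

theorem Pr.dv6 (h : Pr K κ R ε U₁ U₂ u₁ u₂) {x : E N} (hx : x ∈ U₁ ∩ U₂) :
    dv (fun y => ((u₁ y - u₂ y) * ee u₁ u₂ y) • gr u₁ y) x =
      2 * (u₁ x - u₂ x) * ⟪gr (ee u₁ u₂) x, gr u₁ x⟫ -
        (u₁ x - u₂ x) ^ 2 * ⟪gr u₁ x + gr u₂ x, gr u₁ x⟫ +
        (u₁ x - u₂ x) * ee u₁ u₂ x * lap u₁ x := by
  have dw := h.diff_w hx
  have de := h.diff_ee hx
  rw [dv_smul (dw.fun_mul de) fun i => diffAt_of_c1 h.s1.isOpen (h.s1.smooth_gr i) hx.1,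
    dv_gr, gr_mul dw de, gr_sub (h.s1.diffAt hx.1) (h.s2.diffAt hx.2), h.gr_ee hx]
  unfold ee
  simp only [inner_add_left, inner_sub_left, real_inner_smul_left]
  ring

theorem Pr.r6 (h : Pr K κ R ε U₁ U₂ u₁ u₂) (hc : Cst K κ ε) :
    κ ^ 8 * WW U₁ U₂ u₁ u₂ ≤
      8 * K ^ 2 * (κ ^ 4 * (EO U₁ U₂ u₁ u₂ + E2 U₁ U₂ u₁ u₂)) +
        4 * K ^ 3 * ze U₁ U₂ u₁ u₂ := by
  have hK := hc.K1
  have hκ := hc.κ0
  have hκ1 := hc.κ1
  have hbG : BC (U₁ ∩ U₂) fun y => ((u₁ y - u₂ y) * ee u₁ u₂ y) • gr u₁ y :=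
    (h.bw.mul h.bee).smul h.bg1
  have hbc : BC (U₁ ∩ U₂) fun x => 2 * (u₁ x - u₂ x) * ⟪gr (ee u₁ u₂) x, gr u₁ x⟫ -
        (u₁ x - u₂ x) ^ 2 * ⟪gr u₁ x + gr u₂ x, gr u₁ x⟫ +
        (u₁ x - u₂ x) * ee u₁ u₂ x * lap u₁ x :=
    ((((BC.const 2).mul h.bw).mul (h.bge.inner h.bg1)).sub
      ((h.bw.pow 2).mul ((h.bg1.add h.bg2).inner h.bg1))).add
      ((h.bw.mul h.bee).mul (h.s1.bc_lap.mono inter_subset_left))
  have hb3 : BC (U₁ ∩ U₂) (dv fun y => ((u₁ y - u₂ y) * ee u₁ u₂ y) • gr u₁ y) :=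
    hbc.congr fun x hx => h.dv6 hx
  have hG : ∀ i, ContDiffOn ℝ 1 (fun x => (((u₁ x - u₂ x) * ee u₁ u₂ x) • gr u₁ x) i)
      (U₁ ∩ U₂) := fun i =>
    (((h.s1.smooth.mono inter_subset_left).sub (h.s2.smooth.mono inter_subset_right)).of_le
      (by norm_num)).mul (h.smooth_ee.of_le (by norm_num)) |>.mul (h.smooth_g1 i)
  have h1 : κ ^ 4 * -(∫ x in U₁ ∩ U₂, dv (fun y => ((u₁ y - u₂ y) * ee u₁ u₂ y) • gr u₁ y) x) ≤
      2 * K ^ 3 * ze U₁ U₂ u₁ u₂ := by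
    refine h.lim_le hc (a := fun δ => -∫ x in U₁ ∩ U₂, chi δ u₁ u₂ x *
      dv (fun y => ((u₁ y - u₂ y) * ee u₁ u₂ y) • gr u₁ y) x) (C' := 0) (by positivity)
      (h.tendsto_chi hb3).neg fun δ hδ hδκ hδ1 => ?_
    rw [h.ibp' hδ hG, neg_neg, mul_zero, add_zero]
    have e1 := h.abs_int_Gam_le hδ hbG (D := fun x => 2 * K ^ 2 * (u₁ x - u₂ x) ^ 2)
      ((BC.const _).mul (h.bw.pow 2)) (fun x hx h0 => ?_) (by linarith)
    · refine (le_abs_self _).trans (e1.trans (le_of_eq ?_))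
      rw [← integral_const_mul, ← integral_const_mul]
      refine integral_congr_ae (Eventually.of_forall fun x => ?_)
      change K * (lam δ u₁ u₂ x * (2 * K ^ 2 * (u₁ x - u₂ x) ^ 2)) = _
      ring
    · have p0 := h.p_pos hx
      have e2 : (u₁ x - u₂ x) * ee u₁ u₂ x = (u₁ x - u₂ x) ^ 2 * (u₁ x + u₂ x) := by
        rw [ee_eq]
        ring
      rw [norm_smul, Real.norm_eq_abs, e2, abs_mul, abs_of_nonneg (sq_nonneg _), abs_of_pos p0]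
      have e3 : u₁ x + u₂ x ≤ 2 * K := by linarith [h.s1.bu x hx.1, h.s2.bu x hx.2]
      calc (u₁ x - u₂ x) ^ 2 * (u₁ x + u₂ x) * ‖gr u₁ x‖
          ≤ (u₁ x - u₂ x) ^ 2 * (2 * K) * K := by
            have := h.s1.bg x hx.1
            gcongr
        _ = 2 * K ^ 2 * (u₁ x - u₂ x) ^ 2 := by ring
  rw [setIntegral_congr_fun h.isOpen.measurableSet fun x hx => h.dv6 hx] at h1
  have h2 := int_le3 h.isOpen h.sub (f := fun x => κ ^ 4 / 2 * (u₁ x - u₂ x) ^ 2)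
    (g₁ := fun x => κ ^ 2 * -(2 * (u₁ x - u₂ x) * ⟪gr (ee u₁ u₂) x, gr u₁ x⟫ -
        (u₁ x - u₂ x) ^ 2 * ⟪gr u₁ x + gr u₂ x, gr u₁ x⟫ +
        (u₁ x - u₂ x) * ee u₁ u₂ x * lap u₁ x))
    (c := 4 * K ^ 2) (d := 4 * K ^ 2) ((BC.const _).mul (h.bw.pow 2))
    ((BC.const _).mul hbc.neg) (h.bge.norm.pow 2) (h.bee.pow 2) fun x hx => by
      have e4 := h.s1.bl x hx.1
      have e5 : |⟪gr (ee u₁ u₂) x, gr u₁ x⟫| ≤ K * ‖gr (ee u₁ u₂) x‖ := by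
        refine (abs_real_inner_le_norm _ _).trans ?_
        rw [mul_comm]
        exact mul_le_mul_of_nonneg_right (h.s1.bg x hx.1) (norm_nonneg _)
      have e6 : κ ^ 2 * (u₁ x - u₂ x) ^ 2 ≤
          (u₁ x - u₂ x) ^ 2 * ⟪gr u₁ x + gr u₂ x, gr u₁ x⟫ + 2 * ee u₁ u₂ x ^ 2 := by
        rcases lt_or_ge (u₁ x) κ with hl | hl
        · obtain ⟨i1, i2⟩ := h.inner_ge hc hx hl
          have i3 : κ ^ 2 ≤ ⟪gr u₁ x + gr u₂ x, gr u₁ x⟫ := by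
            rw [inner_add_left, real_inner_self_eq_norm_sq, real_inner_comm (gr u₁ x) (gr u₂ x)]
            have := pow_le_pow_left₀ hκ.le i2 2
            nlinarith [sq_nonneg κ]
          have i4 := mul_le_mul_of_nonneg_right i3 (sq_nonneg (u₁ x - u₂ x))
          nlinarith [sq_nonneg (ee u₁ u₂ x)]
        · have i1 : -(K * ε) ≤ ⟪gr u₁ x + gr u₂ x, gr u₁ x⟫ := by
            have j1 : ⟪gr u₁ x + gr u₂ x, gr u₁ x⟫ = 2 * ‖gr u₁ x‖ ^ 2 -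
                ⟪gr u₁ x - gr u₂ x, gr u₁ x⟫ := by
              rw [inner_add_left, inner_sub_left, real_inner_self_eq_norm_sq]
              ring
            have j2 : ⟪gr u₁ x - gr u₂ x, gr u₁ x⟫ ≤ ε * K :=
              (real_inner_le_norm _ _).trans (mul_le_mul (h.cg x hx) (h.s1.bg x hx.1)
                (norm_nonneg _) hc.ε0.le)
            rw [j1]
            nlinarith [sq_nonneg ‖gr u₁ x‖]
          have i2 := hc.ε_le.2.2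
          have i3 : -(κ ^ 2) ≤ ⟪gr u₁ x + gr u₂ x, gr u₁ x⟫ := by
            have := sq_nonneg κ
            nlinarith
          have i4 := mul_le_mul_of_nonneg_right i3 (sq_nonneg (u₁ x - u₂ x))
          have i5 : κ ^ 2 * (u₁ x - u₂ x) ^ 2 ≤ ee u₁ u₂ x ^ 2 := by
            rw [ee_eq, mul_pow, mul_comm]
            have : κ ≤ u₁ x + u₂ x := by linarith [h.s2.nonneg x]
            have := pow_le_pow_left₀ hκ.le this 2
            exact mul_le_mul_of_nonneg_left this (sq_nonneg _)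
          nlinarith
      set e := ee u₁ u₂ x with he
      set w := u₁ x - u₂ x with hw
      set q := ‖gr (ee u₁ u₂) x‖ with hq
      set I1 := ⟪gr (ee u₁ u₂) x, gr u₁ x⟫ with hI1
      set I2 := ⟪gr u₁ x + gr u₂ x, gr u₁ x⟫ with hI2
      set l := lap u₁ x with hl
      have q0 : 0 ≤ q := norm_nonneg _
      have t1 : κ ^ 2 * (2 * w * I1) ≤ κ ^ 4 / 4 * w ^ 2 + 4 * K ^ 2 * q ^ 2 := by
        have a1 : I1 ^ 2 ≤ (K * q) ^ 2 := sq_le_sq' (abs_le.1 e5).1 (abs_le.1 e5).2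
        nlinarith [sq_nonneg (κ ^ 2 / 2 * w - 2 * I1)]
      have t2 : κ ^ 2 * (w * e * l) ≤ κ ^ 4 / 4 * w ^ 2 + K ^ 2 * e ^ 2 := by
        have a1 : l ^ 2 ≤ K ^ 2 := sq_le_sq' (abs_le.1 e4).1 (abs_le.1 e4).2
        have a2 := mul_le_mul_of_nonneg_right a1 (sq_nonneg e)
        nlinarith [sq_nonneg (κ ^ 2 / 2 * w - e * l)]
      have t3 := mul_le_mul_of_nonneg_left e6 (sq_nonneg κ)
      have t4 : κ ^ 2 * (2 * e ^ 2) ≤ 2 * K ^ 2 * e ^ 2 := by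
        have a1 : κ ^ 2 ≤ K ^ 2 := pow_le_pow_left₀ hκ.le (by linarith) 2
        have a2 := mul_le_mul_of_nonneg_right a1 (sq_nonneg e)
        linarith
      nlinarith [sq_nonneg (K * e)]
  rw [integral_const_mul, integral_const_mul, integral_neg] at h2
  have h3 := h.ze_nonneg hc
  have h4 : κ ^ 2 * (2 * K ^ 3 * ze U₁ U₂ u₁ u₂) ≤ 1 * (2 * K ^ 3 * ze U₁ U₂ u₁ u₂) :=
    mul_le_mul_of_nonneg_right (pow_le_one₀ hκ.le hκ1) (by positivity)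
  have h5 := mul_le_mul_of_nonneg_left h1 (sq_nonneg κ)
  have h6 := mul_le_mul_of_nonneg_left h2 (show 0 ≤ κ ^ 4 by positivity)
  unfold WW EO E2
  linarith

end Pool.Agent.TF
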