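import Pool.Agent.Work.MP_9c254e_an.StatD

/-!
# The static inequalities, part E: the strips between the domains and the main inequality
-/

open scoped ContDiff Topology RealInnerProductSpace
open Set MeasureTheory Filter

namespace Pool.Agent.TF

variable {N : ℕ} {K κ R ε : ℝ} {U₁ U₂ : Set (E N)} {u₁ u₂ : E N → ℝ}

theorem Pr.symm (h : Pr K κ R ε U₁ U₂ u₁ u₂) : Pr K κ R ε U₂ U₁ u₂ u₁ :=
  ⟨h.s2, h.s1, fun x => by rw [abs_sub_comm]; exact h.cu x, fun x hx => by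
    rw [norm_sub_rev]
    exact h.cg x ⟨hx.2, hx.1⟩⟩

theorem lam_symm (δ : ℝ) (u₁ u₂ : E N → ℝ) (x : E N) : lam δ u₂ u₁ x = lam δ u₁ u₂ x := by
  unfold lam
  ring

/-- the cut-off function of the strip -/
noncomputable def chs (δ : ℝ) (u₁ u₂ : E N → ℝ) (x : E N) : ℝ := cut δ u₁ x * (1 - cut δ u₂ x)

theorem chs_nonneg (δ : ℝ) (u₁ u₂ : E N → ℝ) (x : E N) : 0 ≤ chs δ u₁ u₂ x :=
  mul_nonneg (cut_nonneg _ _ _) (by linarith [cut_le_one δ u₂ x])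

theorem chs_le_one (δ : ℝ) (u₁ u₂ : E N → ℝ) (x : E N) : chs δ u₁ u₂ x ≤ 1 :=
  mul_le_one₀ (cut_le_one _ _ _) (by linarith [cut_le_one δ u₂ x])
    (by linarith [cut_nonneg δ u₂ x])

theorem Pr.smooth_chs (h : Pr K κ R ε U₁ U₂ u₁ u₂) {δ : ℝ} (hδ : 0 < δ) :
    ContDiff ℝ 1 (chs δ u₁ u₂) :=
  (h.s1.cut_contDiff hδ).mul (contDiff_const.sub (h.s2.cut_contDiff hδ))

theorem Pr.gr_chs (h : Pr K κ R ε U₁ U₂ u₁ u₂) {δ : ℝ} (hδ : 0 < δ) (x : E N) :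
    gr (chs δ u₁ u₂) x =
      (mu δ u₁ x * (1 - cut δ u₂ x)) • gr u₁ x - (mu δ u₂ x * cut δ u₁ x) • gr u₂ x := by
  have h1 := (h.s1.cut_contDiff hδ).differentiable (by norm_num) x
  have h2 := (h.s2.cut_contDiff hδ).differentiable (by norm_num) x
  have h3 : gr (chs δ u₁ u₂) x = gr (fun y => cut δ u₁ y * (1 - cut δ u₂ y)) x := rfl
  have h4 : gr (fun y => 1 - cut δ u₂ y) x = -(mu δ u₂ x • gr u₂ x) := by
    rw [gr_sub (differentiableAt_const _) h2, ← h.s2.gr_cut hδ]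
    have : gr (fun _ : E N => (1 : ℝ)) x = 0 := by
      ext i
      simp [pd]
    rw [this, zero_sub]
  rw [h3, gr_mul h1 (h2.const_sub 1), h4, h.s1.gr_cut hδ]
  module

/-- the field of the strip -/
noncomputable def gs (u : E N → ℝ) (x : E N) : E N := (u x ^ 2) • gr u x

theorem St.smooth_gs {U : Set (E N)} {u : E N → ℝ} (h : St K κ R U u) (i : Fin N) :
    ContDiffOn ℝ 1 (fun x => gs u x i) U :=
  (h.smooth_sq.of_le (by norm_num)).mul (h.smooth_gr i)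

theorem St.bc_gs {U : Set (E N)} {u : E N → ℝ} (h : St K κ R U u) : BC U (gs u) :=
  (h.bc_u.pow 2).smul h.bc_gr

theorem St.dv_gs {U : Set (E N)} {u : E N → ℝ} (h : St K κ R U u) {x : E N}
    (hx : x ∈ U) : dv (gs u) x = 2 * u x * ‖gr u x‖ ^ 2 + u x ^ 2 * lap u x := by
  have h1 : dv (gs u) x = ⟪gr (fun z => u z ^ 2) x, gr u x⟫ + u x ^ 2 * dv (gr u) x := by
    have := dv_smul (f := fun z => u z ^ 2) (G := gr u) (x := x)
      ((h.diffAt hx).fun_pow 2) fun i => diffAt_of_c1 h.isOpen (h.smooth_gr i) hx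
    exact this
  rw [h1, h.gr_sq hx, real_inner_smul_left, dv_gr, real_inner_self_eq_norm_sq]

theorem St.bc_dvgs {U : Set (E N)} {u : E N → ℝ} (h : St K κ R U u) : BC U (dv (gs u)) :=
  ((((BC.const 2).mul h.bc_u).mul (h.bc_gr.norm.pow 2)).add ((h.bc_u.pow 2).mul h.bc_lap)).congr
    fun _ hx => h.dv_gs hx

theorem Pr.tsupport_chs (h : Pr K κ R ε U₁ U₂ u₁ u₂) {δ : ℝ} (hδ : 0 < δ) :
    tsupport (chs δ u₁ u₂) ⊆ U₁ :=
  (tsupport_mul_subset_left).trans ((h.s1.tsupport_cut hδ).trans (h.s1.sup_subset hδ))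

theorem Pr.compact_chs (h : Pr K κ R ε U₁ U₂ u₁ u₂) {δ : ℝ} (hδ : 0 < δ) :
    HasCompactSupport (chs δ u₁ u₂) := HasCompactSupport.mul_right (h.s1.compact_cut hδ)

/-- integration by parts on the strip -/
theorem Pr.strip_le (h : Pr K κ R ε U₁ U₂ u₁ u₂) (hc : Cst K κ ε) {δ : ℝ} (hδ : 0 < δ)
    (hδκ : 2 * δ + ε < κ) (hδ1 : δ ≤ 1) :
    ∫ x in U₁, chs δ u₁ u₂ x * dv (gs u₁) x ≤
      2 * K ^ 2 * (∫ x in U₁ ∩ U₂, lam δ u₁ u₂ x * (u₁ x - u₂ x) ^ 2) +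
        δ * (8 * K ^ 2 * mB N K κ R) := by
  have hK := hc.K1
  have h1 := ibp_dv h.s1.isOpen (h.smooth_chs hδ) (h.compact_chs hδ) (h.tsupport_chs hδ)
    h.s1.smooth_gs
  have h2 : ∫ x in U₁, chs δ u₁ u₂ x * dv (gs u₁) x = ∫ x, chs δ u₁ u₂ x * dv (gs u₁) x := by
    refine setIntegral_eq_integral_of_forall_compl_eq_zero fun x hx => ?_
    rw [image_eq_zero_of_notMem_tsupport fun h' => hx (h.tsupport_chs hδ h'), zero_mul]
  set f : E N → ℝ := fun x => lam δ u₁ u₂ x * (2 * K ^ 2 * (u₁ x - u₂ x) ^ 2 + 8 * K ^ 2 * δ)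
    with hf
  have hfb : BC (U₁ ∩ U₂) f :=
    (h.bc_lam hδ _).mul (((BC.const _).mul (h.bw.pow 2)).add (BC.const _))
  have h3 : ∀ x, -⟪gr (chs δ u₁ u₂) x, gs u₁ x⟫ ≤ (U₁ ∩ U₂).indicator f x := by
    intro x
    have a0 : 0 ≤ mu δ u₁ x * (1 - cut δ u₂ x) :=
      mul_nonneg (mu_nonneg hδ _ _) (by linarith [cut_le_one δ u₂ x])
    have a1 : 0 ≤ mu δ u₂ x * cut δ u₁ x := mul_nonneg (mu_nonneg hδ _ _) (cut_nonneg _ _ _)
    have a2 : -⟪gr (chs δ u₁ u₂) x, gs u₁ x⟫ = -(mu δ u₁ x * (1 - cut δ u₂ x) *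
        (u₁ x ^ 2 * ‖gr u₁ x‖ ^ 2)) + mu δ u₂ x * cut δ u₁ x * (u₁ x ^ 2 *
        ⟪gr u₂ x, gr u₁ x⟫) := by
      unfold gs
      rw [h.gr_chs hδ, inner_sub_left, real_inner_smul_left, real_inner_smul_left,
        real_inner_smul_right, real_inner_smul_right, real_inner_self_eq_norm_sq]
      ring
    have a3 : 0 ≤ mu δ u₁ x * (1 - cut δ u₂ x) * (u₁ x ^ 2 * ‖gr u₁ x‖ ^ 2) :=
      mul_nonneg a0 (by positivity)
    rcases eq_or_ne (mu δ u₂ x * cut δ u₁ x) 0 with h0 | h0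
    · have a4 : 0 ≤ (U₁ ∩ U₂).indicator f x := by
        refine indicator_nonneg (fun y _ => ?_) x
        exact mul_nonneg (lam_nonneg hδ _ _ _) (by positivity)
      rw [a2, h0]
      linarith
    · obtain ⟨b1, b2⟩ := mu_ne hδ (left_ne_zero_of_mul h0)
      have b3 : δ < u₁ x := by
        by_contra hh
        exact right_ne_zero_of_mul h0 (cut_eq_zero hδ (not_lt.1 hh))
      have hx : x ∈ U₁ ∩ U₂ := ⟨h.s1.mem_of_pos (by linarith), h.s2.mem_of_pos (by linarith)⟩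
      rw [indicator_of_mem hx, a2]
      have b4 : ⟪gr u₂ x, gr u₁ x⟫ ≤ K * K :=
        (real_inner_le_norm _ _).trans (mul_le_mul (h.s2.bg x hx.2) (h.s1.bg x hx.1)
          (norm_nonneg _) (by linarith))
      have b5 : u₁ x ^ 2 ≤ 2 * (u₁ x - u₂ x) ^ 2 + 8 * δ := by
        have c1 : u₁ x ≤ |u₁ x - u₂ x| + 2 * δ := by linarith [le_abs_self (u₁ x - u₂ x)]
        have c2 := pow_le_pow_left₀ (h.s1.nonneg x) c1 2
        have c3 : (|u₁ x - u₂ x| + 2 * δ) ^ 2 ≤ 2 * |u₁ x - u₂ x| ^ 2 + 8 * δ ^ 2 := by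
          nlinarith [sq_nonneg (|u₁ x - u₂ x| - 2 * δ)]
        rw [sq_abs] at c3
        have c4 : δ ^ 2 ≤ δ := by nlinarith
        linarith
      have b6 : u₁ x ^ 2 * ⟪gr u₂ x, gr u₁ x⟫ ≤
          2 * K ^ 2 * (u₁ x - u₂ x) ^ 2 + 8 * K ^ 2 * δ := by
        have c1 := mul_le_mul_of_nonneg_left b4 (sq_nonneg (u₁ x))
        have c2 := mul_le_mul_of_nonneg_right b5 (show 0 ≤ K * K by positivity)
        linarith
      have b7 : mu δ u₂ x * cut δ u₁ x ≤ lam δ u₁ u₂ x := by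
        have : 0 ≤ mu δ u₁ x * cut δ u₂ x := mul_nonneg (mu_nonneg hδ _ _) (cut_nonneg _ _ _)
        unfold lam
        linarith
      have b8 := mul_le_mul_of_nonneg_left b6 a1
      have b9 := mul_le_mul_of_nonneg_right b7
        (show 0 ≤ 2 * K ^ 2 * (u₁ x - u₂ x) ^ 2 + 8 * K ^ 2 * δ by positivity)
      change _ ≤ lam δ u₁ u₂ x * (2 * K ^ 2 * (u₁ x - u₂ x) ^ 2 + 8 * K ^ 2 * δ)
      linarith
  have hi1 : Integrable fun x => ⟪gr (chs δ u₁ u₂) x, gs u₁ x⟫ := by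
    have e : (fun x => ⟪gr (chs δ u₁ u₂) x, gs u₁ x⟫) =
        fun x => ∑ i, pd i (chs δ u₁ u₂) x * gs u₁ x i := by
      funext x
      rw [inner_eq]
      rfl
    rw [e]
    refine integrable_finsetSum _ fun i _ => ?_
    exact integrable_cut_mul h.s1.isOpen (continuous_pd (h.smooth_chs hδ))
      ((h.compact_chs hδ).of_isClosed_subset (isClosed_tsupport _) (tsupport_pd_subset _ i))
      ((tsupport_pd_subset _ i).trans (h.tsupport_chs hδ)) (h.s1.smooth_gs i).continuousOn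
  have hi2 : Integrable ((U₁ ∩ U₂).indicator f) :=
    (hfb.integrableOn h.isOpen h.sub).integrable_indicator h.isOpen.measurableSet
  have h4 := integral_mono hi1.neg hi2 h3
  rw [integral_indicator h.isOpen.measurableSet] at h4
  have h5 : ∫ x in U₁ ∩ U₂, f x =
      2 * K ^ 2 * (∫ x in U₁ ∩ U₂, lam δ u₁ u₂ x * (u₁ x - u₂ x) ^ 2) +
        8 * K ^ 2 * δ * ∫ x in U₁ ∩ U₂, lam δ u₁ u₂ x := by
    rw [← integral_const_mul, ← integral_const_mul,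
      ← int_add h.isOpen h.sub ((BC.const _).mul ((h.bc_lam hδ _).mul (h.bw.pow 2)))
        ((BC.const _).mul (h.bc_lam hδ _))]
    refine integral_congr_ae (Eventually.of_forall fun x => ?_)
    change lam δ u₁ u₂ x * (2 * K ^ 2 * (u₁ x - u₂ x) ^ 2 + 8 * K ^ 2 * δ) = _
    ring
  have h6 := mul_le_mul_of_nonneg_left (h.mass' hc hδ hδκ) (show 0 ≤ 8 * K ^ 2 * δ by positivity)
  have h7 : ∫ x, (fun y => -⟪gr (chs δ u₁ u₂) y, gs u₁ y⟫) x =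
      -∫ x, ⟪gr (chs δ u₁ u₂) x, gs u₁ x⟫ := integral_neg _
  have h8 : ∫ x, (-fun y => ⟪gr (chs δ u₁ u₂) y, gs u₁ y⟫) x =
      -∫ x, ⟪gr (chs δ u₁ u₂) x, gs u₁ x⟫ := h7
  rw [h2, h1]
  rw [h8, h5] at h4
  linarith

theorem Pr.strip_tendsto (h : Pr K κ R ε U₁ U₂ u₁ u₂) :
    Tendsto (fun δ => ∫ x in U₁, chs δ u₁ u₂ x * dv (gs u₁) x) (𝓝[>] 0)
      (𝓝 (∫ x in U₁ \ U₂, dv (gs u₁) x)) := by
  have hO := h.s1.isOpen
  have e : ∫ x in U₁ \ U₂, dv (gs u₁) x = ∫ x in U₁, U₂ᶜ.indicator (dv (gs u₁)) x := by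
    rw [setIntegral_indicator h.s2.isOpen.measurableSet.compl]
    rfl
  rw [e]
  refine tendsto_integral_filter_of_dominated_convergence (fun x => ‖dv (gs u₁) x‖) ?_ ?_ ?_ ?_
  · filter_upwards [self_mem_nhdsWithin] with δ hδ
    have hb : BC U₁ fun x => chs δ u₁ u₂ x * dv (gs u₁) x :=
      ((bc_cut h.s1 hδ _).mul ((BC.const 1).sub (bc_cut h.s2 hδ _))).mul h.s1.bc_dvgs
    exact (hb.integrableOn hO h.s1.sub).aestronglyMeasurable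
  · refine Eventually.of_forall fun δ => Eventually.of_forall fun x => ?_
    rw [norm_mul, Real.norm_eq_abs, abs_of_nonneg (chs_nonneg _ _ _ _)]
    exact mul_le_of_le_one_left (norm_nonneg _) (chs_le_one _ _ _ _)
  · exact (h.s1.bc_dvgs.norm.integrableOn hO h.s1.sub)
  · refine (ae_restrict_iff' hO.measurableSet).2 (Eventually.of_forall fun x hx => ?_)
    have h1 := h.s1.pos x hx
    have h3 : ∀ᶠ δ in 𝓝[>] (0 : ℝ), δ < u₁ x / 2 :=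
      mem_nhdsWithin_of_mem_nhds (Iio_mem_nhds (by positivity))
    refine tendsto_const_nhds.congr' ?_
    by_cases hx2 : x ∈ U₂
    · have h2 := h.s2.pos x hx2
      have h4 : ∀ᶠ δ in 𝓝[>] (0 : ℝ), δ < u₂ x / 2 :=
        mem_nhdsWithin_of_mem_nhds (Iio_mem_nhds (by positivity))
      filter_upwards [h3, h4, self_mem_nhdsWithin] with δ hδ hδ2 hδ0
      rw [indicator_of_notMem (fun hh : x ∈ U₂ᶜ => hh hx2)]
      unfold chs
      rw [cut_eq_one (u := u₂) hδ0 (by linarith)]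
      ring
    · filter_upwards [h3, self_mem_nhdsWithin] with δ hδ hδ0
      rw [indicator_of_mem hx2]
      unfold chs
      rw [cut_eq_one (u := u₁) hδ0 (by linarith),
        cut_eq_zero (u := u₂) hδ0 (by rw [h.s2.zero x hx2]; exact le_of_lt hδ0)]
      ring

theorem integrableOn_diff {K κ R : ℝ} {U V : Set (E N)} {u : E N → ℝ} (h : St K κ R U u)
    {f : E N → ℝ} (hf : BC U f) : IntegrableOn f (U \ V) :=
  (hf.integrableOn h.isOpen h.sub).mono_set sdiff_subset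

theorem Pr.strip_ge (h : Pr K κ R ε U₁ U₂ u₁ u₂) (hc : Cst K κ ε) :
    κ ^ 2 * ∫ x in U₁ \ U₂, u₁ x ≤ ∫ x in U₁ \ U₂, dv (gs u₁) x := by
  have hK := hc.K1
  have hκ := hc.κ0
  obtain ⟨e1, -, e3⟩ := hc.ε_le
  rw [← integral_const_mul]
  refine setIntegral_mono_on (integrableOn_diff h.s1 ((BC.const _).mul h.s1.bc_u))
    (integrableOn_diff h.s1 h.s1.bc_dvgs)
    (h.s1.isOpen.measurableSet.diff h.s2.isOpen.measurableSet) fun x hx => ?_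
  have h1 := h.s1.pos x hx.1
  have h2 : u₁ x ≤ ε := by
    have := h.cu x
    rw [h.s2.zero x hx.2, sub_zero, abs_of_pos h1] at this
    exact this
  have h3 := h.s1.nd x hx.1 (by linarith [hc.ε0])
  have h4 := (abs_le.1 (h.s1.bl x hx.1)).1
  have h5 := pow_le_pow_left₀ hκ.le h3 2
  rw [h.s1.dv_gs hx.1]
  have h6 := mul_le_mul_of_nonneg_left h5 (show 0 ≤ 2 * u₁ x by positivity)
  have h7 := mul_le_mul_of_nonneg_left h4 (sq_nonneg (u₁ x))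
  have h8 : u₁ x ^ 2 * K ≤ u₁ x * κ ^ 2 := by
    have : K * u₁ x ≤ κ ^ 2 := by
      have := mul_le_mul_of_nonneg_left h2 (show 0 ≤ K by linarith)
      have : 0 ≤ K * ε := mul_nonneg (by linarith) hc.ε0.le
      linarith
    nlinarith
  linarith

theorem Pr.strip1 (h : Pr K κ R ε U₁ U₂ u₁ u₂) (hc : Cst K κ ε) :
    κ ^ 6 * ∫ x in U₁ \ U₂, u₁ x ≤ 2 * K ^ 2 * ze U₁ U₂ u₁ u₂ := by
  have hK := hc.K1
  have h1 := h.lim_le hc (a := fun δ => ∫ x in U₁, chs δ u₁ u₂ x * dv (gs u₁) x)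
    (C := 2 * K ^ 2) (by positivity) h.strip_tendsto fun δ hδ hδκ hδ1 =>
      h.strip_le hc hδ hδκ hδ1
  have h2 := mul_le_mul_of_nonneg_left (h.strip_ge hc) (show 0 ≤ κ ^ 4 by positivity)
  linarith

theorem Pr.strip2 (h : Pr K κ R ε U₁ U₂ u₁ u₂) (hc : Cst K κ ε) :
    κ ^ 6 * ∫ x in U₂ \ U₁, u₂ x ≤ 2 * K ^ 2 * ze U₁ U₂ u₁ u₂ := by
  have hK := hc.K1
  have h1 := h.lim_le hc (a := fun δ => ∫ x in U₂, chs δ u₂ u₁ x * dv (gs u₂) x)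
    (C := 2 * K ^ 2) (by positivity) h.symm.strip_tendsto fun δ hδ hδκ hδ1 => by
      have h3 := h.symm.strip_le hc hδ hδκ hδ1
      have e : ∫ x in U₂ ∩ U₁, lam δ u₂ u₁ x * (u₂ x - u₁ x) ^ 2 =
          ∫ x in U₁ ∩ U₂, lam δ u₁ u₂ x * (u₁ x - u₂ x) ^ 2 := by
        rw [inter_comm]
        refine integral_congr_ae (Eventually.of_forall fun x => ?_)
        change lam δ u₂ u₁ x * (u₂ x - u₁ x) ^ 2 = _
        rw [lam_symm]
        ring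
      rw [e] at h3
      exact h3
  have h2 := mul_le_mul_of_nonneg_left (h.symm.strip_ge hc) (show 0 ≤ κ ^ 4 by positivity)
  linarith

/-! ### the main inequality -/

/-- `v_t = - ph` -/
noncomputable def ph (U : Set (E N)) (u : E N → ℝ) : E N → ℝ :=
  U.indicator fun x => dv (fl u) x + u x

/-- `Δv`, extended by zero -/
noncomputable def la (U : Set (E N)) (u : E N → ℝ) : E N → ℝ :=
  U.indicator (lap fun z => u z ^ 2)

/-- half the derivative of the energy -/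
noncomputable def II (U₁ U₂ : Set (E N)) (u₁ u₂ : E N → ℝ) : ℝ :=
  ∫ x, (ph U₁ u₁ x - ph U₂ u₂ x) * (la U₁ u₁ x - la U₂ u₂ x)

theorem St.strip_int {U : Set (E N)} {u : E N → ℝ} (h : St K κ R U u) (hK : 1 ≤ K)
    {x : E N} (hx : x ∈ U) :
    (dv (fl u) x + u x) * lap (fun z => u z ^ 2) x ≤ 4 * K ^ 3 * u x := by
  have h1 := h.abs_dvfl hx
  have h2 := h.ba x hx
  have h3 := h.pos x hx
  have h4 : |dv (fl u) x + u x| ≤ 4 * K ^ 2 * u x := by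
    refine (abs_add_le _ _).trans ?_
    rw [abs_of_pos h3]
    have : (1 : ℝ) ≤ K ^ 2 := one_le_pow₀ hK
    have := mul_le_mul_of_nonneg_right this h3.le
    linarith
  refine (le_abs_self _).trans ?_
  rw [abs_mul]
  calc |dv (fl u) x + u x| * |lap (fun z => u z ^ 2) x| ≤ 4 * K ^ 2 * u x * K := by
        gcongr
    _ = 4 * K ^ 3 * u x := by ring

theorem Pr.II_le (h : Pr K κ R ε U₁ U₂ u₁ u₂) (hc : Cst K κ ε) :
    II U₁ U₂ u₁ u₂ ≤ (∫ x in U₁ ∩ U₂, bb u₁ u₂ x * dv (ff u₁ u₂) x) +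
      (∫ x in U₁ ∩ U₂, bb u₁ u₂ x * (u₁ x - u₂ x)) +
      4 * K ^ 3 * (∫ x in U₁ \ U₂, u₁ x) + 4 * K ^ 3 * ∫ x in U₂ \ U₁, u₂ x := by
  have hK := hc.K1
  have m1 := h.s1.isOpen.measurableSet
  have m2 := h.s2.isOpen.measurableSet
  have mO := h.isOpen.measurableSet
  set f0 : E N → ℝ := fun x => bb u₁ u₂ x * dv (ff u₁ u₂) x + bb u₁ u₂ x * (u₁ x - u₂ x) with hf0
  have b0 : BC (U₁ ∩ U₂) f0 := (h.bbb.mul h.bdvff).add (h.bbb.mul h.bw)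
  have i0 : Integrable ((U₁ ∩ U₂).indicator f0) :=
    (b0.integrableOn h.isOpen h.sub).integrable_indicator mO
  have i1 : Integrable ((U₁ \ U₂).indicator fun x => 4 * K ^ 3 * u₁ x) :=
    (integrableOn_diff h.s1 ((BC.const _).mul h.s1.bc_u)).integrable_indicator (m1.diff m2)
  have i2 : Integrable ((U₂ \ U₁).indicator fun x => 4 * K ^ 3 * u₂ x) :=
    (integrableOn_diff h.s2 ((BC.const _).mul h.s2.bc_u)).integrable_indicator (m2.diff m1)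
  have p1 : Integrable (ph U₁ u₁) :=
    ((h.s1.bc_dvfl.add h.s1.bc_u).integrableOn h.s1.isOpen h.s1.sub).integrable_indicator m1
  have p2 : Integrable (ph U₂ u₂) :=
    ((h.s2.bc_dvfl.add h.s2.bc_u).integrableOn h.s2.isOpen h.s2.sub).integrable_indicator m2
  have l1 : Integrable (la U₁ u₁) :=
    (h.s1.bc_A.integrableOn h.s1.isOpen h.s1.sub).integrable_indicator m1
  have l2 : Integrable (la U₂ u₂) :=
    (h.s2.bc_A.integrableOn h.s2.isOpen h.s2.sub).integrable_indicator m2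
  have lb : ∀ x, ‖la U₁ u₁ x - la U₂ u₂ x‖ ≤ K + K := by
    intro x
    refine (norm_sub_le _ _).trans (add_le_add ?_ ?_)
    · unfold la
      by_cases hx : x ∈ U₁
      · rw [indicator_of_mem hx]
        exact h.s1.ba x hx
      · rw [indicator_of_notMem hx, norm_zero]
        linarith
    · unfold la
      by_cases hx : x ∈ U₂
      · rw [indicator_of_mem hx]
        exact h.s2.ba x hx
      · rw [indicator_of_notMem hx, norm_zero]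
        linarith
  have hi : Integrable fun x => (ph U₁ u₁ x - ph U₂ u₂ x) * (la U₁ u₁ x - la U₂ u₂ x) :=
    (p1.sub p2).mul_bdd (c := K + K) (l1.sub l2).aestronglyMeasurable (Eventually.of_forall lb)
  have key : ∀ x, (ph U₁ u₁ x - ph U₂ u₂ x) * (la U₁ u₁ x - la U₂ u₂ x) ≤
      (U₁ ∩ U₂).indicator f0 x + ((U₁ \ U₂).indicator (fun x => 4 * K ^ 3 * u₁ x) x +
        (U₂ \ U₁).indicator (fun x => 4 * K ^ 3 * u₂ x) x) := by
    intro x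
    unfold ph la
    by_cases h1 : x ∈ U₁
    · by_cases h2 : x ∈ U₂
      · have hx : x ∈ U₁ ∩ U₂ := ⟨h1, h2⟩
        rw [indicator_of_mem h1, indicator_of_mem h2, indicator_of_mem h1, indicator_of_mem h2,
          indicator_of_mem hx, indicator_of_notMem (fun hh : x ∈ U₁ \ U₂ => hh.2 h2),
          indicator_of_notMem (fun hh : x ∈ U₂ \ U₁ => hh.2 h1)]
        refine le_of_eq ?_
        simp only [hf0]
        rw [h.dv_ff hx]
        unfold bb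
        ring
      · rw [indicator_of_mem h1, indicator_of_notMem h2, indicator_of_mem h1,
          indicator_of_notMem h2, indicator_of_notMem (fun hh : x ∈ U₁ ∩ U₂ => h2 hh.2),
          indicator_of_mem (show x ∈ U₁ \ U₂ from ⟨h1, h2⟩),
          indicator_of_notMem (fun hh : x ∈ U₂ \ U₁ => h2 hh.1)]
        have := h.s1.strip_int hK h1
        rw [sub_zero, sub_zero]
        linarith
    · by_cases h2 : x ∈ U₂
      · rw [indicator_of_notMem h1, indicator_of_mem h2, indicator_of_notMem h1,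
          indicator_of_mem h2, indicator_of_notMem (fun hh : x ∈ U₁ ∩ U₂ => h1 hh.1),
          indicator_of_notMem (fun hh : x ∈ U₁ \ U₂ => h1 hh.1),
          indicator_of_mem (show x ∈ U₂ \ U₁ from ⟨h2, h1⟩)]
        have := h.s2.strip_int hK h2
        rw [zero_sub, zero_sub]
        linarith
      · rw [indicator_of_notMem h1, indicator_of_notMem h2, indicator_of_notMem h1,
          indicator_of_notMem h2, indicator_of_notMem (fun hh : x ∈ U₁ ∩ U₂ => h1 hh.1),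
          indicator_of_notMem (fun hh : x ∈ U₁ \ U₂ => h1 hh.1),
          indicator_of_notMem (fun hh : x ∈ U₂ \ U₁ => h2 hh.1)]
        simp
  have h3 : II U₁ U₂ u₁ u₂ ≤ ∫ x, ((U₁ ∩ U₂).indicator f0 x +
      ((U₁ \ U₂).indicator (fun x => 4 * K ^ 3 * u₁ x) x +
        (U₂ \ U₁).indicator (fun x => 4 * K ^ 3 * u₂ x) x)) :=
    integral_mono hi (i0.add (i1.add i2)) key
  have h4 : ∫ x, ((U₁ ∩ U₂).indicator f0 x +
      ((U₁ \ U₂).indicator (fun x => 4 * K ^ 3 * u₁ x) x +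
        (U₂ \ U₁).indicator (fun x => 4 * K ^ 3 * u₂ x) x)) =
      (∫ x in U₁ ∩ U₂, f0 x) + ((4 * K ^ 3 * ∫ x in U₁ \ U₂, u₁ x) +
        4 * K ^ 3 * ∫ x in U₂ \ U₁, u₂ x) := by
    have e1 : ∫ x, ((U₁ \ U₂).indicator (fun x => 4 * K ^ 3 * u₁ x) x +
        (U₂ \ U₁).indicator (fun x => 4 * K ^ 3 * u₂ x) x) =
        (4 * K ^ 3 * ∫ x in U₁ \ U₂, u₁ x) + 4 * K ^ 3 * ∫ x in U₂ \ U₁, u₂ x := by
      rw [integral_add i1 i2, integral_indicator (m1.diff m2), integral_indicator (m2.diff m1),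
        integral_const_mul, integral_const_mul]
    rw [← e1, ← integral_indicator mO]
    exact integral_add i0 (i1.add i2)
  have h5 : ∫ x in U₁ ∩ U₂, f0 x = (∫ x in U₁ ∩ U₂, bb u₁ u₂ x * dv (ff u₁ u₂) x) +
      ∫ x in U₁ ∩ U₂, bb u₁ u₂ x * (u₁ x - u₂ x) :=
    int_add h.isOpen h.sub (h.bbb.mul h.bdvff) (h.bbb.mul h.bw)
  rw [h4, h5] at h3
  linarith

noncomputable def cA (K κ : ℝ) : ℝ := 1440 * K ^ 4 / κ ^ 4

noncomputable def cM (K κ : ℝ) : ℝ :=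
  (4 * K ^ 2 + cA K κ) * (4 * K ^ 3 / κ ^ 8) + 4 * K ^ 3 / κ ^ 4 + 16 * K ^ 5 / κ ^ 6

noncomputable def cC (N : ℕ) (K κ : ℝ) : ℝ :=
  1 / 2 + (4 * K ^ 2 + cA K κ) * (8 * K ^ 2 / κ ^ 4) +
    cM K κ * (4 * cM K κ * cA K κ * K ^ 2 + 2 * K * N + K)

/-- **The main inequality.** -/
theorem Pr.main (h : Pr K κ R ε U₁ U₂ u₁ u₂) (hc : Cst K κ ε) :
    II U₁ U₂ u₁ u₂ ≤ cC N K κ * (EO U₁ U₂ u₁ u₂ + E2 U₁ U₂ u₁ u₂) := by
  have hK := hc.K1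
  have hκ := hc.κ0
  have hD : 0 ≤ DD U₁ U₂ u₁ u₂ := int_nonneg h.isOpen fun x _ => by positivity
  have hE : 0 ≤ EO U₁ U₂ u₁ u₂ := int_nonneg h.isOpen fun x _ => sq_nonneg _
  have hE2 : 0 ≤ E2 U₁ U₂ u₁ u₂ := int_nonneg h.isOpen fun x _ => sq_nonneg _
  have hW : 0 ≤ WW U₁ U₂ u₁ u₂ := int_nonneg h.isOpen fun x _ => sq_nonneg _
  have hB : 0 ≤ BB U₁ U₂ u₁ u₂ := int_nonneg h.isOpen fun x _ => sq_nonneg _
  have hZ := h.ze_nonneg hc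
  have cA0 : 0 < cA K κ := by
    unfold cA
    positivity
  have cM0 : 0 < cM K κ := by
    unfold cM
    positivity
  -- (a)
  have ha : BB U₁ U₂ u₁ u₂ ≤ cA K κ * (DD U₁ U₂ u₁ u₂ + EO U₁ U₂ u₁ u₂) := by
    have h1 := h.r3 hc
    unfold cA
    rw [div_mul_eq_mul_div, le_div_iff₀ (by positivity)]
    linarith
  -- (b)
  have hb : ∫ x in U₁ ∩ U₂, bb u₁ u₂ x * dv (ff u₁ u₂) x ≤
      -(3 / 4 * DD U₁ U₂ u₁ u₂) + 4 * K ^ 2 * WW U₁ U₂ u₁ u₂ +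
        4 * K ^ 3 / κ ^ 4 * ze U₁ U₂ u₁ u₂ := by
    have h1 := h.r5 hc
    have h2 : κ ^ 4 * (4 * K ^ 3 / κ ^ 4 * ze U₁ U₂ u₁ u₂) = 4 * K ^ 3 * ze U₁ U₂ u₁ u₂ := by
      field_simp
    refine le_of_mul_le_mul_left ?_ (show 0 < κ ^ 4 by positivity)
    rw [mul_add, h2]
    exact h1
  -- (c)
  have hcc : WW U₁ U₂ u₁ u₂ ≤ 8 * K ^ 2 / κ ^ 4 * (EO U₁ U₂ u₁ u₂ + E2 U₁ U₂ u₁ u₂) +
      4 * K ^ 3 / κ ^ 8 * ze U₁ U₂ u₁ u₂ := by
    have h1 := h.r6 hc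
    refine le_of_mul_le_mul_left ?_ (show 0 < κ ^ 8 by positivity)
    have h2 : κ ^ 8 * (8 * K ^ 2 / κ ^ 4 * (EO U₁ U₂ u₁ u₂ + E2 U₁ U₂ u₁ u₂) +
      4 * K ^ 3 / κ ^ 8 * ze U₁ U₂ u₁ u₂) = 8 * K ^ 2 * (κ ^ 4 * (EO U₁ U₂ u₁ u₂ +
        E2 U₁ U₂ u₁ u₂)) + 4 * K ^ 3 * ze U₁ U₂ u₁ u₂ := by
      field_simp
    rw [h2]
    exact h1
  -- (d)
  have hd1 : 4 * K ^ 3 * ∫ x in U₁ \ U₂, u₁ x ≤ 8 * K ^ 5 / κ ^ 6 * ze U₁ U₂ u₁ u₂ := by
    have h1 := mul_le_mul_of_nonneg_left (h.strip1 hc) (show 0 ≤ 4 * K ^ 3 by positivity)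
    rw [div_mul_eq_mul_div, le_div_iff₀ (by positivity)]
    linarith
  have hd2 : 4 * K ^ 3 * ∫ x in U₂ \ U₁, u₂ x ≤ 8 * K ^ 5 / κ ^ 6 * ze U₁ U₂ u₁ u₂ := by
    have h1 := mul_le_mul_of_nonneg_left (h.strip2 hc) (show 0 ≤ 4 * K ^ 3 by positivity)
    rw [div_mul_eq_mul_div, le_div_iff₀ (by positivity)]
    linarith
  -- (f)
  have hf : ∫ x in U₁ ∩ U₂, bb u₁ u₂ x * (u₁ x - u₂ x) ≤
      (∫ x in U₁ ∩ U₂, (4 * cA K κ)⁻¹ * bb u₁ u₂ x ^ 2) + cA K κ * WW U₁ U₂ u₁ u₂ := by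
    refine int_le2 h.isOpen h.sub (h.bbb.mul h.bw) ((BC.const _).mul (h.bbb.pow 2)) (h.bw.pow 2)
      fun x _ => ?_
    have h1 : 0 ≤ (4 * cA K κ)⁻¹ * (bb u₁ u₂ x - 2 * cA K κ * (u₁ x - u₂ x)) ^ 2 := by
      positivity
    have h2 : (4 * cA K κ)⁻¹ * (bb u₁ u₂ x - 2 * cA K κ * (u₁ x - u₂ x)) ^ 2 =
        (4 * cA K κ)⁻¹ * bb u₁ u₂ x ^ 2 - bb u₁ u₂ x * (u₁ x - u₂ x) +
          cA K κ * (u₁ x - u₂ x) ^ 2 := by
      field_simp
      ring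
    linarith
  rw [integral_const_mul] at hf
  have hf2 : (4 * cA K κ)⁻¹ * ∫ x in U₁ ∩ U₂, bb u₁ u₂ x ^ 2 ≤
      (DD U₁ U₂ u₁ u₂ + EO U₁ U₂ u₁ u₂) / 4 := by
    have h1 := mul_le_mul_of_nonneg_left ha (show 0 ≤ (4 * cA K κ)⁻¹ by positivity)
    have h2 : (4 * cA K κ)⁻¹ * (cA K κ * (DD U₁ U₂ u₁ u₂ + EO U₁ U₂ u₁ u₂)) =
      (DD U₁ U₂ u₁ u₂ + EO U₁ U₂ u₁ u₂) / 4 := by
      field_simp
    rw [h2] at h1
    exact h1
  -- (e)
  have he := h.r4 (θ := (4 * cM K κ * cA K κ)⁻¹) (by positivity)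
  have he2 : cM K κ * ze U₁ U₂ u₁ u₂ ≤ (DD U₁ U₂ u₁ u₂ + EO U₁ U₂ u₁ u₂) / 4 +
      cM K κ * (4 * cM K κ * cA K κ * K ^ 2 + 2 * K * N + K) * EO U₁ U₂ u₁ u₂ := by
    have h1 := mul_le_mul_of_nonneg_left he cM0.le
    have h2 : cM K κ * ((4 * cM K κ * cA K κ)⁻¹ * BB U₁ U₂ u₁ u₂) ≤
        (DD U₁ U₂ u₁ u₂ + EO U₁ U₂ u₁ u₂) / 4 := by
      have h3 := mul_le_mul_of_nonneg_left ha (show 0 ≤ (4 * cA K κ)⁻¹ by positivity)
      have h4 : (4 * cA K κ)⁻¹ * (cA K κ * (DD U₁ U₂ u₁ u₂ + EO U₁ U₂ u₁ u₂)) =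
        (DD U₁ U₂ u₁ u₂ + EO U₁ U₂ u₁ u₂) / 4 := by
        field_simp
      have h5 : cM K κ * ((4 * cM K κ * cA K κ)⁻¹ * BB U₁ U₂ u₁ u₂) =
          (4 * cA K κ)⁻¹ * BB U₁ U₂ u₁ u₂ := by
        field_simp
      rw [h5, ← h4]
      exact h3
    have h3 : K ^ 2 / (4 * cM K κ * cA K κ)⁻¹ = 4 * cM K κ * cA K κ * K ^ 2 := by
      rw [div_inv_eq_mul]
      ring
    rw [h3] at h1
    linarith
  have hII := h.II_le hc
  have hW2 := mul_le_mul_of_nonneg_left hcc (show 0 ≤ 4 * K ^ 2 + cA K κ by positivity)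
  have hfin : cM K κ * (4 * cM K κ * cA K κ * K ^ 2 + 2 * K * N + K) * EO U₁ U₂ u₁ u₂ ≤
      cM K κ * (4 * cM K κ * cA K κ * K ^ 2 + 2 * K * N + K) *
        (EO U₁ U₂ u₁ u₂ + E2 U₁ U₂ u₁ u₂) :=
    mul_le_mul_of_nonneg_left (by linarith) (by positivity)
  have hM : cM K κ * ze U₁ U₂ u₁ u₂ = (4 * K ^ 2 + cA K κ) * (4 * K ^ 3 / κ ^ 8 *
      ze U₁ U₂ u₁ u₂) + 4 * K ^ 3 / κ ^ 4 * ze U₁ U₂ u₁ u₂ +
      16 * K ^ 5 / κ ^ 6 * ze U₁ U₂ u₁ u₂ := by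
    unfold cM
    ring
  have h16 : 16 * K ^ 5 / κ ^ 6 * ze U₁ U₂ u₁ u₂ = 8 * K ^ 5 / κ ^ 6 * ze U₁ U₂ u₁ u₂ +
      8 * K ^ 5 / κ ^ 6 * ze U₁ U₂ u₁ u₂ := by ring
  have hCeq : cC N K κ * (EO U₁ U₂ u₁ u₂ + E2 U₁ U₂ u₁ u₂) =
      1 / 2 * (EO U₁ U₂ u₁ u₂ + E2 U₁ U₂ u₁ u₂) +
      (4 * K ^ 2 + cA K κ) * (8 * K ^ 2 / κ ^ 4 * (EO U₁ U₂ u₁ u₂ + E2 U₁ U₂ u₁ u₂)) +
      cM K κ * (4 * cM K κ * cA K κ * K ^ 2 + 2 * K * N + K) *
        (EO U₁ U₂ u₁ u₂ + E2 U₁ U₂ u₁ u₂) := by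
    unfold cC
    ring
  rw [hCeq]
  rw [hM, h16] at he2
  have hW3 : (4 * K ^ 2 + cA K κ) * WW U₁ U₂ u₁ u₂ =
      4 * K ^ 2 * WW U₁ U₂ u₁ u₂ + cA K κ * WW U₁ U₂ u₁ u₂ := by ring
  rw [hW3, mul_add] at hW2
  linarith

end Pool.Agent.TF
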